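import Mathlib

set_option autoImplicit false

namespace Pool.Agent.Lib.MP_2b959d_co

open Matrix

theorem spectral_core {n : Type*} [Fintype n] [DecidableEq n] (S : Matrix n n ℝ)
    (hS : S.IsHermitian) (x0 : n → ℝ)
    (h1 : ∀ x : n → ℝ, x ⬝ᵥ (S *ᵥ x) ≤ (S *ᵥ x) ⬝ᵥ (S *ᵥ x))
    (h2 : ∀ x : n → ℝ, x ⬝ᵥ (S *ᵥ x) ≤ x ⬝ᵥ x)
    (h3 : ∀ x : n → ℝ, x ⬝ᵥ (S *ᵥ x) = x ⬝ᵥ x → ∃ c : ℝ, x = c • x0)
    (x : n → ℝ) (hx : x ⬝ᵥ x0 = 0) : x ⬝ᵥ (S *ᵥ x) ≤ 0 := by
  set b := hS.eigenvectorBasis with hb
  set φ : n → n → ℝ := fun k => (b k).ofLp with hφ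
  have hev : ∀ k, S *ᵥ (φ k) = hS.eigenvalues k • (φ k) := fun k => hS.mulVec_eigenvectorBasis k
  have hpars : ∀ u w : n → ℝ, u ⬝ᵥ w = ∑ k, (u ⬝ᵥ φ k) * (φ k ⬝ᵥ w) := by
    intro u w
    have := b.sum_inner_mul_inner (WithLp.toLp 2 u) (WithLp.toLp 2 w)
    simp only [EuclideanSpace.inner_eq_star_dotProduct, star_trivial] at this
    rw [dotProduct_comm u w, ← this]
    refine Finset.sum_congr rfl (fun k _ => ?_)
    rw [dotProduct_comm u (φ k), dotProduct_comm (φ k) w]
  have hnorm : ∀ k, φ k ⬝ᵥ φ k = 1 := by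
    intro k
    have h := b.orthonormal.1 k
    have h' : inner ℝ (b k) (b k) = (1 : ℝ) := by
      rw [real_inner_self_eq_norm_sq, h]; norm_num
    rw [EuclideanSpace.inner_eq_star_dotProduct, star_trivial] at h'
    exact h'
  have hsym : ∀ u w : n → ℝ, u ⬝ᵥ (S *ᵥ w) = (S *ᵥ u) ⬝ᵥ w := by
    intro u w
    have hT : Sᵀ = S := by simpa [Matrix.IsHermitian, conjTranspose_eq_transpose_of_trivial] using hS
    rw [dotProduct_mulVec, ← mulVec_transpose, hT]
  have key : x ⬝ᵥ (S *ᵥ x) = ∑ k, hS.eigenvalues k * (x ⬝ᵥ φ k) ^ 2 := by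
    rw [hpars x (S *ᵥ x)]
    refine Finset.sum_congr rfl (fun k _ => ?_)
    rw [hsym (φ k) x, hev k, smul_dotProduct, smul_eq_mul, dotProduct_comm (φ k) x]
    ring
  rw [key]
  refine Finset.sum_nonpos (fun k _ => ?_)
  have e1 := h1 (φ k)
  have e2 := h2 (φ k)
  rw [hev k] at e1 e2
  simp only [smul_dotProduct, dotProduct_smul, hnorm, smul_eq_mul, mul_one] at e1 e2
  rcases le_or_gt (hS.eigenvalues k) 0 with h | h
  · exact mul_nonpos_of_nonpos_of_nonneg h (sq_nonneg _)
  · have e3 : hS.eigenvalues k = 1 := by nlinarith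
    obtain ⟨c, hc⟩ := h3 (φ k) (by
      rw [hev k, e3]; simp)
    have : x ⬝ᵥ φ k = 0 := by
      rw [hc, dotProduct_smul, hx]; simp
    rw [this]; simp

/-- The spectral step with weights. -/
theorem bochner {n : Type*} [Fintype n] [DecidableEq n] (a p : n → ℝ) (m : n → n → ℝ)
    (ha : ∀ i, 0 < a i) (hp : ∀ i, 0 < p i)
    (hsymm : ∀ i j, m i j = m j i)
    (hpos : ∀ i j, i ≠ j → 0 < m i j)
    (hpa : ∀ i, ∑ j, m i j * a j = p i)
    (hB : ∀ v : n → ℝ, ∑ i, v i * ∑ j, m i j * v j ≤ ∑ i, a i * (∑ j, m i j * v j) ^ 2 / p i)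
    (v : n → ℝ) (hv : ∑ i, v i * p i = 0) :
    ∑ i, v i * ∑ j, m i j * v j ≤ 0 := by
  set d : n → ℝ := fun i => Real.sqrt (p i / a i) with hd
  have hdpos : ∀ i, 0 < d i := fun i => Real.sqrt_pos.2 (div_pos (hp i) (ha i))
  have hdsq : ∀ i, d i * d i = p i / a i := fun i =>
    Real.mul_self_sqrt (div_pos (hp i) (ha i)).le
  obtain ⟨S, hSdef⟩ : ∃ S : Matrix n n ℝ, ∀ i j, S i j = m i j / (d i * d j) :=
    ⟨Matrix.of (fun i j => m i j / (d i * d j)), fun i j => rfl⟩
  have hS : S.IsHermitian := by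
    ext i j
    rw [conjTranspose_apply, star_trivial, hSdef, hSdef, hsymm j i, mul_comm (d j)]
  -- substitution x = d * v
  have hsub : ∀ (x : n → ℝ) (i : n), (S *ᵥ x) i = (∑ j, m i j * (x j / d j)) / d i := by
    intro x i
    simp only [mulVec, dotProduct, hSdef]
    rw [Finset.sum_div]
    refine Finset.sum_congr rfl (fun j _ => ?_)
    field_simp
  have hform : ∀ x : n → ℝ, x ⬝ᵥ (S *ᵥ x) = ∑ i, (x i / d i) * ∑ j, m i j * (x j / d j) := by
    intro x
    simp only [dotProduct]
    refine Finset.sum_congr rfl (fun i _ => ?_)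
    rw [hsub]
    ring
  have hform2 : ∀ x : n → ℝ, (S *ᵥ x) ⬝ᵥ (S *ᵥ x) =
      ∑ i, a i * (∑ j, m i j * (x j / d j)) ^ 2 / p i := by
    intro x
    simp only [dotProduct]
    refine Finset.sum_congr rfl (fun i _ => ?_)
    rw [hsub]
    have h1 := hdsq i
    have h2 := (ha i).ne'
    have h3 := (hp i).ne'
    have h4 := (hdpos i).ne'
    have h5 : (∑ j, m i j * (x j / d j)) / d i * ((∑ j, m i j * (x j / d j)) / d i) =
        (∑ j, m i j * (x j / d j)) ^ 2 / (d i * d i) := by
      field_simp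
    rw [h5, h1]
    field_simp
  have hid : ∀ t : n → ℝ, ∑ i, t i * t i * (a i * p i) - ∑ i, (t i * a i) * ∑ j, m i j * (t j * a j)
      = (1 / 2) * ∑ i, ∑ j, m i j * a i * a j * (t i - t j) ^ 2 := by
    intro t
    have e1 : ∑ i, t i * t i * (a i * p i) = ∑ i, ∑ j, m i j * a i * a j * (t i * t i) := by
      refine Finset.sum_congr rfl (fun i _ => ?_)
      rw [← hpa i, Finset.mul_sum, Finset.mul_sum]
      refine Finset.sum_congr rfl (fun j _ => ?_)
      ring
    have e2 : ∑ i, t i * t i * (a i * p i) = ∑ i, ∑ j, m i j * a i * a j * (t j * t j) := by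
      rw [e1, Finset.sum_comm]
      refine Finset.sum_congr rfl (fun i _ => Finset.sum_congr rfl (fun j _ => ?_))
      rw [hsymm j i]; ring
    have e3 : ∑ i, (t i * a i) * ∑ j, m i j * (t j * a j) =
        ∑ i, ∑ j, m i j * a i * a j * (t i * t j) := by
      refine Finset.sum_congr rfl (fun i _ => ?_)
      rw [Finset.mul_sum]
      refine Finset.sum_congr rfl (fun j _ => ?_)
      ring
    have e4 : ∑ i, ∑ j, m i j * a i * a j * (t i - t j) ^ 2 =
        ∑ i, ∑ j, m i j * a i * a j * (t i * t i) + ∑ i, ∑ j, m i j * a i * a j * (t j * t j)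
        - 2 * ∑ i, ∑ j, m i j * a i * a j * (t i * t j) := by
      rw [Finset.mul_sum, ← Finset.sum_add_distrib, ← Finset.sum_sub_distrib]
      refine Finset.sum_congr rfl (fun i _ => ?_)
      rw [Finset.mul_sum, ← Finset.sum_add_distrib, ← Finset.sum_sub_distrib]
      refine Finset.sum_congr rfl (fun j _ => ?_)
      ring
    rw [e3, e4, ← e1, ← e2]
    ring
  have hterm : ∀ (t : n → ℝ) (i j : n), 0 ≤ m i j * a i * a j * (t i - t j) ^ 2 := by
    intro t i j
    by_cases hij : i = j
    · subst hij; simp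
    · have := hpos i j hij
      have := ha i
      have := ha j
      positivity
  -- relation between x and t
  have hxx : ∀ x : n → ℝ, x ⬝ᵥ x = ∑ i, (x i / d i / a i) * (x i / d i / a i) * (a i * p i) := by
    intro x
    simp only [dotProduct]
    refine Finset.sum_congr rfl (fun i _ => ?_)
    have h1 := hdsq i
    have h2 := (ha i).ne'
    have h3 := (hp i).ne'
    have h4 := (hdpos i).ne'
    have h5 : p i = d i * d i * a i := by rw [h1]; field_simp
    rw [h5]
    field_simp
  have hxs : ∀ x : n → ℝ, x ⬝ᵥ (S *ᵥ x) = ∑ i, (x i / d i / a i * a i) *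
      ∑ j, m i j * (x j / d j / a j * a j) := by
    intro x
    rw [hform]
    have h0 : ∀ i, x i / d i / a i * a i = x i / d i := fun i => div_mul_cancel₀ _ (ha i).ne'
    simp only [h0]
  have hmain := spectral_core S hS (fun i => d i * a i)
    (by
      intro x
      rw [hform, hform2]
      exact hB _)
    (by
      intro x
      rw [hxx, hxs]
      have h1 := hid (fun i => x i / d i / a i)
      have h2 : 0 ≤ ∑ i, ∑ j, m i j * a i * a j * (x i / d i / a i - x j / d j / a j) ^ 2 :=
        Finset.sum_nonneg (fun i _ => Finset.sum_nonneg (fun j _ =>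
          hterm (fun i => x i / d i / a i) i j))
      linarith)
    (by
      intro x hx
      rw [hxx, hxs] at hx
      have h1 := hid (fun i => x i / d i / a i)
      have h2 : ∑ i, ∑ j, m i j * a i * a j * (x i / d i / a i - x j / d j / a j) ^ 2 = 0 := by
        linarith
      have h3 : ∀ i j, x i / d i / a i = x j / d j / a j := by
        intro i j
        by_cases hij : i = j
        · rw [hij]
        · have h4 := (Finset.sum_eq_zero_iff_of_nonneg (fun i _ => Finset.sum_nonneg (fun j _ =>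
            hterm (fun i => x i / d i / a i) i j))).1 h2 i (Finset.mem_univ _)
          have h5 := (Finset.sum_eq_zero_iff_of_nonneg (fun j _ =>
            hterm (fun i => x i / d i / a i) i j)).1 h4 j (Finset.mem_univ _)
          have h6 : 0 < m i j * a i * a j := by
            have := hpos i j hij
            have := ha i
            have := ha j
            positivity
          have h7 : (x i / d i / a i - x j / d j / a j) ^ 2 = 0 := by
            rcases mul_eq_zero.1 h5 with h | h
            · exact absurd h h6.ne'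
            · exact h
          have := pow_eq_zero_iff (two_ne_zero) |>.1 h7
          linarith
      rcases isEmpty_or_nonempty n with hn | ⟨⟨i0⟩⟩
      · exact ⟨0, by ext i; exact (hn.false i).elim⟩
      · refine ⟨x i0 / d i0 / a i0, ?_⟩
        ext i
        simp only [Pi.smul_apply, smul_eq_mul]
        rw [← h3 i i0]
        have h2 := (ha i).ne'
        have h4 := (hdpos i).ne'
        field_simp)
    (fun i => d i * v i)
    (by
      simp only [dotProduct]
      rw [← hv]
      refine Finset.sum_congr rfl (fun i _ => ?_)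
      have h1 := hdsq i
      have h2 := (ha i).ne'
      have h5 : p i = d i * d i * a i := by rw [h1]; field_simp
      rw [h5]; ring)
  rw [hform] at hmain
  have h0 : ∀ i, d i * v i / d i = v i := fun i => mul_div_cancel_left₀ _ (hdpos i).ne'
  simpa only [h0] using hmain

end Pool.Agent.Lib.MP_2b959d_co
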