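import Mathlib
import Pool.Agent.Lib.MP_2b959d_co.Spectral

/-!
Mixed permanents along lists of vectors, and the Alexandrov-Fenchel inequality for permanents.
-/

set_option autoImplicit false

namespace Pool.Agent.Lib.MP_2b959d_co

variable {ι : Type*} [DecidableEq ι]

/-- the mixed permanent of a list of vectors along the rows `s` -/
def mper : List (ι → ℝ) → Finset ι → ℝ
  | [], _ => 1
  | v :: L, s => ∑ i ∈ s, v i * mper L (s.erase i)

@[simp] theorem mper_nil (s : Finset ι) : mper [] s = 1 := rfl

theorem mper_cons (v : ι → ℝ) (L : List (ι → ℝ)) (s : Finset ι) :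
    mper (v :: L) s = ∑ i ∈ s, v i * mper L (s.erase i) := rfl

theorem mper_swap (v w : ι → ℝ) (L : List (ι → ℝ)) (s : Finset ι) :
    mper (v :: w :: L) s = mper (w :: v :: L) s := by
  simp only [mper_cons, Finset.mul_sum]
  rw [Finset.sum_comm' (t' := s) (s' := fun j => s.erase j)]
  · refine Finset.sum_congr rfl (fun i _ => Finset.sum_congr rfl (fun j _ => ?_))
    rw [Finset.erase_right_comm]
    ring
  · intro i j
    simp only [Finset.mem_erase, ne_eq]
    constructor
    · rintro ⟨h1, h2, h3⟩
      exact ⟨⟨fun h => h2 h.symm, h1⟩, h3⟩
    · rintro ⟨⟨h1, h2⟩, h3⟩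
      exact ⟨h2, fun h => h1 h.symm, h3⟩

theorem mper_perm {L L' : List (ι → ℝ)} (h : L.Perm L') : ∀ s : Finset ι, mper L s = mper L' s := by
  induction h with
  | nil => intro s; rfl
  | cons x _ ih =>
    intro s
    rw [mper_cons, mper_cons]
    exact Finset.sum_congr rfl (fun i _ => by rw [ih])
  | swap x y l => intro s; exact mper_swap _ _ _ _
  | trans _ _ ih1 ih2 => intro s; rw [ih1, ih2]

theorem mper_add (v w : ι → ℝ) (L : List (ι → ℝ)) (s : Finset ι) :
    mper ((v + w) :: L) s = mper (v :: L) s + mper (w :: L) s := by
  simp only [mper_cons, Pi.add_apply, add_mul, Finset.sum_add_distrib]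

theorem mper_smul (a : ℝ) (v : ι → ℝ) (L : List (ι → ℝ)) (s : Finset ι) :
    mper ((a • v) :: L) s = a * mper (v :: L) s := by
  simp only [mper_cons, Pi.smul_apply, smul_eq_mul, Finset.mul_sum, mul_assoc]

theorem mper_nonneg : ∀ (L : List (ι → ℝ)) (s : Finset ι), (∀ v ∈ L, ∀ i ∈ s, 0 ≤ v i) →
    0 ≤ mper L s := by
  intro L
  induction L with
  | nil => intro s _; simp
  | cons v L ih =>
    intro s h
    rw [mper_cons]
    refine Finset.sum_nonneg (fun i hi => mul_nonneg (h v (by simp) i hi) (ih _ ?_))
    intro w hw j hj
    exact h w (by simp [hw]) j (Finset.mem_of_mem_erase hj)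

theorem mper_pos : ∀ (L : List (ι → ℝ)) (s : Finset ι), (∀ v ∈ L, ∀ i ∈ s, 0 < v i) →
    L.length ≤ s.card → 0 < mper L s := by
  intro L
  induction L with
  | nil => intro s _ _; simp
  | cons v L ih =>
    intro s h hc
    rw [mper_cons]
    have hne : s.Nonempty := by
      rw [← Finset.card_pos]
      simp only [List.length_cons] at hc
      omega
    refine Finset.sum_pos (fun i hi => mul_pos (h v (by simp) i hi) (ih _ ?_ ?_)) hne
    · intro w hw j hj
      exact h w (by simp [hw]) j (Finset.mem_of_mem_erase hj)
    · rw [Finset.card_erase_of_mem hi]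
      simp only [List.length_cons] at hc
      omega

/-- Alexandrov-Fenchel inequality for mixed permanents. -/
theorem af : ∀ (L : List (ι → ℝ)) (s : Finset ι), (∀ v ∈ L, ∀ i ∈ s, 0 < v i) →
    L.length + 2 = s.card → ∀ x y : ι → ℝ, (∀ i ∈ s, 0 < y i) →
    mper (x :: x :: L) s * mper (y :: y :: L) s ≤ (mper (x :: y :: L) s) ^ 2 := by
  intro L
  induction L with
  | nil =>
    intro s _ hc x y hy
    simp only [List.length_nil, zero_add] at hc
    obtain ⟨i, j, hij, rfl⟩ := Finset.card_eq_two.1 hc.symm
    have h : ∀ u w : ι → ℝ, mper [u, w] {i, j} = u i * w j + u j * w i := by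
      intro u w
      have e1 : ({i, j} : Finset ι).erase i = {j} := by
        ext k; simp only [Finset.mem_erase, Finset.mem_insert, Finset.mem_singleton]
        constructor
        · rintro ⟨h1, h2 | h2⟩
          · exact absurd h2 h1
          · exact h2
        · rintro rfl; exact ⟨hij.symm, Or.inr rfl⟩
      have e2 : ({i, j} : Finset ι).erase j = {i} := by
        ext k; simp only [Finset.mem_erase, Finset.mem_insert, Finset.mem_singleton]
        constructor
        · rintro ⟨h1, h2 | h2⟩
          · exact h2
          · exact absurd h2 h1
        · rintro rfl; exact ⟨hij, Or.inl rfl⟩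
      rw [mper_cons, Finset.sum_pair hij, e1, e2]
      simp [mper_cons]
    rw [h, h, h]
    nlinarith [sq_nonneg (x i * y j - x j * y i)]
  | cons a L ih =>
    intro s hL hc x y hy
    have haL : ∀ i ∈ s, 0 < a i := fun i hi => hL a (by simp) i hi
    simp only [List.length_cons] at hc
    -- the kernel
    set m : s → s → ℝ := fun i j => if i = j then 0 else mper (a :: L) ((s.erase i).erase j) with hm
    have hQ1 : ∀ (v : ι → ℝ) (i : s), ∑ j : s, m i j * v j = mper (v :: a :: L) (s.erase i) := by
      intro v i
      rw [mper_cons]
      have e1 : ∑ j : s, m i j * v j =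
          ∑ j ∈ s, (if (i : ι) = j then 0 else mper (a :: L) ((s.erase i).erase j)) * v j := by
        rw [← Finset.sum_coe_sort s]
        refine Finset.sum_congr rfl (fun j _ => ?_)
        simp only [hm, Subtype.ext_iff]
      rw [e1, ← Finset.add_sum_erase s _ i.2]
      simp only [if_true, zero_mul, zero_add]
      refine Finset.sum_congr rfl (fun j hj => ?_)
      rw [if_neg (fun h => (Finset.mem_erase.1 hj).1 h.symm)]
      ring
    have hQ2 : ∀ (u v : ι → ℝ), ∑ i : s, u i * ∑ j : s, m i j * v j =
        mper (u :: v :: a :: L) s := by
      intro u v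
      rw [mper_cons, ← Finset.sum_coe_sort s]
      refine Finset.sum_congr rfl (fun i _ => ?_)
      rw [hQ1]
    have hppos : ∀ i : s, 0 < mper (a :: a :: L) (s.erase i) := by
      intro i
      refine mper_pos _ _ ?_ ?_
      · intro v hv j hj
        have hj' := Finset.mem_of_mem_erase hj
        simp only [List.mem_cons] at hv
        rcases hv with rfl | rfl | hv
        · exact haL j hj'
        · exact haL j hj'
        · exact hL v (by simp [hv]) j hj'
      · rw [Finset.card_erase_of_mem i.2]
        simp only [List.length_cons]
        omega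
    have hneg : ∀ v : ι → ℝ, mper (v :: a :: a :: L) s = 0 → mper (v :: v :: a :: L) s ≤ 0 := by
      intro v hv
      have := bochner (fun i : s => a i) (fun i : s => mper (a :: a :: L) (s.erase i)) m
        (fun i => haL i i.2) hppos
        (by
          intro i j
          simp only [hm]
          by_cases hij : i = j
          · rw [hij]
          · rw [if_neg hij, if_neg (fun h => hij h.symm), Finset.erase_right_comm])
        (by
          intro i j hij
          simp only [hm]
          rw [if_neg hij]
          refine mper_pos _ _ ?_ ?_
          · intro v hv k hk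
            have hk' := Finset.mem_of_mem_erase (Finset.mem_of_mem_erase hk)
            exact hL v hv k hk'
          · rw [Finset.card_erase_of_mem, Finset.card_erase_of_mem i.2]
            · simp only [List.length_cons]
              omega
            · rw [Finset.mem_erase]
              exact ⟨fun h => hij (Subtype.ext h.symm), j.2⟩)
        (fun i => hQ1 a i)
        (by
          intro w
          -- extend w to a vector on ι
          set w' : ι → ℝ := fun i => if h : i ∈ s then w ⟨i, h⟩ else 0 with hw'
          have hww : ∀ i : s, w i = w' i := by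
            intro i
            simp [hw', i.2]
          have e1 : ∑ i : s, w i * ∑ j : s, m i j * w j = mper (w' :: w' :: a :: L) s := by
            rw [← hQ2]
            refine Finset.sum_congr rfl (fun i _ => ?_)
            rw [hww i]
            congr 1
            refine Finset.sum_congr rfl (fun j _ => ?_)
            rw [hww j]
          have e2 : mper (w' :: w' :: a :: L) s = mper (a :: w' :: w' :: L) s := by
            refine mper_perm ?_ s
            calc (w' :: w' :: a :: L).Perm (w' :: a :: w' :: L) := List.Perm.cons _ (List.Perm.swap _ _ _)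
              _ |>.Perm (a :: w' :: w' :: L) := List.Perm.swap _ _ _
          rw [e1, e2, mper_cons, ← Finset.sum_coe_sort s]
          refine Finset.sum_le_sum (fun i _ => ?_)
          have e3 : ∑ j : s, m i j * w j = mper (w' :: a :: L) (s.erase i) := by
            rw [← hQ1]
            refine Finset.sum_congr rfl (fun j _ => ?_)
            rw [hww j]
          rw [e3]
          have hih := ih (s.erase i) (fun v hv k hk => hL v (by simp [hv]) k
            (Finset.mem_of_mem_erase hk)) (by
              rw [Finset.card_erase_of_mem i.2]; omega) w' a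
            (fun k hk => haL k (Finset.mem_of_mem_erase hk))
          have hp := hppos i
          rw [mul_div_assoc]
          refine mul_le_mul_of_nonneg_left ?_ (haL i i.2).le
          rw [le_div_iff₀ hp]
          exact hih)
        (fun i : s => v i)
        (by
          rw [← hv, mper_cons, ← Finset.sum_coe_sort s])
      rw [hQ2 v v] at this
      exact this
    have hQya : 0 < mper (y :: a :: a :: L) s := by
      refine mper_pos _ _ ?_ ?_
      · intro v hv j hj
        simp only [List.mem_cons] at hv
        rcases hv with rfl | rfl | rfl | hv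
        · exact hy j hj
        · exact haL j hj
        · exact haL j hj
        · exact hL v (by simp [hv]) j hj
      · simp only [List.length_cons]
        omega
    have hQyy : 0 < mper (y :: y :: a :: L) s := by
      refine mper_pos _ _ ?_ ?_
      · intro v hv j hj
        simp only [List.mem_cons] at hv
        rcases hv with rfl | rfl | rfl | hv
        · exact hy j hj
        · exact hy j hj
        · exact haL j hj
        · exact hL v (by simp [hv]) j hj
      · simp only [List.length_cons]
        omega
    set c : ℝ := mper (x :: a :: a :: L) s / mper (y :: a :: a :: L) s with hcdef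
    have hlin : ∀ (u : ι → ℝ) (M : List (ι → ℝ)), mper ((x + (-c) • y) :: M) s =
        mper (x :: M) s - c * mper (y :: M) s := by
      intro u M
      rw [mper_add, mper_smul]; ring
    have hz0 : mper ((x + (-c) • y) :: a :: a :: L) s = 0 := by
      rw [hlin x, hcdef, div_mul_cancel₀ _ hQya.ne', sub_self]
    have hz1 := hneg _ hz0
    have hsw : ∀ (u w : ι → ℝ), mper (u :: w :: a :: L) s = mper (w :: u :: a :: L) s :=
      fun u w => mper_swap _ _ _ _
    have hz2 : mper ((x + (-c) • y) :: (x + (-c) • y) :: a :: L) s =
        mper (x :: x :: a :: L) s - 2 * c * mper (x :: y :: a :: L) s +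
        c ^ 2 * mper (y :: y :: a :: L) s := by
      rw [hlin x, hsw x, hsw y, hlin x, hlin x, hsw y x]
      ring
    rw [hz2] at hz1
    nlinarith [sq_nonneg (mper (x :: y :: a :: L) s - c * mper (y :: y :: a :: L) s),
      mul_nonneg hQyy.le (sub_nonneg.2 hz1)]

end Pool.Agent.Lib.MP_2b959d_co
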