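import Mathlib
import Pool.Agent.Lib.MP_2b959d_co.Mper

/-!
The capacity chain: from a lower bound for the one-column-left stage to the permanent.
-/

set_option autoImplicit false

namespace Pool.Agent.Lib.MP_2b959d_co

variable {ι : Type*} [DecidableEq ι]

theorem mper_replicate (w : ι → ℝ) : ∀ (k : ℕ) (s : Finset ι), s.card = k →
    mper (List.replicate k w) s = k.factorial * ∏ i ∈ s, w i := by
  intro k
  induction k with
  | zero =>
    intro s hs
    rw [Finset.card_eq_zero] at hs
    subst hs
    simp
  | succ k ih =>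
    intro s hs
    rw [List.replicate_succ, mper_cons]
    have h1 : ∀ i ∈ s, w i * mper (List.replicate k w) (s.erase i) =
        k.factorial * ∏ j ∈ s, w j := by
      intro i hi
      rw [ih _ (by rw [Finset.card_erase_of_mem hi, hs]; rfl), ← Finset.mul_prod_erase s w hi]
      ring
    rw [Finset.sum_congr rfl h1, Finset.sum_const, hs, Nat.factorial_succ]
    push_cast
    rw [nsmul_eq_mul]
    push_cast
    ring

/-- log-concave sequences: the last term is controlled by the first two. -/
theorem logconcave_bound (T : ℕ → ℝ) (m : ℕ) (hpos : ∀ k, k ≤ m → 0 < T k)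
    (hlc : ∀ k, k + 2 ≤ m → T k * T (k + 2) ≤ T (k + 1) ^ 2) :
    ∀ k, k ≤ m → T k * T 0 ^ k ≤ T 0 * T 1 ^ k := by
  have h1 : ∀ k, k + 1 ≤ m → T (k + 1) * T 0 ≤ T k * T 1 := by
    intro k
    induction k with
    | zero => intro _; exact (mul_comm _ _).le
    | succ k ih =>
      intro hk
      have e1 := ih (by omega)
      have e2 := hlc k (by omega)
      have p0 := hpos 0 (by omega)
      have pk := hpos k (by omega)
      have pk1 := hpos (k + 1) (by omega)
      have pk2 := hpos (k + 2) (by omega)
      have e3 : T k * (T (k + 1 + 1) * T 0) ≤ T k * (T (k + 1) * T 1) := by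
        calc T k * (T (k + 1 + 1) * T 0) = (T k * T (k + 2)) * T 0 := by ring_nf
          _ ≤ T (k + 1) ^ 2 * T 0 := mul_le_mul_of_nonneg_right e2 p0.le
          _ = T (k + 1) * (T (k + 1) * T 0) := by ring
          _ ≤ T (k + 1) * (T k * T 1) := mul_le_mul_of_nonneg_left e1 pk1.le
          _ = T k * (T (k + 1) * T 1) := by ring
      exact le_of_mul_le_mul_left e3 pk
  intro k
  induction k with
  | zero => intro _; simp
  | succ k ih =>
    intro hk
    have e1 := h1 k hk
    have e2 := ih (by omega)
    have p0 := hpos 0 (by omega)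
    have p1 := hpos 1 (by omega)
    calc T (k + 1) * T 0 ^ (k + 1) = (T (k + 1) * T 0) * T 0 ^ k := by ring
      _ ≤ (T k * T 1) * T 0 ^ k := mul_le_mul_of_nonneg_right e1 (pow_pos p0 _).le
      _ = (T k * T 0 ^ k) * T 1 := by ring
      _ ≤ (T 0 * T 1 ^ k) * T 1 := mul_le_mul_of_nonneg_right e2 p1.le
      _ = T 0 * T 1 ^ (k + 1) := by ring

/-- mixing two vectors -/
theorem mix_bound (s : Finset ι) (u w : ι → ℝ) (R : List (ι → ℝ)) (m : ℕ)
    (hu : ∀ i ∈ s, 0 < u i) (hw : ∀ i ∈ s, 0 < w i) (hR : ∀ v ∈ R, ∀ i ∈ s, 0 < v i)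
    (hcard : m + 1 + R.length = s.card) :
    mper (List.replicate (m + 1) u ++ R) s * (mper (List.replicate (m + 1) w ++ R) s) ^ m ≤
      (mper (u :: (List.replicate m w ++ R)) s) ^ (m + 1) := by
  set T : ℕ → ℝ := fun k =>
    mper (List.replicate k u ++ (List.replicate (m + 1 - k) w ++ R)) s with hT
  have hpos : ∀ k, k ≤ m + 1 → 0 < T k := by
    intro k hk
    refine mper_pos _ _ ?_ ?_
    · intro v hv i hi
      simp only [List.mem_append, List.mem_replicate] at hv
      rcases hv with hv | hv | hv
      · rw [hv.2]; exact hu i hi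
      · rw [hv.2]; exact hw i hi
      · exact hR v hv i hi
    · simp only [List.length_append, List.length_replicate]
      omega
  have hlc : ∀ k, k + 2 ≤ m + 1 → T k * T (k + 2) ≤ T (k + 1) ^ 2 := by
    intro k hk
    set M : List (ι → ℝ) := List.replicate k u ++ (List.replicate (m + 1 - (k + 2)) w ++ R) with hM
    have e0 : T k = mper (w :: w :: M) s := by
      simp only [hT]
      refine mper_perm ?_ s
      have h1 : m + 1 - k = (m + 1 - (k + 2)) + 1 + 1 := by omega
      rw [h1, List.replicate_succ, List.replicate_succ, hM]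
      rw [List.cons_append, List.cons_append]
      exact (List.perm_middle.trans (List.Perm.cons _ List.perm_middle))
    have e1 : T (k + 1) = mper (u :: w :: M) s := by
      simp only [hT]
      refine mper_perm ?_ s
      have h1 : m + 1 - (k + 1) = (m + 1 - (k + 2)) + 1 := by omega
      rw [h1, List.replicate_succ, List.replicate_succ, hM]
      rw [List.cons_append, List.cons_append]
      exact List.Perm.cons _ List.perm_middle
    have e2 : T (k + 2) = mper (u :: u :: M) s := by
      simp only [hT]
      refine mper_perm ?_ s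
      rw [List.replicate_succ, List.replicate_succ, hM]
      rw [List.cons_append, List.cons_append]
    rw [e0, e1, e2]
    have h3 := af M s (by
      intro v hv i hi
      simp only [hM, List.mem_append, List.mem_replicate] at hv
      rcases hv with hv | hv | hv
      · rw [hv.2]; exact hu i hi
      · rw [hv.2]; exact hw i hi
      · exact hR v hv i hi) (by
      simp only [hM, List.length_append, List.length_replicate]
      omega) u w hw
    rw [mul_comm]
    exact h3
  have h4 := logconcave_bound T (m + 1) hpos hlc (m + 1) le_rfl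
  have e0 : T 0 = mper (List.replicate (m + 1) w ++ R) s := by simp [hT]
  have e1 : T 1 = mper (u :: (List.replicate m w ++ R)) s := by simp [hT]
  have em : T (m + 1) = mper (List.replicate (m + 1) u ++ R) s := by simp [hT]
  rw [← e0, ← e1, ← em]
  have p0 := hpos 0 (by omega)
  have h5 : T 0 * (T (m + 1) * T 0 ^ m) ≤ T 0 * T 1 ^ (m + 1) := by
    calc T 0 * (T (m + 1) * T 0 ^ m) = T (m + 1) * T 0 ^ (m + 1) := by ring
      _ ≤ _ := h4
  exact le_of_mul_le_mul_left h5 p0

/-- The capacity step and its iteration. -/
theorem chain (s : Finset ι) (n : ℕ) (hn : s.card = n) (a : ℕ → ι → ℝ)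
    (ha : ∀ j, j < n → ∀ i ∈ s, 0 < a j i) (κ : ℝ) :
    ∀ m, m + 1 ≤ n →
    (∀ x : ℕ → ℝ, (∀ j, 0 < x j) → κ * ((m : ℝ) + 1) ^ (m + 1) * ∏ j ∈ Finset.range (m + 1), x j ≤
      mper (List.replicate (m + 1) (∑ j ∈ Finset.range (m + 1), x j • a j) ++
        (List.range' (m + 1) (n - (m + 1))).map a) s) →
    κ ≤ mper ((List.range' 0 n).map a) s := by
  intro m
  induction m with
  | zero =>
    intro hm h
    have h1 := h (fun _ => 1) (fun _ => one_pos)
    simp only [zero_add, Finset.range_one, Finset.prod_const_one, Nat.cast_zero, one_pow, mul_one,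
      Finset.sum_singleton, one_smul, List.replicate_one, List.singleton_append] at h1
    have e : List.range' 0 n = 0 :: List.range' 1 (n - 1) := by
      obtain ⟨k, rfl⟩ : ∃ k, n = k + 1 := ⟨n - 1, by omega⟩
      rw [List.range'_succ]; simp
    rw [e, List.map_cons]
    exact h1
  | succ m ih =>
    intro hm h
    apply ih (by omega)
    intro y hy
    set w : ι → ℝ := ∑ j ∈ Finset.range (m + 1), y j • a j with hw
    set R : List (ι → ℝ) := (List.range' (m + 1 + 1) (n - (m + 1 + 1))).map a with hR
    have etail : (List.range' (m + 1) (n - (m + 1))).map a = a (m + 1) :: R := by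
      have e : n - (m + 1) = (n - (m + 1 + 1)) + 1 := by omega
      rw [e, List.range'_succ, List.map_cons]
    rw [etail]
    have hRpos : ∀ v ∈ R, ∀ i ∈ s, 0 < v i := by
      intro v hv i hi
      simp only [hR, List.mem_map, List.mem_range'_1] at hv
      obtain ⟨j, hj, rfl⟩ := hv
      exact ha j (by omega) i hi
    have hwpos : ∀ i ∈ s, 0 < w i := by
      intro i hi
      simp only [hw, Finset.sum_apply, Pi.smul_apply, smul_eq_mul]
      refine Finset.sum_pos (fun j hj => mul_pos (hy j) (ha j ?_ i hi)) ⟨0, by simp⟩
      have := Finset.mem_range.1 hj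
      omega
    have hampos : ∀ i ∈ s, 0 < a (m + 1) i := fun i hi => ha (m + 1) (by omega) i hi
    have hRlen : R.length = n - (m + 1 + 1) := by simp [hR]
    set V : ℝ := mper (List.replicate (m + 1) w ++ a (m + 1) :: R) s with hV
    set T0 : ℝ := mper (List.replicate (m + 1 + 1) w ++ R) s with hT0
    have hVpos : 0 < V := by
      refine mper_pos _ _ ?_ ?_
      · intro v hv i hi
        simp only [List.mem_append, List.mem_replicate, List.mem_cons] at hv
        rcases hv with hv | hv | hv
        · rw [hv.2]; exact hwpos i hi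
        · rw [hv]; exact hampos i hi
        · exact hRpos v hv i hi
      · simp only [List.length_append, List.length_replicate, List.length_cons, hRlen]
        omega
    have hT0pos : 0 < T0 := by
      refine mper_pos _ _ ?_ ?_
      · intro v hv i hi
        simp only [List.mem_append, List.mem_replicate] at hv
        rcases hv with hv | hv
        · rw [hv.2]; exact hwpos i hi
        · exact hRpos v hv i hi
      · simp only [List.length_append, List.length_replicate, hRlen]
        omega
    set M : ℝ := (m : ℝ) + 1 with hM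
    have hMpos : 0 < M := by positivity
    set t : ℝ := T0 / (M * V) with ht
    have htpos : 0 < t := by positivity
    set u : ι → ℝ := w + t • a (m + 1) with hu
    have hupos : ∀ i ∈ s, 0 < u i := by
      intro i hi
      simp only [hu, Pi.add_apply, Pi.smul_apply, smul_eq_mul]
      have := hwpos i hi
      have := hampos i hi
      positivity
    -- apply the hypothesis to x = update y (m+1) t
    have h1 := h (Function.update y (m + 1) t) (by
      intro j
      by_cases hj : j = m + 1
      · subst hj; simpa using htpos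
      · rw [Function.update_of_ne hj]; exact hy j)
    have e1 : ∑ j ∈ Finset.range (m + 1 + 1), Function.update y (m + 1) t j • a j = u := by
      rw [Finset.sum_range_succ, Function.update_self, hu, hw]
      congr 1
      refine Finset.sum_congr rfl (fun j hj => ?_)
      rw [Function.update_of_ne (Finset.mem_range.1 hj).ne]
    have e2 : ∏ j ∈ Finset.range (m + 1 + 1), Function.update y (m + 1) t j =
        (∏ j ∈ Finset.range (m + 1), y j) * t := by
      rw [Finset.prod_range_succ, Function.update_self]
      congr 1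
      refine Finset.prod_congr rfl (fun j hj => ?_)
      rw [Function.update_of_ne (Finset.mem_range.1 hj).ne]
    rw [e1, e2] at h1
    have h2 := mix_bound s u w R (m + 1) hupos hwpos hRpos (by rw [hRlen]; omega)
    have e3 : mper (u :: (List.replicate (m + 1) w ++ R)) s = T0 + t * V := by
      rw [hu, mper_add, mper_smul, hT0, hV, List.replicate_succ (n := m + 1), List.cons_append]
      congr 2
      exact mper_perm (List.perm_middle.symm) s
    have e4 : T0 + t * V = T0 * ((M + 1) / M) := by
      rw [ht]; field_simp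
    rw [e3, e4, ← hT0] at h2
    set Y : ℝ := ∏ j ∈ Finset.range (m + 1), y j with hY
    -- combine
    have h3 : κ * (M + 1) ^ (m + 1 + 1) * (Y * t) * T0 ^ (m + 1) ≤ (T0 * ((M + 1) / M)) ^ (m + 1 + 1) := by
      refine le_trans (mul_le_mul_of_nonneg_right ?_ (pow_pos hT0pos _).le) h2
      have : ((m + 1 : ℕ) : ℝ) + 1 = M + 1 := by push_cast; ring
      rw [this] at h1
      exact h1
    have h4 : κ * M ^ (m + 1) * Y * ((M + 1) ^ (m + 1 + 1) * T0 ^ (m + 1 + 1) / (M ^ (m + 1 + 1) * V))
        ≤ V * ((M + 1) ^ (m + 1 + 1) * T0 ^ (m + 1 + 1) / (M ^ (m + 1 + 1) * V)) := by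
      calc κ * M ^ (m + 1) * Y * ((M + 1) ^ (m + 1 + 1) * T0 ^ (m + 1 + 1) / (M ^ (m + 1 + 1) * V))
          = κ * (M + 1) ^ (m + 1 + 1) * (Y * t) * T0 ^ (m + 1) := by
            rw [ht]; field_simp; ring
        _ ≤ (T0 * ((M + 1) / M)) ^ (m + 1 + 1) := h3
        _ = V * ((M + 1) ^ (m + 1 + 1) * T0 ^ (m + 1 + 1) / (M ^ (m + 1 + 1) * V)) := by
            rw [mul_pow, div_pow]; field_simp
    have h5 : 0 < (M + 1) ^ (m + 1 + 1) * T0 ^ (m + 1 + 1) / (M ^ (m + 1 + 1) * V) := by positivity
    exact le_of_mul_le_mul_right h4 h5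

end Pool.Agent.Lib.MP_2b959d_co
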