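import Mathlib
import Pool.Agent.Lib.MP_2b959d_co.Chain

/-!
The van der Waerden inequality for permanents with a stability term.
-/

set_option autoImplicit false

namespace Pool.Agent.Lib.MP_2b959d_co

variable {ι : Type*} [DecidableEq ι]

theorem amgm {κ : Type*} (s : Finset κ) (c z : κ → ℝ) (hc : ∀ i ∈ s, 0 ≤ c i)
    (hsum : ∑ i ∈ s, c i = 1) (hz : ∀ i ∈ s, 0 < z i) :
    Real.exp (∑ i ∈ s, c i * Real.log (z i)) ≤ ∑ i ∈ s, c i * z i := by
  have h := Real.geom_mean_le_arith_mean_weighted s c z hc hsum (fun i hi => (hz i hi).le)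
  refine le_trans (le_of_eq ?_) h
  rw [Real.exp_sum]
  refine Finset.prod_congr rfl (fun i hi => ?_)
  rw [Real.rpow_def_of_pos (hz i hi), mul_comm]

theorem entropy_ineq (u v : ℝ) (hu : 0 < u) (hu1 : u ≤ 1) (hv : 0 < v) (hv1 : v ≤ 1) :
    v * Real.log v + (1 + Real.log v) * (u - v) + (u - v) ^ 2 / 2 ≤ u * Real.log u := by
  set f : ℝ → ℝ := fun x => x * Real.log x - x * Real.log v - x + v - (x - v) ^ 2 / 2 with hf
  have hder : ∀ x : ℝ, 0 < x → HasDerivAt f (Real.log x - Real.log v - (x - v)) x := by
    intro x hx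
    have h1 : HasDerivAt (fun x : ℝ => x * Real.log x) (Real.log x + 1) x :=
      Real.hasDerivAt_mul_log hx.ne'
    have h2 : HasDerivAt (fun x : ℝ => x * Real.log v) (Real.log v) x := by
      simpa using (hasDerivAt_id x).mul_const (Real.log v)
    have h3 : HasDerivAt (fun x : ℝ => (x - v) ^ 2 / 2) (x - v) x := by
      have h4 := (((hasDerivAt_id x).sub_const v).pow 2).div_const 2
      convert! h4 using 1
      simp
    have h5 := (((h1.sub h2).sub (hasDerivAt_id x)).add_const v).sub h3
    convert! h5 using 1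
    ring
  have hfv : f v = 0 := by simp [hf]
  have hgoal : 0 ≤ f u := by
    rcases le_total v u with h | h
    · have hmono : MonotoneOn f (Set.Icc v u) := by
        refine monotoneOn_of_deriv_nonneg (convex_Icc v u) ?_ ?_ ?_
        · intro x hx
          exact (hder x (lt_of_lt_of_le hv hx.1)).continuousAt.continuousWithinAt
        · intro x hx
          rw [interior_Icc] at hx
          exact (hder x (lt_trans hv hx.1)).differentiableAt.differentiableWithinAt
        · intro x hx
          rw [interior_Icc] at hx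
          have hx0 : 0 < x := lt_trans hv hx.1
          rw [(hder x hx0).deriv]
          have h1 := Real.one_sub_inv_le_log_of_pos (div_pos hx0 hv)
          rw [Real.log_div hx0.ne' hv.ne', inv_div] at h1
          have h2 : x - v ≤ 1 - v / x := by
            rw [le_sub_iff_add_le, ← le_sub_iff_add_le', div_le_iff₀ hx0]
            have hx1 : x ≤ 1 := le_trans hx.2.le hu1
            nlinarith [hx.1]
          linarith
      have := hmono (Set.left_mem_Icc.2 h) (Set.right_mem_Icc.2 h) h
      rw [hfv] at this
      exact this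
    · have hanti : AntitoneOn f (Set.Icc u v) := by
        refine antitoneOn_of_deriv_nonpos (convex_Icc u v) ?_ ?_ ?_
        · intro x hx
          exact (hder x (lt_of_lt_of_le hu hx.1)).continuousAt.continuousWithinAt
        · intro x hx
          rw [interior_Icc] at hx
          exact (hder x (lt_trans hu hx.1)).differentiableAt.differentiableWithinAt
        · intro x hx
          rw [interior_Icc] at hx
          have hx0 : 0 < x := lt_trans hu hx.1
          rw [(hder x hx0).deriv]
          have h1 := Real.one_sub_inv_le_log_of_pos (div_pos hv hx0)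
          rw [Real.log_div hv.ne' hx0.ne', inv_div] at h1
          have h2 : v - x ≤ 1 - x / v := by
            rw [le_sub_iff_add_le, ← le_sub_iff_add_le', div_le_iff₀ hv]
            nlinarith [hx.2]
          linarith
      have := hanti (Set.left_mem_Icc.2 h) (Set.right_mem_Icc.2 h) h
      rw [hfv] at this
      exact this
  simp only [hf] at hgoal
  linarith

/-- The positive case of the van der Waerden inequality with stability in the last column. -/
theorem vdw_pos (s : Finset ι) (m : ℕ) (hn : s.card = m + 2) (a : ℕ → ι → ℝ)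
    (ha : ∀ j, j < m + 2 → ∀ i ∈ s, 0 < a j i)
    (hcol : ∀ j, j < m + 2 → ∑ i ∈ s, a j i = 1)
    (hrow : ∀ i ∈ s, ∑ j ∈ Finset.range (m + 2), a j i = 1) :
    ((m + 2).factorial : ℝ) / ((m : ℝ) + 2) ^ (m + 2) *
      Real.exp ((∑ i ∈ s, (a (m + 1) i - 1 / ((m : ℝ) + 2)) ^ 2) / 2) ≤
    mper ((List.range' 0 (m + 2)).map a) s := by
  set c : ι → ℝ := a (m + 1) with hc
  have hcpos : ∀ i ∈ s, 0 < c i := fun i hi => ha (m + 1) (by omega) i hi
  have hcsum : ∑ i ∈ s, c i = 1 := hcol (m + 1) (by omega)
  have hrow' : ∀ i ∈ s, ∑ j ∈ Finset.range (m + 1), a j i = 1 - c i := by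
    intro i hi
    have := hrow i hi
    rw [Finset.sum_range_succ] at this
    linarith
  have hc1 : ∀ i ∈ s, 0 < 1 - c i := by
    intro i hi
    rw [← hrow' i hi]
    refine Finset.sum_pos (fun j hj => ha j ?_ i hi) ⟨0, by simp⟩
    have := Finset.mem_range.1 hj
    omega
  set G : ℝ := Real.exp (∑ i ∈ s, (1 - c i) * Real.log (1 - c i)) with hG
  have key := chain s (m + 2) hn a ha
    (((m + 1).factorial : ℝ) / ((m : ℝ) + 1) ^ (m + 1) * G) m (by omega)
    (by
      intro x hx
      set w : ι → ℝ := ∑ j ∈ Finset.range (m + 1), x j • a j with hw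
      have hwapp : ∀ i, w i = ∑ j ∈ Finset.range (m + 1), a j i * x j := by
        intro i
        simp only [hw, Finset.sum_apply, Pi.smul_apply, smul_eq_mul]
        exact Finset.sum_congr rfl (fun j _ => mul_comm _ _)
      have hwpos : ∀ i ∈ s, 0 < w i := by
        intro i hi
        rw [hwapp]
        refine Finset.sum_pos (fun j hj => mul_pos (ha j ?_ i hi) (hx j)) ⟨0, by simp⟩
        have := Finset.mem_range.1 hj
        omega
      have e1 : (List.range' (m + 1) (m + 2 - (m + 1))).map a = [c] := by
        have : m + 2 - (m + 1) = 1 := by omega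
        rw [this]; simp [hc]
      rw [e1]
      have e2 : mper (List.replicate (m + 1) w ++ [c]) s =
          mper (c :: List.replicate (m + 1) w) s :=
        mper_perm (List.perm_append_singleton _ _) s
      rw [e2, mper_cons]
      have e3 : ∀ i ∈ s, c i * mper (List.replicate (m + 1) w) (s.erase i) =
          ((m + 1).factorial : ℝ) * (c i * ∏ l ∈ s.erase i, w l) := by
        intro i hi
        rw [mper_replicate w (m + 1) (s.erase i) (by rw [Finset.card_erase_of_mem hi, hn]; rfl)]
        ring
      rw [Finset.sum_congr rfl e3, ← Finset.mul_sum]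
      -- lower bound by weighted means
      have h1 : Real.exp (∑ i ∈ s, c i * Real.log (∏ l ∈ s.erase i, w l)) ≤
          ∑ i ∈ s, c i * ∏ l ∈ s.erase i, w l :=
        amgm s c (fun i => ∏ l ∈ s.erase i, w l) (fun i hi => (hcpos i hi).le) hcsum
          (fun i _ => Finset.prod_pos (fun l hl => hwpos l (Finset.mem_of_mem_erase hl)))
      have h2 : ∑ i ∈ s, c i * Real.log (∏ l ∈ s.erase i, w l) =
          ∑ l ∈ s, (1 - c l) * Real.log (w l) := by
        have h3 : ∀ i ∈ s, c i * Real.log (∏ l ∈ s.erase i, w l) =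
            c i * (∑ l ∈ s, Real.log (w l)) - c i * Real.log (w i) := by
          intro i hi
          rw [Real.log_prod (fun l hl => (hwpos l (Finset.mem_of_mem_erase hl)).ne')]
          rw [← Finset.add_sum_erase s (fun l => Real.log (w l)) hi]
          ring
        rw [Finset.sum_congr rfl h3, Finset.sum_sub_distrib, ← Finset.sum_mul, hcsum, one_mul,
          ← Finset.sum_sub_distrib]
        exact Finset.sum_congr rfl (fun l _ => by ring)
      have h4 : ∀ l ∈ s, (1 - c l) * Real.log (1 - c l) +
          ∑ j ∈ Finset.range (m + 1), a j l * Real.log (x j) ≤ (1 - c l) * Real.log (w l) := by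
        intro l hl
        have hp := hc1 l hl
        have h5 := amgm (Finset.range (m + 1)) (fun j => a j l / (1 - c l)) x
          (fun j hj => by
            have := Finset.mem_range.1 hj
            exact (div_pos (ha j (by omega) l hl) hp).le)
          (by rw [← Finset.sum_div, hrow' l hl, div_self hp.ne'])
          (fun j _ => hx j)
        have h6 : ∑ j ∈ Finset.range (m + 1), a j l / (1 - c l) * x j = w l / (1 - c l) := by
          rw [hwapp, Finset.sum_div]
          exact Finset.sum_congr rfl (fun j _ => by ring)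
        rw [h6] at h5
        have h7 := (Real.le_log_iff_exp_le (div_pos (hwpos l hl) hp)).2 h5
        rw [Real.log_div (hwpos l hl).ne' hp.ne'] at h7
        have h8 : ∑ j ∈ Finset.range (m + 1), a j l / (1 - c l) * Real.log (x j) =
            (∑ j ∈ Finset.range (m + 1), a j l * Real.log (x j)) / (1 - c l) := by
          rw [Finset.sum_div]
          exact Finset.sum_congr rfl (fun j _ => by ring)
        rw [h8, div_le_iff₀ hp] at h7
        linarith
      have h9 : ∑ l ∈ s, (1 - c l) * Real.log (1 - c l) +
          ∑ j ∈ Finset.range (m + 1), Real.log (x j) ≤ ∑ l ∈ s, (1 - c l) * Real.log (w l) := by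
        have h10 := Finset.sum_le_sum h4
        rw [Finset.sum_add_distrib] at h10
        have h11 : ∑ l ∈ s, ∑ j ∈ Finset.range (m + 1), a j l * Real.log (x j) =
            ∑ j ∈ Finset.range (m + 1), Real.log (x j) := by
          rw [Finset.sum_comm]
          refine Finset.sum_congr rfl (fun j hj => ?_)
          have := Finset.mem_range.1 hj
          rw [← Finset.sum_mul, hcol j (by omega), one_mul]
        rw [h11] at h10
        exact h10
      have h12 : G * ∏ j ∈ Finset.range (m + 1), x j ≤ ∑ i ∈ s, c i * ∏ l ∈ s.erase i, w l := by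
        refine le_trans ?_ h1
        rw [h2]
        have h13 : ∏ j ∈ Finset.range (m + 1), x j =
            Real.exp (∑ j ∈ Finset.range (m + 1), Real.log (x j)) := by
          rw [Real.exp_sum]
          exact Finset.prod_congr rfl (fun j _ => (Real.exp_log (hx j)).symm)
        rw [h13, hG, ← Real.exp_add]
        exact Real.exp_le_exp.2 h9
      have hM : (0 : ℝ) < ((m : ℝ) + 1) ^ (m + 1) := by positivity
      calc ((m + 1).factorial : ℝ) / ((m : ℝ) + 1) ^ (m + 1) * G * ((m : ℝ) + 1) ^ (m + 1) *
            ∏ j ∈ Finset.range (m + 1), x j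
          = ((m + 1).factorial : ℝ) * (G * ∏ j ∈ Finset.range (m + 1), x j) := by
            field_simp
        _ ≤ _ := mul_le_mul_of_nonneg_left h12 (by positivity))
  refine le_trans ?_ key
  -- compare the constants
  have hN : (0 : ℝ) < (m : ℝ) + 2 := by positivity
  have hM : (0 : ℝ) < (m : ℝ) + 1 := by positivity
  set v : ℝ := 1 - 1 / ((m : ℝ) + 2) with hv
  have hv' : v = ((m : ℝ) + 1) / ((m : ℝ) + 2) := by rw [hv]; field_simp; ring
  have hvpos : 0 < v := by rw [hv']; positivity
  have hv1 : v ≤ 1 := by rw [hv]; have : 0 < 1 / ((m : ℝ) + 2) := by positivity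
                         linarith
  have hent : ∀ i ∈ s, v * Real.log v + (1 + Real.log v) * ((1 - c i) - v) +
      ((1 - c i) - v) ^ 2 / 2 ≤ (1 - c i) * Real.log (1 - c i) := by
    intro i hi
    exact entropy_ineq _ _ (hc1 i hi) (by linarith [hcpos i hi]) hvpos hv1
  have hsum := Finset.sum_le_sum hent
  have e1 : ∑ i ∈ s, (v * Real.log v + (1 + Real.log v) * ((1 - c i) - v) +
      ((1 - c i) - v) ^ 2 / 2) = ((m : ℝ) + 1) * Real.log v +
      (∑ i ∈ s, (c i - 1 / ((m : ℝ) + 2)) ^ 2) / 2 := by
    rw [Finset.sum_add_distrib, Finset.sum_add_distrib, Finset.sum_const, hn, ← Finset.mul_sum,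
      ← Finset.sum_div]
    have e2 : ∑ i ∈ s, ((1 - c i) - v) = 0 := by
      have : ∀ i ∈ s, (1 - c i) - v = 1 / ((m : ℝ) + 2) - c i := by
        intro i _; rw [hv]; ring
      rw [Finset.sum_congr rfl this, Finset.sum_sub_distrib, hcsum, Finset.sum_const, hn,
        nsmul_eq_mul]
      push_cast
      field_simp
      ring
    have e3 : ∑ i ∈ s, ((1 - c i) - v) ^ 2 = ∑ i ∈ s, (c i - 1 / ((m : ℝ) + 2)) ^ 2 :=
      Finset.sum_congr rfl (fun i _ => by rw [hv]; ring)
    have e4 : ((m + 2 : ℕ) : ℝ) * v = (m : ℝ) + 1 := by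
      rw [hv']; push_cast; field_simp
    rw [e2, e3, mul_zero, add_zero, nsmul_eq_mul, ← mul_assoc, e4]
  rw [e1] at hsum
  have hexp := Real.exp_le_exp.2 hsum
  rw [Real.exp_add] at hexp
  have e5 : Real.exp (((m : ℝ) + 1) * Real.log v) = v ^ (m + 1) := by
    have : ((m : ℝ) + 1) * Real.log v = Real.log (v ^ (m + 1)) := by
      rw [Real.log_pow]; push_cast; ring
    rw [this, Real.exp_log (by positivity)]
  rw [e5, ← hG] at hexp
  have e6 : ((m + 2).factorial : ℝ) / ((m : ℝ) + 2) ^ (m + 2) =
      ((m + 1).factorial : ℝ) / ((m : ℝ) + 1) ^ (m + 1) * v ^ (m + 1) := by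
    rw [hv', div_pow, Nat.factorial_succ (m + 1)]
    push_cast
    field_simp
    ring
  rw [e6, mul_assoc]
  exact mul_le_mul_of_nonneg_left hexp (by positivity)

end Pool.Agent.Lib.MP_2b959d_co
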