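import Mathlib
import Pool.Agent.Lib.MP_2b959d_co.VdW

/-!
The van der Waerden inequality with stability, for lists of nonnegative vectors.
-/

set_option autoImplicit false

namespace Pool.Agent.Lib.MP_2b959d_co

variable {ι : Type*} [DecidableEq ι]

theorem mper_continuous {X : Type*} [TopologicalSpace X] : ∀ (L : List (X → ι → ℝ)) (s : Finset ι),
    (∀ v ∈ L, ∀ i, Continuous (fun x => v x i)) →
    Continuous (fun x => mper (L.map (fun v => v x)) s) := by
  intro L
  induction L with
  | nil => intro s _; simpa using continuous_const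
  | cons v L ih =>
    intro s h
    simp only [List.map_cons, mper_cons]
    refine continuous_finset_sum _ (fun i _ => ?_)
    exact (h v (by simp) i).mul (ih _ (fun w hw => h w (by simp [hw])))

theorem sum_range_getD (f : (ι → ℝ) → ℝ) (d : ι → ℝ) : ∀ K : List (ι → ℝ),
    ∑ j ∈ Finset.range K.length, f (K.getD j d) = (K.map f).sum := by
  intro K
  induction K with
  | nil => simp
  | cons v K ih =>
    rw [List.length_cons, Finset.sum_range_succ']
    simp only [List.getD_cons_succ, List.getD_cons_zero, List.map_cons, List.sum_cons]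
    rw [ih]
    ring

theorem range'_map_getD (d : ι → ℝ) (K : List (ι → ℝ)) :
    (List.range' 0 K.length).map (fun j => K.getD j d) = K := by
  apply List.ext_getElem
  · simp
  · intro i h1 h2
    simp [List.getD_eq_getElem?_getD, h2]

theorem vdw_list (s : Finset ι) (L : List (ι → ℝ)) (hlen : L.length = s.card)
    (hnn : ∀ v ∈ L, ∀ i ∈ s, 0 ≤ v i) (hcol : ∀ v ∈ L, ∑ i ∈ s, v i = 1)
    (hrow : ∀ i ∈ s, (L.map (fun v => v i)).sum = 1) (c : ι → ℝ) (hc : c ∈ L) :
    ((s.card).factorial : ℝ) / (s.card : ℝ) ^ (s.card) *
      (1 + (∑ i ∈ s, (c i - 1 / (s.card : ℝ)) ^ 2) / 2) ≤ mper L s := by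
  have hpos : 0 < s.card := by
    rw [← hlen]; exact List.length_pos_of_mem hc
  rcases Nat.lt_or_ge s.card 2 with h1 | h2
  · -- one row
    have hs1 : s.card = 1 := by omega
    obtain ⟨i, rfl⟩ := Finset.card_eq_one.1 hs1
    rw [hs1] at hlen
    obtain ⟨v, rfl⟩ := List.length_eq_one_iff.1 hlen
    have hcv : c = v := by simpa using hc
    subst hcv
    have h := hcol c (by simp)
    simp only [Finset.sum_singleton] at h
    simp [mper_cons, h]
  · obtain ⟨m, hm⟩ : ∃ m, s.card = m + 2 := ⟨s.card - 2, by omega⟩
    obtain ⟨L1, L2, rfl⟩ := List.append_of_mem hc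
    set K : List (ι → ℝ) := (L1 ++ L2) ++ [c] with hK
    have hperm : (L1 ++ c :: L2).Perm K := by
      refine List.perm_middle.trans ?_
      exact (List.perm_append_singleton c (L1 ++ L2)).symm
    have hKlen : K.length = m + 2 := by rw [← hperm.length_eq, hlen, hm]
    have hKnn : ∀ v ∈ K, ∀ i ∈ s, 0 ≤ v i := fun v hv => hnn v (hperm.mem_iff.2 hv)
    have hKcol : ∀ v ∈ K, ∑ i ∈ s, v i = 1 := fun v hv => hcol v (hperm.mem_iff.2 hv)
    have hKrow : ∀ i ∈ s, (K.map (fun v => v i)).sum = 1 := by
      intro i hi
      rw [← (hperm.map (fun v => v i)).sum_eq]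
      exact hrow i hi
    rw [mper_perm hperm]
    set a : ℕ → ι → ℝ := fun j => K.getD j 0 with ha
    have hamem : ∀ j, j < m + 2 → a j ∈ K := by
      intro j hj
      rw [ha]
      simp only
      rw [List.getD_eq_getElem _ _ (by rw [hKlen]; exact hj)]
      exact List.getElem_mem _
    have hac : a (m + 1) = c := by
      have h3 : (L1 ++ L2).length = m + 1 := by
        have := hKlen
        rw [hK, List.length_append, List.length_singleton] at this
        omega
      rw [ha]
      simp only [hK]
      rw [List.getD_eq_getElem _ _ (by rw [← hK, hKlen]; omega)]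
      rw [List.getElem_append_right (by omega)]
      simp [h3]
    have hamap : (List.range' 0 (m + 2)).map a = K := by
      have := range'_map_getD (0 : ι → ℝ) K
      rw [hKlen] at this
      exact this
    set N : ℝ := (m : ℝ) + 2 with hN
    have hNpos : 0 < N := by positivity
    -- perturbation
    set ad : ℕ → ℝ → ι → ℝ := fun j δ i => (1 - δ) * a j i + δ / N with had
    have hineq : ∀ δ ∈ Set.Ioo (0 : ℝ) 1,
        ((m + 2).factorial : ℝ) / N ^ (m + 2) *
          (1 + (∑ i ∈ s, (ad (m + 1) δ i - 1 / N) ^ 2) / 2) ≤
        mper (((List.range' 0 (m + 2)).map ad).map (fun v => v δ)) s := by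
      intro δ hδ
      have h3 := vdw_pos s m hm (fun j => ad j δ)
        (by
          intro j hj i hi
          simp only [had]
          have h4 := hKnn (a j) (hamem j hj) i hi
          have h5 := hδ.1
          have h6 : 0 < 1 - δ := by linarith [hδ.2]
          have h7 : 0 < δ / N := by positivity
          have h8 := mul_nonneg h6.le h4
          linarith)
        (by
          intro j hj
          simp only [had]
          rw [Finset.sum_add_distrib, ← Finset.mul_sum, hKcol (a j) (hamem j hj), Finset.sum_const,
            hm, nsmul_eq_mul]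
          push_cast
          field_simp
          ring)
        (by
          intro i hi
          simp only [had]
          have h4 : ∑ j ∈ Finset.range (m + 2), a j i = 1 := by
            have h5 := sum_range_getD (fun v => v i) (0 : ι → ℝ) K
            rw [hKlen, hKrow i hi] at h5
            exact h5
          rw [Finset.sum_add_distrib, ← Finset.mul_sum, h4, Finset.sum_const, Finset.card_range,
            nsmul_eq_mul]
          push_cast
          field_simp
          ring)
      rw [List.map_map]
      refine le_trans ?_ h3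
      refine mul_le_mul_of_nonneg_left ?_ (by positivity)
      have := Real.add_one_le_exp ((∑ i ∈ s, (ad (m + 1) δ i - 1 / N) ^ 2) / 2)
      linarith
    have hcont1 : Continuous (fun δ : ℝ =>
        mper (((List.range' 0 (m + 2)).map ad).map (fun v => v δ)) s) := by
      apply mper_continuous
      intro v hv i
      obtain ⟨j, _, rfl⟩ := List.mem_map.1 hv
      simp only [had]
      fun_prop
    have hcont2 : Continuous (fun δ : ℝ => ((m + 2).factorial : ℝ) / N ^ (m + 2) *
          (1 + (∑ i ∈ s, (ad (m + 1) δ i - 1 / N) ^ 2) / 2)) := by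
      simp only [had]
      fun_prop
    have hclosed := isClosed_le hcont2 hcont1
    have hsub : Set.Ioo (0 : ℝ) 1 ⊆ {δ : ℝ | ((m + 2).factorial : ℝ) / N ^ (m + 2) *
          (1 + (∑ i ∈ s, (ad (m + 1) δ i - 1 / N) ^ 2) / 2) ≤
        mper (((List.range' 0 (m + 2)).map ad).map (fun v => v δ)) s} := hineq
    have h0 : (0 : ℝ) ∈ closure (Set.Ioo (0 : ℝ) 1) := by
      rw [closure_Ioo (by norm_num)]
      simp
    have h4 := hclosed.closure_subset_iff.2 hsub h0
    simp only [Set.mem_setOf_eq, List.map_map] at h4
    have e1 : ((fun v : ℝ → ι → ℝ => v 0) ∘ ad) = a := by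
      funext j i
      simp [had]
    rw [e1, hamap] at h4
    have e2 : ad (m + 1) 0 = c := by
      funext i
      simp [had, hac]
    rw [e2] at h4
    rw [hm]
    push_cast
    exact h4

end Pool.Agent.Lib.MP_2b959d_co
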