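import Mathlib
import Pool.Agent.Lib.MP_2b959d_co.VdWList

/-!
Link between `mper` and `Matrix.permanent`, and the block version of the van der Waerden inequality.
-/

set_option autoImplicit false

namespace Pool.Agent.Lib.MP_2b959d_co

open Finset

theorem mper_ofFn {ι : Type*} [DecidableEq ι] [Fintype ι] : ∀ (m : ℕ) (v : Fin m → ι → ℝ)
    (s : Finset ι), mper (List.ofFn v) s =
      ∑ f : Fin m → ι, (if Function.Injective f ∧ ∀ j, f j ∈ s then ∏ j, v j (f j) else 0) := by
  intro m
  induction m with
  | zero =>
    intro v s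
    rw [List.ofFn_zero, mper_nil, Fintype.sum_unique, if_pos]
    · simp
    · exact ⟨Function.injective_of_subsingleton _, fun j => j.elim0⟩
  | succ m ih =>
    intro v s
    rw [List.ofFn_succ, mper_cons]
    rw [← (Fin.consEquiv (fun _ : Fin (m + 1) => ι)).sum_comp, Fintype.sum_prod_type]
    have hce : ∀ (i : ι) (g : Fin m → ι), (Fin.consEquiv (fun _ : Fin (m + 1) => ι)) (i, g) =
        (Fin.cons i g : Fin (m + 1) → ι) := fun _ _ => rfl
    simp only [hce]
    have h1 : ∀ i : ι, ∑ g : Fin m → ι, (if Function.Injective
        (Fin.cons i g : Fin (m + 1) → ι) ∧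
        ∀ j, (Fin.cons i g : Fin (m + 1) → ι) j ∈ s then
        ∏ j, v j ((Fin.cons i g : Fin (m + 1) → ι) j) else 0) =
        if i ∈ s then v 0 i * mper (List.ofFn fun j => v j.succ) (s.erase i) else 0 := by
      intro i
      by_cases hi : i ∈ s
      · rw [if_pos hi, ih, Finset.mul_sum]
        refine Finset.sum_congr rfl (fun g _ => ?_)
        simp only [Fin.prod_univ_succ, Fin.cons_zero, Fin.cons_succ]
        by_cases hc : Function.Injective g ∧ ∀ j, g j ∈ s.erase i
        · rw [if_pos hc, if_pos]
          refine ⟨?_, ?_⟩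
          · rw [Fin.cons_injective_iff]
            refine ⟨?_, hc.1⟩
            rintro ⟨j, hj⟩
            have := hc.2 j
            rw [hj] at this
            exact (Finset.mem_erase.1 this).1 rfl
          · intro j
            refine Fin.cases ?_ (fun j => ?_) j
            · simpa using hi
            · simpa using Finset.mem_of_mem_erase (hc.2 j)
        · rw [if_neg hc, if_neg, mul_zero]
          rintro ⟨h2, h3⟩
          apply hc
          rw [Fin.cons_injective_iff] at h2
          refine ⟨h2.2, fun j => ?_⟩
          rw [Finset.mem_erase]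
          refine ⟨fun h => h2.1 ⟨j, h⟩, ?_⟩
          simpa using h3 j.succ
      · rw [if_neg hi]
        refine Finset.sum_eq_zero (fun g _ => ?_)
        rw [if_neg]
        rintro ⟨_, h3⟩
        exact hi (by simpa using h3 0)
    simp only [h1]
    rw [← Finset.sum_filter]
    refine Finset.sum_congr ?_ (fun _ _ => rfl)
    ext i
    simp

theorem permanent_eq_mper {n : ℕ} (M : Matrix (Fin n) (Fin n) ℝ) :
    M.permanent = mper ((univ : Finset (Fin n)).toList.map (fun j i => M i j)) univ := by
  have h1 : ((univ : Finset (Fin n)).toList.map (fun j i => M i j)).Perm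
      (List.ofFn (fun (j : Fin n) (i : Fin n) => M i j)) := by
    rw [List.ofFn_eq_map]
    refine List.Perm.map _ ?_
    rw [List.perm_ext_iff_of_nodup (Finset.nodup_toList _) (List.nodup_finRange n)]
    intro a
    simp
  rw [mper_perm h1, mper_ofFn]
  rw [← Finset.sum_filter]
  unfold Matrix.permanent
  symm
  refine Finset.sum_bij (fun f hf => Equiv.ofBijective f (Finite.injective_iff_bijective.1
    (Finset.mem_filter.1 hf).2.1)) ?_ ?_ ?_ ?_
  · intro f hf; exact Finset.mem_univ _
  · intro f hf g hg h
    have := congrArg (fun e : Equiv.Perm (Fin n) => (e : Fin n → Fin n)) h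
    exact this
  · intro σ _
    refine ⟨σ, Finset.mem_filter.2 ⟨Finset.mem_univ _, σ.injective, fun j => Finset.mem_univ _⟩, ?_⟩
    ext i; rfl
  · intro f hf; rfl

end Pool.Agent.Lib.MP_2b959d_co
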