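import Mathlib
import Pool.Agent.Lib.MP_2b959d_co.Block

/-!
The block version of the van der Waerden inequality with stability.
-/

set_option autoImplicit false

namespace Pool.Agent.Lib.MP_2b959d_co

open Finset

theorem mper_append {ι : Type*} [DecidableEq ι] : ∀ (L1 L2 : List (ι → ℝ)) (s1 s2 : Finset ι),
    Disjoint s1 s2 → L1.length = s1.card → (∀ v ∈ L1, ∀ i ∈ s2, v i = 0) →
    mper (L1 ++ L2) (s1 ∪ s2) = mper L1 s1 * mper L2 s2 := by
  intro L1
  induction L1 with
  | nil =>
    intro L2 s1 s2 _ hc _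
    rw [List.length_nil] at hc
    have := Finset.card_eq_zero.1 hc.symm
    subst this
    simp
  | cons v L1 ih =>
    intro L2 s1 s2 hd hc hz
    rw [List.cons_append, mper_cons, Finset.sum_union hd, mper_cons, Finset.sum_mul]
    have h1 : ∑ i ∈ s2, v i * mper (L1 ++ L2) ((s1 ∪ s2).erase i) = 0 :=
      Finset.sum_eq_zero (fun i hi => by rw [hz v (by simp) i hi, zero_mul])
    rw [h1, add_zero]
    refine Finset.sum_congr rfl (fun i hi => ?_)
    have hi2 : i ∉ s2 := Finset.disjoint_left.1 hd hi
    rw [Finset.erase_union_distrib, Finset.erase_eq_of_notMem hi2, mul_assoc]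
    congr 1
    refine ih L2 (s1.erase i) s2 ?_ ?_ (fun w hw => hz w (by simp [hw]))
    · exact Finset.disjoint_of_subset_left (Finset.erase_subset _ _) hd
    · rw [Finset.card_erase_of_mem hi, ← hc]; rfl

theorem mper_const {ι : Type*} [DecidableEq ι] (c : ℝ) : ∀ (L : List (ι → ℝ)) (s : Finset ι),
    (∀ v ∈ L, ∀ i ∈ s, v i = c) → L.length = s.card →
    mper L s = (s.card).factorial * c ^ s.card := by
  intro L
  induction L with
  | nil =>
    intro s _ hc
    rw [List.length_nil] at hc
    rw [← hc]; simp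
  | cons v L ih =>
    intro s h hc
    rw [mper_cons]
    have h1 : ∀ i ∈ s, v i * mper L (s.erase i) =
        c * (((s.card - 1).factorial : ℝ) * c ^ (s.card - 1)) := by
      intro i hi
      rw [h v (by simp) i hi, ih (s.erase i)
        (fun w hw j hj => h w (by simp [hw]) j (Finset.mem_of_mem_erase hj))
        (by rw [Finset.card_erase_of_mem hi, ← hc]; rfl), Finset.card_erase_of_mem hi]
    rw [Finset.sum_congr rfl h1, Finset.sum_const, nsmul_eq_mul]
    obtain ⟨k, hk⟩ : ∃ k, s.card = k + 1 := ⟨L.length, by rw [← hc]; rfl⟩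
    rw [hk, Nat.factorial_succ]
    push_cast
    ring

variable {n : ℕ} {α : Type*} [DecidableEq α]

/-- the class of `i` -/
def cls (κ : Fin n → α) (i : Fin n) : Finset (Fin n) := univ.filter (fun j => κ j = κ i)

theorem mem_cls {κ : Fin n → α} {i j : Fin n} : j ∈ cls κ i ↔ κ j = κ i := by
  simp [cls]

theorem cls_congr {κ : Fin n → α} {i j : Fin n} (h : κ i = κ j) : cls κ i = cls κ j := by
  ext k; rw [mem_cls, mem_cls, h]

theorem cls_pos (κ : Fin n → α) (i : Fin n) : 0 < (cls κ i).card :=
  Finset.card_pos.2 ⟨i, mem_cls.2 rfl⟩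

/-- the averaging matrix over the classes -/
noncomputable def Emat (κ : Fin n → α) : Matrix (Fin n) (Fin n) ℝ :=
  Matrix.of fun i j => if κ i = κ j then 1 / ((cls κ i).card : ℝ) else 0

theorem Emat_apply (κ : Fin n → α) (i j : Fin n) :
    Emat κ i j = if κ i = κ j then 1 / ((cls κ i).card : ℝ) else 0 := rfl

/-- Saturated sets: comparison of block-diagonal doubly stochastic matrices with `Emat`. -/
theorem block_compare (κ : Fin n → α) (M : Matrix (Fin n) (Fin n) ℝ)
    (hnn : ∀ i j, 0 ≤ M i j) (hrow : ∀ i, ∑ j, M i j = 1) (hcol : ∀ j, ∑ i, M i j = 1)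
    (hblk : ∀ i j, M i j ≠ 0 → κ i = κ j) (i0 : Fin n) :
    mper ((cls κ i0).toList.map (fun j i => Emat κ i j)) (cls κ i0) =
      ((cls κ i0).card.factorial : ℝ) / ((cls κ i0).card : ℝ) ^ (cls κ i0).card ∧
    ∀ j0 ∈ cls κ i0, ((cls κ i0).card.factorial : ℝ) / ((cls κ i0).card : ℝ) ^ (cls κ i0).card *
      (1 + (∑ i, (M i j0 - Emat κ i j0) ^ 2) / 2) ≤
      mper ((cls κ i0).toList.map (fun j i => M i j)) (cls κ i0) := by
  set b := cls κ i0 with hb
  have hbmem : ∀ i, i ∈ b ↔ κ i = κ i0 := fun i => mem_cls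
  have hcls : ∀ i ∈ b, cls κ i = b := fun i hi => cls_congr ((hbmem i).1 hi)
  refine ⟨?_, ?_⟩
  · rw [mper_const (1 / (b.card : ℝ))]
    · rw [one_div, inv_pow]; rfl
    · intro v hv i hi
      obtain ⟨j, hj, rfl⟩ := List.mem_map.1 hv
      rw [Finset.mem_toList] at hj
      simp only
      rw [Emat_apply, if_pos (((hbmem i).1 hi).trans ((hbmem j).1 hj).symm), hcls i hi]
    · simp
  · intro j0 hj0
    have h1 := vdw_list b (b.toList.map (fun j i => M i j)) (by simp)
      (by
        intro v hv i _
        obtain ⟨j, _, rfl⟩ := List.mem_map.1 hv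
        exact hnn i j)
      (by
        intro v hv
        obtain ⟨j, hj, rfl⟩ := List.mem_map.1 hv
        rw [Finset.mem_toList] at hj
        rw [← hcol j]
        refine Finset.sum_subset (Finset.subset_univ _) (fun i _ hi => ?_)
        by_contra h
        exact hi ((hbmem i).2 ((hblk i j h).trans ((hbmem j).1 hj))))
      (by
        intro i hi
        rw [List.map_map]
        have e1 : ((fun v : Fin n → ℝ => v i) ∘ (fun j i => M i j)) = fun j => M i j := by
          funext j; rfl
        rw [e1, Finset.sum_map_toList, ← hrow i]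
        refine Finset.sum_subset (Finset.subset_univ _) (fun j _ hj => ?_)
        by_contra h
        exact hj ((hbmem j).2 ((hblk i j h).symm.trans ((hbmem i).1 hi))))
      (fun i => M i j0) (List.mem_map.2 ⟨j0, Finset.mem_toList.2 hj0, rfl⟩)
    have e2 : ∑ i, (M i j0 - Emat κ i j0) ^ 2 = ∑ i ∈ b, (M i j0 - 1 / (b.card : ℝ)) ^ 2 := by
      symm
      rw [← Finset.sum_subset (Finset.subset_univ b)]
      · refine Finset.sum_congr rfl (fun i hi => ?_)
        rw [Emat_apply, if_pos (((hbmem i).1 hi).trans ((hbmem j0).1 hj0).symm), hcls i hi]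
      · intro i _ hi
        have h3 : κ i ≠ κ j0 := fun h => hi ((hbmem i).2 (h.trans ((hbmem j0).1 hj0)))
        have h4 : M i j0 = 0 := by
          by_contra h
          exact h3 (hblk i j0 h)
        rw [h4, Emat_apply, if_neg h3]
        simp
    rw [e2]
    exact h1

theorem block_compare_sat (κ : Fin n → α) (M : Matrix (Fin n) (Fin n) ℝ)
    (hnn : ∀ i j, 0 ≤ M i j) (hrow : ∀ i, ∑ j, M i j = 1) (hcol : ∀ j, ∑ i, M i j = 1)
    (hblk : ∀ i j, M i j ≠ 0 → κ i = κ j) : ∀ (k : ℕ) (s : Finset (Fin n)), s.card ≤ k →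
    (∀ i ∈ s, cls κ i ⊆ s) →
    0 < mper (s.toList.map (fun j i => Emat κ i j)) s ∧
    mper (s.toList.map (fun j i => Emat κ i j)) s ≤ mper (s.toList.map (fun j i => M i j)) s := by
  intro k
  induction k with
  | zero =>
    intro s hs _
    have : s = ∅ := Finset.card_eq_zero.1 (by omega)
    subst this
    simp
  | succ k ih =>
    intro s hs hsat
    rcases s.eq_empty_or_nonempty with rfl | ⟨i0, hi0⟩
    · simp
    · set b := cls κ i0 with hb
      have hbs : b ⊆ s := hsat i0 hi0
      have hd : Disjoint b (s \ b) := Finset.disjoint_sdiff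
      have hun : b ∪ (s \ b) = s := Finset.union_sdiff_of_subset hbs
      have hperm : s.toList.Perm (b.toList ++ (s \ b).toList) := by
        rw [List.perm_ext_iff_of_nodup (Finset.nodup_toList _)]
        · intro a
          rw [List.mem_append, Finset.mem_toList, Finset.mem_toList, Finset.mem_toList,
            Finset.mem_sdiff]
          constructor
          · intro h
            by_cases h2 : a ∈ b
            · exact Or.inl h2
            · exact Or.inr ⟨h, h2⟩
          · rintro (h | h)
            · exact hbs h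
            · exact h.1
        · rw [List.nodup_append]
          refine ⟨Finset.nodup_toList _, Finset.nodup_toList _, ?_⟩
          intro a ha b' hb' hab
          subst hab
          rw [Finset.mem_toList] at ha hb'
          exact (Finset.mem_sdiff.1 hb').2 ha
      have hsplit : ∀ X : Matrix (Fin n) (Fin n) ℝ, (∀ i j, X i j ≠ 0 → κ i = κ j) →
          mper (s.toList.map (fun j i => X i j)) s =
          mper (b.toList.map (fun j i => X i j)) b *
          mper ((s \ b).toList.map (fun j i => X i j)) (s \ b) := by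
        intro X hX
        rw [mper_perm (hperm.map _), List.map_append]
        have h9 := mper_append (b.toList.map (fun j i => X i j))
          ((s \ b).toList.map (fun j i => X i j)) b (s \ b) hd (by simp) (by
            intro v hv i hi
            obtain ⟨j, hj, rfl⟩ := List.mem_map.1 hv
            rw [Finset.mem_toList] at hj
            by_contra h
            exact (Finset.mem_sdiff.1 hi).2 (mem_cls.2 ((hX i j h).trans (mem_cls.1 hj))))
        rw [hun] at h9
        exact h9
      have hE : ∀ i j, Emat κ i j ≠ 0 → κ i = κ j := by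
        intro i j h
        by_contra h2
        exact h (by rw [Emat_apply, if_neg h2])
      rw [hsplit _ hE, hsplit _ hblk]
      have hcard : (s \ b).card ≤ k := by
        have h1 : (s \ b).card = s.card - b.card := Finset.card_sdiff_of_subset hbs
        have h2 := cls_pos κ i0
        rw [← hb] at h2
        omega
      have hsat' : ∀ i ∈ s \ b, cls κ i ⊆ s \ b := by
        intro i hi j hj
        rw [Finset.mem_sdiff] at hi ⊢
        refine ⟨hsat i hi.1 hj, fun h => hi.2 ?_⟩
        exact mem_cls.2 ((mem_cls.1 hj).symm.trans (mem_cls.1 h))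
      obtain ⟨ih1, ih2⟩ := ih (s \ b) hcard hsat'
      obtain ⟨c1, c2⟩ := block_compare κ M hnn hrow hcol hblk i0
      rw [← hb] at c1 c2
      have c3 := c2 i0 (mem_cls.2 rfl)
      have hbpos : (0 : ℝ) < (b.card.factorial : ℝ) / (b.card : ℝ) ^ b.card := by
        have h2 := cls_pos κ i0
        rw [← hb] at h2
        have : (0 : ℝ) < (b.card : ℝ) := by exact_mod_cast h2
        positivity
      have c4 : (b.card.factorial : ℝ) / (b.card : ℝ) ^ b.card ≤
          mper (b.toList.map (fun j i => M i j)) b := by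
        refine le_trans ?_ c3
        have h5 : 0 ≤ (∑ i, (M i i0 - Emat κ i i0) ^ 2) / 2 := by positivity
        nlinarith
      rw [c1]
      refine ⟨mul_pos hbpos ih1, ?_⟩
      exact mul_le_mul c4 ih2 ih1.le (hbpos.le.trans c4)

/-- Block van der Waerden inequality with stability. -/
theorem block_vdw (κ : Fin n → α) (M : Matrix (Fin n) (Fin n) ℝ)
    (hnn : ∀ i j, 0 ≤ M i j) (hrow : ∀ i, ∑ j, M i j = 1) (hcol : ∀ j, ∑ i, M i j = 1)
    (hblk : ∀ i j, M i j ≠ 0 → κ i = κ j) (j0 : Fin n) :
    0 < (Emat κ).permanent ∧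
    (Emat κ).permanent * (1 + (∑ i, (M i j0 - Emat κ i j0) ^ 2) / 2) ≤ M.permanent := by
  rw [permanent_eq_mper, permanent_eq_mper]
  set s : Finset (Fin n) := univ with hs
  set b := cls κ j0 with hb
  have hbs : b ⊆ s := Finset.subset_univ _
  have hd : Disjoint b (s \ b) := Finset.disjoint_sdiff
  have hun : b ∪ (s \ b) = s := Finset.union_sdiff_of_subset hbs
  have hperm : s.toList.Perm (b.toList ++ (s \ b).toList) := by
    rw [List.perm_ext_iff_of_nodup (Finset.nodup_toList _)]
    · intro a
      rw [List.mem_append, Finset.mem_toList, Finset.mem_toList, Finset.mem_toList,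
        Finset.mem_sdiff]
      constructor
      · intro h
        by_cases h2 : a ∈ b
        · exact Or.inl h2
        · exact Or.inr ⟨h, h2⟩
      · rintro (h | h)
        · exact hbs h
        · exact h.1
    · rw [List.nodup_append]
      refine ⟨Finset.nodup_toList _, Finset.nodup_toList _, ?_⟩
      intro a ha b' hb' hab
      subst hab
      rw [Finset.mem_toList] at ha hb'
      exact (Finset.mem_sdiff.1 hb').2 ha
  have hsplit : ∀ X : Matrix (Fin n) (Fin n) ℝ, (∀ i j, X i j ≠ 0 → κ i = κ j) →
      mper (s.toList.map (fun j i => X i j)) s =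
      mper (b.toList.map (fun j i => X i j)) b *
      mper ((s \ b).toList.map (fun j i => X i j)) (s \ b) := by
    intro X hX
    rw [mper_perm (hperm.map _), List.map_append]
    have h9 := mper_append (b.toList.map (fun j i => X i j))
      ((s \ b).toList.map (fun j i => X i j)) b (s \ b) hd (by simp) (by
        intro v hv i hi
        obtain ⟨j, hj, rfl⟩ := List.mem_map.1 hv
        rw [Finset.mem_toList] at hj
        by_contra h
        exact (Finset.mem_sdiff.1 hi).2 (mem_cls.2 ((hX i j h).trans (mem_cls.1 hj))))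
    rw [hun] at h9
    exact h9
  have hE : ∀ i j, Emat κ i j ≠ 0 → κ i = κ j := by
    intro i j h
    by_contra h2
    exact h (by rw [Emat_apply, if_neg h2])
  rw [hsplit _ hE, hsplit _ hblk]
  have hsat' : ∀ i ∈ s \ b, cls κ i ⊆ s \ b := by
    intro i hi j hj
    rw [Finset.mem_sdiff] at hi ⊢
    refine ⟨Finset.mem_univ _, fun h => hi.2 ?_⟩
    exact mem_cls.2 ((mem_cls.1 hj).symm.trans (mem_cls.1 h))
  obtain ⟨ih1, ih2⟩ := block_compare_sat κ M hnn hrow hcol hblk _ (s \ b) le_rfl hsat'
  obtain ⟨c1, c2⟩ := block_compare κ M hnn hrow hcol hblk j0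
  rw [← hb] at c1 c2
  have c3 := c2 j0 (mem_cls.2 rfl)
  have hbpos : (0 : ℝ) < (b.card.factorial : ℝ) / (b.card : ℝ) ^ b.card := by
    have h2 := cls_pos κ j0
    rw [← hb] at h2
    have : (0 : ℝ) < (b.card : ℝ) := by exact_mod_cast h2
    positivity
  rw [c1]
  refine ⟨mul_pos hbpos ih1, ?_⟩
  have h5 : 0 ≤ (∑ i, (M i j0 - Emat κ i j0) ^ 2) / 2 := by positivity
  calc (b.card.factorial : ℝ) / (b.card : ℝ) ^ b.card *
        mper ((s \ b).toList.map (fun j i => Emat κ i j)) (s \ b) *
        (1 + (∑ i, (M i j0 - Emat κ i j0) ^ 2) / 2)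
      = ((b.card.factorial : ℝ) / (b.card : ℝ) ^ b.card *
        (1 + (∑ i, (M i j0 - Emat κ i j0) ^ 2) / 2)) *
        mper ((s \ b).toList.map (fun j i => Emat κ i j)) (s \ b) := by ring
    _ ≤ _ := mul_le_mul c3 ih2 ih1.le (le_trans (by positivity) c3)

end Pool.Agent.Lib.MP_2b959d_co
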