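import Mathlib
import Pool.Agent.Lib.MP_2b959d_co.BlockVdW

/-!
Upper bounds for the permanent of `E * X` and of perturbations of class-constant matrices.
-/

set_option autoImplicit false

namespace Pool.Agent.Lib.MP_2b959d_co

open Finset

variable {n : ℕ} {α : Type*} [DecidableEq α]

/-- class-preserving permutations -/
def Gam (κ : Fin n → α) : Finset (Equiv.Perm (Fin n)) := univ.filter (fun π => κ ∘ π = κ)

theorem fiber_card (κ : Fin n → α) (σ0 : Equiv.Perm (Fin n)) :
    (univ.filter (fun σ : Equiv.Perm (Fin n) => κ ∘ σ = κ ∘ σ0)).card = (Gam κ).card := by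
  symm
  refine Finset.card_bij (fun π _ => π * σ0) ?_ ?_ ?_
  · intro π hπ
    simp only [Gam, Finset.mem_filter, Finset.mem_univ, true_and] at hπ ⊢
    funext c
    have := congrFun hπ (σ0 c)
    simpa using this
  · intro π _ π' _ h
    exact mul_right_cancel h
  · intro σ hσ
    simp only [Finset.mem_filter, Finset.mem_univ, true_and] at hσ
    refine ⟨σ * σ0⁻¹, ?_, by simp⟩
    simp only [Gam, Finset.mem_filter, Finset.mem_univ, true_and]
    funext c
    have := congrFun hσ (σ0⁻¹ c)
    simpa using this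

/-- The number of columns with a given class pattern value is determined. -/
theorem pattern_inj (κ : Fin n → α) (σ σ' : Equiv.Perm (Fin n)) (c0 : Fin n)
    (h : ∀ c, c ≠ c0 → κ (σ c) = κ (σ' c)) : κ (σ c0) = κ (σ' c0) := by
  by_contra hne
  set k := κ (σ c0) with hk
  have hcount : ∀ τ : Equiv.Perm (Fin n), (univ.filter (fun c => κ (τ c) = k)).card =
      (univ.filter (fun r => κ r = k)).card := by
    intro τ
    refine Finset.card_bij (fun c _ => τ c) ?_ ?_ ?_
    · intro c hc; simpa using hc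
    · intro c _ c' _ h; exact τ.injective h
    · intro r hr
      exact ⟨τ⁻¹ r, by simpa using hr, by simp⟩
  have h1 := hcount σ
  have h2 := hcount σ'
  have h3 : (univ.filter (fun c => κ (σ' c) = k)) = (univ.filter (fun c => κ (σ c) = k)).erase c0 := by
    ext c
    simp only [Finset.mem_filter, Finset.mem_univ, true_and, Finset.mem_erase]
    constructor
    · intro hc
      have hc0 : c ≠ c0 := by
        rintro rfl
        exact hne hc.symm
      exact ⟨hc0, (h c hc0).trans hc⟩
    · rintro ⟨hc0, hc⟩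
      exact (h c hc0).symm.trans hc
  have h4 : c0 ∈ univ.filter (fun c => κ (σ c) = k) := by simp [hk]
  rw [h3, Finset.card_erase_of_mem h4] at h2
  have h5 : 0 < (univ.filter (fun c => κ (σ c) = k)).card := Finset.card_pos.2 ⟨c0, h4⟩
  omega

theorem Emat_permanent (κ : Fin n → α) :
    (Emat κ).permanent = (∏ r, 1 / ((cls κ r).card : ℝ)) * (Gam κ).card := by
  unfold Matrix.permanent
  have h1 : ∀ σ : Equiv.Perm (Fin n), ∏ c, Emat κ (σ c) c =
      if κ ∘ σ = κ then ∏ r, 1 / ((cls κ r).card : ℝ) else 0 := by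
    intro σ
    by_cases hσ : κ ∘ σ = κ
    · rw [if_pos hσ, ← Equiv.prod_comp σ (fun r => 1 / ((cls κ r).card : ℝ))]
      refine Finset.prod_congr rfl (fun c _ => ?_)
      rw [Emat_apply, if_pos (show κ (σ c) = κ c from congrFun hσ c)]
    · rw [if_neg hσ]
      have : ∃ c, κ (σ c) ≠ κ c := by
        by_contra hcon
        push Not at hcon
        exact hσ (funext hcon)
      obtain ⟨c, hc⟩ := this
      exact Finset.prod_eq_zero (Finset.mem_univ c) (by rw [Emat_apply, if_neg hc])
  rw [Finset.sum_congr rfl (fun σ _ => h1 σ), ← Finset.sum_filter, Finset.sum_const, nsmul_eq_mul,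
    mul_comm]
  rfl

theorem Emat_mul_apply (κ : Fin n → α) (X : Matrix (Fin n) (Fin n) ℝ) (r c : Fin n) :
    (Emat κ * X) r c = (∑ l ∈ cls κ r, X l c) / ((cls κ r).card : ℝ) := by
  rw [Matrix.mul_apply]
  have h1 : ∀ l, Emat κ r l * X l c = if l ∈ cls κ r then X l c / ((cls κ r).card : ℝ) else 0 := by
    intro l
    rw [Emat_apply]
    by_cases h : κ r = κ l
    · rw [if_pos h, if_pos (mem_cls.2 h.symm)]; ring
    · rw [if_neg h, if_neg (fun h' => h (mem_cls.1 h').symm), zero_mul]
  rw [Finset.sum_congr rfl (fun l _ => h1 l), Finset.sum_ite_mem, Finset.univ_inter,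
    Finset.sum_div]

/-- Key upper bound: `per (E X) ≤ per E * μ`. -/
theorem per_EX_le (κ : Fin n → α) (X : Matrix (Fin n) (Fin n) ℝ) (hnn : ∀ i j, 0 ≤ X i j)
    (hcol : ∀ j, ∑ i, X i j = 1) (c0 : Fin n) (μ : ℝ)
    (hμ : ∀ r, ∑ l ∈ cls κ r, X l c0 ≤ μ) :
    (Emat κ * X).permanent ≤ (Emat κ).permanent * μ := by
  set K : Finset α := univ.image κ with hK
  set Q : Fin n → α → ℝ := fun c k => ∑ l ∈ univ.filter (fun l => κ l = k), X l c with hQ
  have hQnn : ∀ c k, 0 ≤ Q c k := fun c k => Finset.sum_nonneg (fun l _ => hnn l c)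
  have hQcls : ∀ c r, ∑ l ∈ cls κ r, X l c = Q c (κ r) := fun c r => rfl
  have hQsum : ∀ c, ∑ k ∈ K, Q c k = 1 := by
    intro c
    rw [← hcol c]
    exact Finset.sum_fiberwise_of_maps_to (fun l _ => Finset.mem_image_of_mem κ (Finset.mem_univ l)) _
  set F : (Fin n → α) → ℝ := fun φ => ∏ c, Q c (φ c) with hF
  set w : ℝ := ∏ r, 1 / ((cls κ r).card : ℝ) with hw
  have hwnn : 0 ≤ w := Finset.prod_nonneg (fun r _ => by positivity)
  have h1 : (Emat κ * X).permanent = w * ∑ σ : Equiv.Perm (Fin n), F (κ ∘ σ) := by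
    unfold Matrix.permanent
    rw [Finset.mul_sum]
    refine Finset.sum_congr rfl (fun σ _ => ?_)
    rw [hw, ← Equiv.prod_comp σ (fun r => 1 / ((cls κ r).card : ℝ)), hF]
    simp only
    rw [← Finset.prod_mul_distrib]
    refine Finset.prod_congr rfl (fun c _ => ?_)
    rw [Emat_mul_apply, hQcls]
    simp only [Function.comp_apply]
    ring
  have h2 : ∑ σ : Equiv.Perm (Fin n), F (κ ∘ σ) =
      ((Gam κ).card : ℝ) * ∑ φ ∈ univ.image (fun σ : Equiv.Perm (Fin n) => κ ∘ σ), F φ := by
    rw [Finset.sum_comp F (fun σ : Equiv.Perm (Fin n) => κ ∘ σ), Finset.mul_sum]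
    refine Finset.sum_congr rfl (fun φ hφ => ?_)
    obtain ⟨σ0, _, rfl⟩ := Finset.mem_image.1 hφ
    rw [fiber_card κ σ0, nsmul_eq_mul]
  set Φ : Finset (Fin n → α) := univ.image (fun σ : Equiv.Perm (Fin n) => κ ∘ σ) with hΦ
  have h3 : ∑ φ ∈ Φ, F φ ≤ μ := by
    set g : Fin n → α → ℝ := fun c k => if c = c0 then 1 else Q c k with hg
    have hgnn : ∀ c k, 0 ≤ g c k := by
      intro c k
      simp only [hg]
      split_ifs
      · exact zero_le_one
      · exact hQnn c k
    have hFg : ∀ φ ∈ Φ, F φ ≤ μ * ∏ c, g c (φ c) := by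
      intro φ hφ
      obtain ⟨σ, _, rfl⟩ := Finset.mem_image.1 hφ
      have e1 : ∏ c, g c ((κ ∘ σ) c) = ∏ c ∈ univ.erase c0, Q c ((κ ∘ σ) c) := by
        rw [← Finset.mul_prod_erase univ _ (Finset.mem_univ c0)]
        have : g c0 ((κ ∘ σ) c0) = 1 := by simp [hg]
        rw [this, one_mul]
        refine Finset.prod_congr rfl (fun c hc => ?_)
        simp only [hg]
        rw [if_neg (Finset.ne_of_mem_erase hc)]
      rw [e1]
      simp only [hF]
      rw [← Finset.mul_prod_erase univ _ (Finset.mem_univ c0)]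
      refine mul_le_mul_of_nonneg_right ?_ (Finset.prod_nonneg (fun c _ => hQnn _ _))
      have := hμ (σ c0)
      rw [hQcls] at this
      exact this
    have hμ0 : 0 ≤ μ := by
      have := hμ c0
      exact le_trans (Finset.sum_nonneg (fun l _ => hnn l c0)) this
    have hsum1 : ∑ φ ∈ Φ, ∏ c, g c (φ c) ≤ 1 := by
      set k0 : α := κ c0 with hk0
      set t : Fin n → Finset α := fun c => if c = c0 then {k0} else K with ht
      have e1 : ∑ ψ ∈ Fintype.piFinset t, ∏ c, g c (ψ c) = 1 := by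
        rw [← Finset.prod_univ_sum]
        refine Finset.prod_eq_one (fun c _ => ?_)
        simp only [ht, hg]
        by_cases hc : c = c0
        · simp [hc]
        · simp only [if_neg hc]; exact hQsum c
      have e2 : ∑ φ ∈ Φ, ∏ c, g c (φ c) =
          ∑ ψ ∈ Φ.image (fun φ => Function.update φ c0 k0), ∏ c, g c (ψ c) := by
        have hinj : Set.InjOn (fun φ : Fin n → α => Function.update φ c0 k0) (Φ : Set (Fin n → α)) := by
          intro φ hφ φ' hφ' h
          obtain ⟨σ, _, rfl⟩ := Finset.mem_image.1 (Finset.mem_coe.1 hφ)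
          obtain ⟨σ', _, rfl⟩ := Finset.mem_image.1 (Finset.mem_coe.1 hφ')
          have h4 : ∀ c, c ≠ c0 → κ (σ c) = κ (σ' c) := by
            intro c hc
            have := congrFun h c
            simp only [Function.update_of_ne hc] at this
            exact this
          funext c
          by_cases hc : c = c0
          · subst hc; exact pattern_inj κ σ σ' c h4
          · exact h4 c hc
        have e3 := Finset.sum_image (f := fun ψ : Fin n → α => ∏ c, g c (ψ c)) (s := Φ)
          (g := fun φ : Fin n → α => Function.update φ c0 k0) hinj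
        rw [e3]
        refine Finset.sum_congr rfl (fun φ _ => Finset.prod_congr rfl (fun c _ => ?_))
        by_cases hc : c = c0
        · subst hc; simp [hg]
        · rw [Function.update_of_ne hc]
      rw [e2, ← e1]
      refine Finset.sum_le_sum_of_subset_of_nonneg ?_
        (fun ψ _ _ => Finset.prod_nonneg (fun c _ => hgnn _ _))
      intro ψ hψ
      obtain ⟨φ, hφ, rfl⟩ := Finset.mem_image.1 hψ
      obtain ⟨σ, _, rfl⟩ := Finset.mem_image.1 hφ
      rw [Fintype.mem_piFinset]
      intro c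
      simp only [ht]
      by_cases hc : c = c0
      · subst hc; simp
      · rw [Function.update_of_ne hc, if_neg hc]
        exact Finset.mem_image_of_mem κ (Finset.mem_univ _)
    calc ∑ φ ∈ Φ, F φ ≤ ∑ φ ∈ Φ, μ * ∏ c, g c (φ c) := Finset.sum_le_sum hFg
      _ = μ * ∑ φ ∈ Φ, ∏ c, g c (φ c) := by rw [Finset.mul_sum]
      _ ≤ μ * 1 := mul_le_mul_of_nonneg_left hsum1 hμ0
      _ = μ := mul_one μ
  rw [h1, h2, Emat_permanent, mul_assoc]
  refine mul_le_mul_of_nonneg_left ?_ hwnn
  exact mul_le_mul_of_nonneg_left h3 (Nat.cast_nonneg _)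

/-- Second-order comparison: adding a perturbation with zero class sums. -/
theorem per_perturb (κ : Fin n → α) (B Z : Matrix (Fin n) (Fin n) ℝ) (ζ : ℝ)
    (hB : ∀ i j, |B i j| ≤ 1) (hBc : ∀ r r' c, κ r = κ r' → B r c = B r' c)
    (hZ1 : ∀ i j, |Z i j| ≤ 1) (hZ : ∀ i j, |Z i j| ≤ ζ)
    (hZc : ∀ r c, ∑ l ∈ cls κ r, Z l c = 0) :
    (B + Z).permanent ≤ B.permanent + (n.factorial : ℝ) * 2 ^ n * ζ ^ 2 := by
  -- expansion over the set of columns taken from Z
  have hexp : (B + Z).permanent = ∑ T ∈ (univ : Finset (Fin n)).powerset,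
      ∑ σ : Equiv.Perm (Fin n), (∏ c ∈ T, Z (σ c) c) * ∏ c ∈ univ \ T, B (σ c) c := by
    unfold Matrix.permanent
    rw [Finset.sum_comm]
    refine Finset.sum_congr rfl (fun σ _ => ?_)
    rw [← Finset.prod_add]
    refine Finset.prod_congr rfl (fun c _ => ?_)
    rw [Matrix.add_apply, add_comm]
  have hzero : ∀ c0 : Fin n, ∑ σ : Equiv.Perm (Fin n),
      (∏ c ∈ {c0}, Z (σ c) c) * ∏ c ∈ univ \ {c0}, B (σ c) c = 0 := by
    intro c0
    set R : Equiv.Perm (Fin n) → ℝ := fun σ => ∏ c ∈ univ \ {c0}, B (σ c) c with hR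
    set h : Fin n → ℝ := fun r => ∑ σ ∈ univ.filter (fun σ : Equiv.Perm (Fin n) => σ c0 = r), R σ
      with hh
    have hconst : ∀ r r', κ r = κ r' → h r = h r' := by
      intro r r' hrr
      have hsw : ∀ x c, B (Equiv.swap r r' x) c = B x c := by
        intro x c
        apply hBc
        by_cases hx : x = r
        · subst hx; rw [Equiv.swap_apply_left]; exact hrr.symm
        · by_cases hx' : x = r'
          · subst hx'; rw [Equiv.swap_apply_right]; exact hrr
          · rw [Equiv.swap_apply_of_ne_of_ne hx hx']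
      simp only [hh]
      refine Finset.sum_bij (fun σ _ => Equiv.swap r r' * σ) ?_ ?_ ?_ ?_
      · intro σ hσ
        simp only [Finset.mem_filter, Finset.mem_univ, true_and] at hσ ⊢
        rw [Equiv.Perm.mul_apply, hσ, Equiv.swap_apply_left]
      · intro σ _ σ' _ he
        exact mul_left_cancel he
      · intro σ hσ
        simp only [Finset.mem_filter, Finset.mem_univ, true_and] at hσ
        refine ⟨Equiv.swap r r' * σ, ?_, ?_⟩
        · simp only [Finset.mem_filter, Finset.mem_univ, true_and]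
          rw [Equiv.Perm.mul_apply, hσ, Equiv.swap_apply_right]
        · rw [← mul_assoc, Equiv.swap_mul_self, one_mul]
      · intro σ _
        simp only [hR]
        refine Finset.prod_congr rfl (fun c _ => ?_)
        rw [Equiv.Perm.mul_apply, hsw]
    have e1 : ∑ σ : Equiv.Perm (Fin n),
        (∏ c ∈ {c0}, Z (σ c) c) * ∏ c ∈ univ \ {c0}, B (σ c) c = ∑ r, Z r c0 * h r := by
      rw [← Finset.sum_fiberwise (s := (univ : Finset (Equiv.Perm (Fin n)))) (g := fun σ => σ c0)]
      refine Finset.sum_congr rfl (fun r _ => ?_)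
      rw [hh, Finset.mul_sum]
      refine Finset.sum_congr rfl (fun σ hσ => ?_)
      simp only [Finset.mem_filter, Finset.mem_univ, true_and] at hσ
      rw [Finset.prod_singleton, hσ]
    rw [e1, ← Finset.sum_fiberwise_of_maps_to (g := κ) (t := univ.image κ)
      (fun l _ => Finset.mem_image_of_mem κ (Finset.mem_univ l))]
    refine Finset.sum_eq_zero (fun k hk => ?_)
    obtain ⟨r0, _, rfl⟩ := Finset.mem_image.1 hk
    have e2 : ∀ r ∈ univ.filter (fun r => κ r = κ r0), Z r c0 * h r = Z r c0 * h r0 := by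
      intro r hr
      rw [hconst r r0 (Finset.mem_filter.1 hr).2]
    rw [Finset.sum_congr rfl e2, ← Finset.sum_mul]
    have e3 : ∑ r ∈ univ.filter (fun r => κ r = κ r0), Z r c0 = 0 := hZc r0 c0
    rw [e3, zero_mul]
  have hζ : 0 ≤ (n.factorial : ℝ) * ζ ^ 2 := by positivity
  -- bound each T
  have hbound : ∀ T ∈ (univ : Finset (Fin n)).powerset.erase ∅,
      ∑ σ : Equiv.Perm (Fin n), (∏ c ∈ T, Z (σ c) c) * ∏ c ∈ univ \ T, B (σ c) c ≤
        (n.factorial : ℝ) * ζ ^ 2 := by
    intro T hT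
    have hTne : T ≠ ∅ := (Finset.mem_erase.1 hT).1
    rcases Nat.lt_or_ge T.card 2 with h1 | h2
    · have hT1 : T.card = 1 := by
        have := Finset.card_pos.2 (Finset.nonempty_iff_ne_empty.2 hTne)
        omega
      obtain ⟨c0, rfl⟩ := Finset.card_eq_one.1 hT1
      rw [hzero]
      exact hζ
    · have hone : ∀ σ : Equiv.Perm (Fin n),
          (∏ c ∈ T, Z (σ c) c) * ∏ c ∈ univ \ T, B (σ c) c ≤ ζ ^ 2 := by
        intro σ
        obtain ⟨a, ha, b, hb, hab⟩ := Finset.one_lt_card.1 (by omega : 1 < T.card)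
        have e1 : |∏ c ∈ univ \ T, B (σ c) c| ≤ 1 := by
          rw [Finset.abs_prod]
          exact Finset.prod_le_one (fun _ _ => abs_nonneg _) (fun c _ => hB _ _)
        have e2 : |∏ c ∈ T, Z (σ c) c| ≤ ζ ^ 2 := by
          rw [Finset.abs_prod, ← Finset.mul_prod_erase T _ ha,
            ← Finset.mul_prod_erase (T.erase a) _ (Finset.mem_erase.2 ⟨hab.symm, hb⟩)]
          have e3 : ∏ c ∈ (T.erase a).erase b, |Z (σ c) c| ≤ 1 :=
            Finset.prod_le_one (fun _ _ => abs_nonneg _) (fun c _ => hZ1 _ _)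
          have e4 : 0 ≤ ∏ c ∈ (T.erase a).erase b, |Z (σ c) c| :=
            Finset.prod_nonneg (fun _ _ => abs_nonneg _)
          have e5 := hZ (σ a) a
          have e6 := hZ (σ b) b
          have e7 := abs_nonneg (Z (σ a) a)
          have e8 := abs_nonneg (Z (σ b) b)
          calc |Z (σ a) a| * (|Z (σ b) b| * ∏ c ∈ (T.erase a).erase b, |Z (σ c) c|)
              ≤ ζ * (ζ * 1) := by
                apply mul_le_mul e5 _ (mul_nonneg e8 e4) (le_trans e7 e5)
                exact mul_le_mul e6 e3 e4 (le_trans e8 e6)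
            _ = ζ ^ 2 := by ring
        calc (∏ c ∈ T, Z (σ c) c) * ∏ c ∈ univ \ T, B (σ c) c
            ≤ |(∏ c ∈ T, Z (σ c) c) * ∏ c ∈ univ \ T, B (σ c) c| := le_abs_self _
          _ = |∏ c ∈ T, Z (σ c) c| * |∏ c ∈ univ \ T, B (σ c) c| := abs_mul _ _
          _ ≤ ζ ^ 2 * 1 := mul_le_mul e2 e1 (abs_nonneg _) (by positivity)
          _ = ζ ^ 2 := mul_one _
      calc ∑ σ : Equiv.Perm (Fin n), (∏ c ∈ T, Z (σ c) c) * ∏ c ∈ univ \ T, B (σ c) c
          ≤ ∑ _σ : Equiv.Perm (Fin n), ζ ^ 2 := Finset.sum_le_sum (fun σ _ => hone σ)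
        _ = (n.factorial : ℝ) * ζ ^ 2 := by
          rw [Finset.sum_const, Finset.card_univ, Fintype.card_perm, Fintype.card_fin, nsmul_eq_mul]
  rw [hexp, ← Finset.add_sum_erase _ _ (Finset.empty_mem_powerset _)]
  have e1 : ∑ σ : Equiv.Perm (Fin n), (∏ c ∈ (∅ : Finset (Fin n)), Z (σ c) c) *
      ∏ c ∈ univ \ (∅ : Finset (Fin n)), B (σ c) c = B.permanent := by
    unfold Matrix.permanent
    refine Finset.sum_congr rfl (fun σ _ => ?_)
    simp
  rw [e1]
  have e2 := Finset.sum_le_sum hbound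
  rw [Finset.sum_const, nsmul_eq_mul] at e2
  have e3 : (((univ : Finset (Fin n)).powerset.erase ∅).card : ℝ) ≤ 2 ^ n := by
    have : ((univ : Finset (Fin n)).powerset.erase ∅).card ≤ 2 ^ n := by
      refine le_trans (Finset.card_le_card (Finset.erase_subset _ _)) ?_
      rw [Finset.card_powerset, Finset.card_univ, Fintype.card_fin]
    exact_mod_cast this
  have e4 : (((univ : Finset (Fin n)).powerset.erase ∅).card : ℝ) * ((n.factorial : ℝ) * ζ ^ 2) ≤
      (n.factorial : ℝ) * 2 ^ n * ζ ^ 2 := by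
    calc _ ≤ 2 ^ n * ((n.factorial : ℝ) * ζ ^ 2) := mul_le_mul_of_nonneg_right e3 hζ
      _ = _ := by ring
  linarith

end Pool.Agent.Lib.MP_2b959d_co
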