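import Mathlib
import Pool.Agent.Lib.MP_2b959d_co.Upper

/-!
Structure of idempotents in the closure of the powers of a doubly stochastic matrix.
-/

set_option autoImplicit false

namespace Pool.Agent.Lib.MP_2b959d_co

open Finset Matrix

variable {n : ℕ}

theorem var_identity {S : Matrix (Fin n) (Fin n) ℝ} (hS : S ∈ doublyStochastic ℝ (Fin n))
    (x : Fin n → ℝ) :
    ∑ r, ∑ c, S r c * (x c - (S *ᵥ x) r) ^ 2 = ∑ c, x c ^ 2 - ∑ r, ((S *ᵥ x) r) ^ 2 := by
  have hrow := sum_row_of_mem_doublyStochastic hS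
  have hcol := sum_col_of_mem_doublyStochastic hS
  have h1 : ∀ r, ∑ c, S r c * (x c - (S *ᵥ x) r) ^ 2 =
      ∑ c, S r c * x c ^ 2 - ((S *ᵥ x) r) ^ 2 := by
    intro r
    have e1 : (S *ᵥ x) r = ∑ c, S r c * x c := rfl
    have e2 : ∀ c, S r c * (x c - (S *ᵥ x) r) ^ 2 =
        S r c * x c ^ 2 - 2 * (S *ᵥ x) r * (S r c * x c) + ((S *ᵥ x) r) ^ 2 * S r c := by
      intro c; ring
    rw [Finset.sum_congr rfl (fun c _ => e2 c), Finset.sum_add_distrib, Finset.sum_sub_distrib,
      ← Finset.mul_sum, ← Finset.mul_sum, ← e1, hrow r]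
    ring
  rw [Finset.sum_congr rfl (fun r _ => h1 r), Finset.sum_sub_distrib, Finset.sum_comm]
  congr 1
  refine Finset.sum_congr rfl (fun c _ => ?_)
  rw [← Finset.sum_mul, hcol c, one_mul]

theorem contract {S : Matrix (Fin n) (Fin n) ℝ} (hS : S ∈ doublyStochastic ℝ (Fin n))
    (x : Fin n → ℝ) : ∑ r, ((S *ᵥ x) r) ^ 2 ≤ ∑ c, x c ^ 2 := by
  have h1 := var_identity hS x
  have h2 : 0 ≤ ∑ r, ∑ c, S r c * (x c - (S *ᵥ x) r) ^ 2 :=
    Finset.sum_nonneg (fun r _ => Finset.sum_nonneg (fun c _ =>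
      mul_nonneg (nonneg_of_mem_doublyStochastic hS) (sq_nonneg _)))
  linarith

/-- If `S` preserves the norm of `x` then `x` is constant on the support of every row of `S`. -/
theorem const_on_support {S : Matrix (Fin n) (Fin n) ℝ} (hS : S ∈ doublyStochastic ℝ (Fin n))
    (x : Fin n → ℝ) (hx : ∑ c, x c ^ 2 ≤ ∑ r, ((S *ᵥ x) r) ^ 2) (r c : Fin n) (h : 0 < S r c) :
    x c = (S *ᵥ x) r := by
  have h1 := var_identity hS x
  have hnn : ∀ r c, 0 ≤ S r c * (x c - (S *ᵥ x) r) ^ 2 := fun r c =>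
    mul_nonneg (nonneg_of_mem_doublyStochastic hS) (sq_nonneg _)
  have h2 : ∑ r, ∑ c, S r c * (x c - (S *ᵥ x) r) ^ 2 = 0 := by
    apply le_antisymm
    · linarith
    · exact Finset.sum_nonneg (fun r _ => Finset.sum_nonneg (fun c _ => hnn r c))
  have h3 := (Finset.sum_eq_zero_iff_of_nonneg (fun r _ =>
    Finset.sum_nonneg (fun c _ => hnn r c))).1 h2 r (Finset.mem_univ _)
  have h4 := (Finset.sum_eq_zero_iff_of_nonneg (fun c _ => hnn r c)).1 h3 c (Finset.mem_univ _)
  rcases mul_eq_zero.1 h4 with h5 | h5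
  · exact absurd h5 h.ne'
  · have := pow_eq_zero_iff (two_ne_zero) |>.1 h5
    linarith

/-- rows of an idempotent doubly stochastic matrix -/
theorem idem_row {E : Matrix (Fin n) (Fin n) ℝ} (hE : E ∈ doublyStochastic ℝ (Fin n))
    (hid : E * E = E) (i l : Fin n) (h : 0 < E i l) : E i = E l := by
  funext j
  have hx : E *ᵥ (fun k => E k j) = fun k => E k j := by
    funext k
    have := congrFun (congrFun hid k) j
    rw [Matrix.mul_apply] at this
    exact this
  have h1 := const_on_support hE (fun k => E k j) (by rw [hx]) i l h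
  rw [hx] at h1
  exact h1.symm

/-- Idempotent doubly stochastic matrices are block averaging matrices. -/
theorem idem_eq_Emat {E : Matrix (Fin n) (Fin n) ℝ} (hE : E ∈ doublyStochastic ℝ (Fin n))
    (hid : E * E = E) : E = Emat (fun i => E i) := by
  ext i l
  have hdiag : ∀ l, E l l = 1 / ((cls (fun i => E i) l).card : ℝ) := by
    intro l
    have h1 := sum_col_of_mem_doublyStochastic hE l
    have h2 : ∑ i, E i l = ∑ i ∈ cls (fun i => E i) l, E l l := by
      rw [← Finset.sum_subset (Finset.subset_univ (cls (fun i => E i) l))]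
      · refine Finset.sum_congr rfl (fun i hi => ?_)
        have : E i = E l := mem_cls.1 hi
        rw [this]
      · intro i _ hi
        by_contra hne
        have hpos : 0 < E i l := lt_of_le_of_ne (nonneg_of_mem_doublyStochastic hE) (Ne.symm hne)
        exact hi (mem_cls.2 (idem_row hE hid i l hpos))
    rw [h2, Finset.sum_const, nsmul_eq_mul] at h1
    have h3 := cls_pos (fun i => E i) l
    have h4 : (0 : ℝ) < ((cls (fun i => E i) l).card : ℝ) := by exact_mod_cast h3
    field_simp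
    linarith
  rw [Emat_apply]
  by_cases h : E i = E l
  · rw [if_pos h, cls_congr (κ := fun i => E i) h, ← hdiag l, h]
  · rw [if_neg h]
    by_contra hne
    have hpos : 0 < E i l := lt_of_le_of_ne (nonneg_of_mem_doublyStochastic hE) (Ne.symm hne)
    exact h (idem_row hE hid i l hpos)

/-- A one-sided inverse forces the rows of `B` to be supported in one class. -/
theorem supp_right {E B F : Matrix (Fin n) (Fin n) ℝ} (hE : E ∈ doublyStochastic ℝ (Fin n))
    (hB : B ∈ doublyStochastic ℝ (Fin n)) (hF : F ∈ doublyStochastic ℝ (Fin n))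
    (hid : E * E = E) (hFB : F * B = E) (r c c' : Fin n) (h : 0 < B r c) (h' : 0 < B r c') :
    E c = E c' := by
  funext j
  have hx : E *ᵥ (fun k => E k j) = fun k => E k j := by
    funext k
    have := congrFun (congrFun hid k) j
    rw [Matrix.mul_apply] at this
    exact this
  have hle : ∑ c, (fun k => E k j) c ^ 2 ≤ ∑ r, ((B *ᵥ (fun k => E k j)) r) ^ 2 := by
    have h1 := contract hF (B *ᵥ (fun k => E k j))
    rw [Matrix.mulVec_mulVec, hFB, hx] at h1
    exact h1
  have h2 := const_on_support hB (fun k => E k j) hle r c h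
  have h3 := const_on_support hB (fun k => E k j) hle r c' h'
  exact h2.trans h3.symm

theorem transpose_mem {A : Matrix (Fin n) (Fin n) ℝ} (hA : A ∈ doublyStochastic ℝ (Fin n)) :
    Aᵀ ∈ doublyStochastic ℝ (Fin n) := by
  rw [mem_doublyStochastic_iff_sum] at hA ⊢
  exact ⟨fun i j => hA.1 j i, fun i => hA.2.2 i, fun j => hA.2.1 j⟩

theorem Emat_symm {α : Type*} [DecidableEq α] (κ : Fin n → α) : (Emat κ)ᵀ = Emat κ := by
  ext i j
  rw [Matrix.transpose_apply, Emat_apply, Emat_apply]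
  by_cases h : κ j = κ i
  · rw [if_pos h, if_pos h.symm, cls_congr h]
  · rw [if_neg h, if_neg (fun h' => h h'.symm)]

theorem idem_symm {E : Matrix (Fin n) (Fin n) ℝ} (hE : E ∈ doublyStochastic ℝ (Fin n))
    (hid : E * E = E) : Eᵀ = E := by
  rw [idem_eq_Emat hE hid, Emat_symm]

theorem supp_left {E B F : Matrix (Fin n) (Fin n) ℝ} (hE : E ∈ doublyStochastic ℝ (Fin n))
    (hB : B ∈ doublyStochastic ℝ (Fin n)) (hF : F ∈ doublyStochastic ℝ (Fin n))
    (hid : E * E = E) (hBF : B * F = E) (r r' c : Fin n) (h : 0 < B r c) (h' : 0 < B r' c) :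
    E r = E r' := by
  have h1 : Fᵀ * Bᵀ = E := by
    rw [← Matrix.transpose_mul, hBF, idem_symm hE hid]
  exact supp_right hE (transpose_mem hB) (transpose_mem hF) hid h1 c r r' h h'

theorem isCompact_DS : IsCompact (doublyStochastic ℝ (Fin n) : Set (Matrix (Fin n) (Fin n) ℝ)) := by
  have h1 : IsCompact (Set.pi Set.univ (fun _ : Fin n => Set.pi Set.univ
      (fun _ : Fin n => Set.Icc (0 : ℝ) 1))) :=
    isCompact_univ_pi (fun _ => isCompact_univ_pi (fun _ => isCompact_Icc))
  refine IsCompact.of_isClosed_subset (s := (Set.pi Set.univ (fun _ : Fin n => Set.pi Set.univ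
      (fun _ : Fin n => Set.Icc (0 : ℝ) 1)) : Set (Matrix (Fin n) (Fin n) ℝ))) h1 ?_ ?_
  · have : (doublyStochastic ℝ (Fin n) : Set (Matrix (Fin n) (Fin n) ℝ)) =
        (⋂ i, ⋂ j, {M : Matrix (Fin n) (Fin n) ℝ | 0 ≤ M i j}) ∩
        ((⋂ i, {M : Matrix (Fin n) (Fin n) ℝ | ∑ j, M i j = 1}) ∩
         (⋂ j, {M : Matrix (Fin n) (Fin n) ℝ | ∑ i, M i j = 1})) := by
      ext M
      simp only [SetLike.mem_coe, mem_doublyStochastic_iff_sum, Set.mem_inter_iff, Set.mem_iInter,
        Set.mem_ofPred_eq]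
    rw [this]
    refine IsClosed.inter ?_ (IsClosed.inter ?_ ?_)
    · exact isClosed_iInter (fun i => isClosed_iInter (fun j =>
        isClosed_le continuous_const (by fun_prop)))
    · exact isClosed_iInter (fun i => isClosed_eq (by fun_prop) continuous_const)
    · exact isClosed_iInter (fun j => isClosed_eq (by fun_prop) continuous_const)
  · intro M hM i _ j _
    exact ⟨nonneg_of_mem_doublyStochastic hM, le_one_of_mem_doublyStochastic hM⟩

/-- The idempotent attached to a doubly stochastic matrix. -/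
theorem exists_idem {A : Matrix (Fin n) (Fin n) ℝ} (hA : A ∈ doublyStochastic ℝ (Fin n)) :
    ∃ E : Matrix (Fin n) (Fin n) ℝ, E ∈ doublyStochastic ℝ (Fin n) ∧ E * E = E ∧ E * A = A * E ∧
      (∀ (U : Set (Matrix (Fin n) (Fin n) ℝ)) (m : ℕ), IsOpen U → E ∈ U → ∃ j, m ≤ j ∧ A ^ j ∈ U) ∧
      (∀ i : ℕ, ∃ F ∈ doublyStochastic ℝ (Fin n), F * A ^ i = E ∧ A ^ i * F = E) := by
  set P : Set (Matrix (Fin n) (Fin n) ℝ) := {X | ∃ j : ℕ, 1 ≤ j ∧ X = A ^ j} with hP
  have hPsub : P ⊆ (doublyStochastic ℝ (Fin n) : Set (Matrix (Fin n) (Fin n) ℝ)) := by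
    rintro X ⟨j, _, rfl⟩
    exact pow_mem hA j
  have hDSclosed : IsClosed (doublyStochastic ℝ (Fin n) : Set (Matrix (Fin n) (Fin n) ℝ)) :=
    isCompact_DS.isClosed
  have hcl : closure P ⊆ (doublyStochastic ℝ (Fin n) : Set (Matrix (Fin n) (Fin n) ℝ)) :=
    hDSclosed.closure_subset_iff.2 hPsub
  have hcomp : IsCompact (closure P) := isCompact_DS.of_isClosed_subset isClosed_closure hcl
  have hPmul : ∀ x ∈ P, ∀ y ∈ P, x * y ∈ P := by
    rintro x ⟨j, hj, rfl⟩ y ⟨k, hk, rfl⟩
    exact ⟨j + k, by omega, by rw [pow_add]⟩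
  have hmul : ∀ᵉ (x ∈ closure P) (y ∈ closure P), x * y ∈ closure P := by
    intro x hx y hy
    exact map_mem_closure₂ continuous_mul hx hy (fun a ha b hb => hPmul a ha b hb)
  obtain ⟨E, hEcl, hid⟩ := exists_idempotent_in_compact_subsemigroup
    (fun r => continuous_mul_const r) (closure P) ⟨A, subset_closure ⟨1, le_rfl, by simp⟩⟩ hcomp hmul
  have hE : E ∈ doublyStochastic ℝ (Fin n) := hcl hEcl
  have hnear : ∀ (U : Set (Matrix (Fin n) (Fin n) ℝ)) (m : ℕ), IsOpen U → E ∈ U →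
      ∃ j, m ≤ j ∧ A ^ j ∈ U := by
    intro U m hU hEU
    -- use X ↦ X ^ (m + 1)
    have hpow : E ^ (m + 1) = E := IsIdempotentElem.pow_succ_eq m hid
    have hV : IsOpen ((fun X : Matrix (Fin n) (Fin n) ℝ => X ^ (m + 1)) ⁻¹' U) :=
      hU.preimage (continuous_pow (m + 1))
    have hEV : E ∈ ((fun X : Matrix (Fin n) (Fin n) ℝ => X ^ (m + 1)) ⁻¹' U) := by
      simp only [Set.mem_preimage, hpow]
      exact hEU
    obtain ⟨X, hXV, j, hj, rfl⟩ := mem_closure_iff.1 hEcl _ hV hEV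
    refine ⟨j * (m + 1), ?_, ?_⟩
    · nlinarith
    · rw [pow_mul]; exact hXV
  refine ⟨E, hE, hid, ?_, hnear, ?_⟩
  · have hclosed : IsClosed {X : Matrix (Fin n) (Fin n) ℝ | X * A = A * X} :=
      isClosed_eq (continuous_mul_const A) (continuous_const_mul A)
    have hsub : P ⊆ {X : Matrix (Fin n) (Fin n) ℝ | X * A = A * X} := by
      rintro X ⟨j, _, rfl⟩
      exact (Commute.refl A).pow_left j
    exact (hclosed.closure_subset_iff.2 hsub) hEcl
  · intro i
    set K : Set (Matrix (Fin n) (Fin n) ℝ) :=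
      (doublyStochastic ℝ (Fin n) : Set (Matrix (Fin n) (Fin n) ℝ)) ∩
        {X : Matrix (Fin n) (Fin n) ℝ | X * A ^ i = A ^ i * X} with hK
    have hKc : IsCompact K := isCompact_DS.inter_right
      (isClosed_eq (continuous_mul_const _) (continuous_const_mul _))
    have himg : IsClosed ((fun X : Matrix (Fin n) (Fin n) ℝ => X * A ^ i) '' K) :=
      (hKc.image (continuous_mul_const _)).isClosed
    have hEimg : E ∈ ((fun X : Matrix (Fin n) (Fin n) ℝ => X * A ^ i) '' K) := by
      rw [← himg.closure_eq, mem_closure_iff]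
      intro U hU hEU
      obtain ⟨j, hj, hjU⟩ := hnear U i hU hEU
      refine ⟨A ^ j, hjU, A ^ (j - i), ⟨pow_mem hA _, ?_⟩, ?_⟩
      · exact ((Commute.refl A).pow_pow _ _)
      · simp only
        rw [← pow_add]
        congr 1
        omega
    obtain ⟨F, hF, hFE⟩ := hEimg
    exact ⟨F, hF.1, hFE, by rw [← hF.2]; exact hFE⟩

end Pool.Agent.Lib.MP_2b959d_co
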