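import Mathlib
import Pool.Agent.Lib.MP_2b959d_co.Structure

/-!
The block structure attached to a doubly stochastic matrix `A0` and its idempotent `E`.
-/

set_option autoImplicit false

namespace Pool.Agent.Lib.MP_2b959d_co

open Finset Matrix

variable {n : ℕ}

/-- the data attached to a base point -/
structure Setup (A0 E : Matrix (Fin n) (Fin n) ℝ) : Prop where
  hA : A0 ∈ doublyStochastic ℝ (Fin n)
  hE : E ∈ doublyStochastic ℝ (Fin n)
  hid : E * E = E
  hcomm : E * A0 = A0 * E
  hF : ∀ i : ℕ, ∃ F ∈ doublyStochastic ℝ (Fin n), F * A0 ^ i = E ∧ A0 ^ i * F = E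

namespace Setup

variable {A0 E : Matrix (Fin n) (Fin n) ℝ} (h : Setup A0 E)

include h

theorem comm_pow (i : ℕ) : E * A0 ^ i = A0 ^ i * E := by
  have : Commute E A0 := h.hcomm
  exact this.pow_right i

theorem E_pos_iff (r c : Fin n) : 0 < E r c ↔ E r = E c := by
  constructor
  · intro hp; exact idem_row h.hE h.hid r c hp
  · intro he
    have h1 : E r c = Emat (fun i => E i) r c := congrFun (congrFun (idem_eq_Emat h.hE h.hid) r) c
    rw [h1, Emat_apply, if_pos he]
    have := cls_pos (fun i => E i) r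
    positivity

theorem E_symm (r c : Fin n) : E r c = E c r := by
  have := congrFun (congrFun (idem_symm h.hE h.hid) r) c
  rw [Matrix.transpose_apply] at this
  exact this.symm

omit h in
theorem G_rowconst (X : Matrix (Fin n) (Fin n) ℝ) (r r' c : Fin n) (he : E r = E r') :
    (E * X) r c = (E * X) r' c := by
  rw [Matrix.mul_apply, Matrix.mul_apply, he]

theorem G_colconst (X : Matrix (Fin n) (Fin n) ℝ) (r c c' : Fin n) (he : E c = E c') :
    (X * E) r c = (X * E) r c' := by
  rw [Matrix.mul_apply, Matrix.mul_apply]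
  refine Finset.sum_congr rfl (fun l _ => ?_)
  rw [h.E_symm l c, h.E_symm l c', he]

theorem G_nonneg (i : ℕ) (r c : Fin n) : 0 ≤ (E * A0 ^ i) r c :=
  nonneg_of_mem_doublyStochastic (mul_mem h.hE (pow_mem h.hA i))

theorem G_supp (i : ℕ) (r c : Fin n) (hp : 0 < (A0 ^ i) r c) : 0 < (E * A0 ^ i) r c := by
  rw [Matrix.mul_apply]
  refine Finset.sum_pos' (fun l _ => mul_nonneg (nonneg_of_mem_doublyStochastic h.hE)
    (nonneg_of_mem_doublyStochastic (pow_mem h.hA i))) ⟨r, Finset.mem_univ _, ?_⟩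
  exact mul_pos ((h.E_pos_iff r r).2 rfl) hp

theorem G_right (i : ℕ) (r c c' : Fin n) (hc : 0 < (E * A0 ^ i) r c)
    (hc' : 0 < (E * A0 ^ i) r c') : E c = E c' := by
  obtain ⟨F, hF, h1, h2⟩ := h.hF i
  have key : ∀ d, 0 < (E * A0 ^ i) r d → ∃ l, 0 < (A0 ^ i) r l ∧ E l = E d := by
    intro d hd
    rw [h.comm_pow, Matrix.mul_apply] at hd
    by_contra hcon
    push Not at hcon
    have : ∑ l, (A0 ^ i) r l * E l d = 0 := by
      refine Finset.sum_eq_zero (fun l _ => ?_)
      by_cases hl : 0 < (A0 ^ i) r l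
      · have h3 := hcon l hl
        have h4 : ¬ 0 < E l d := fun h5 => h3 ((h.E_pos_iff l d).1 h5)
        have h5 : E l d = 0 := le_antisymm (not_lt.1 h4) (nonneg_of_mem_doublyStochastic h.hE)
        rw [h5, mul_zero]
      · have h5 : (A0 ^ i) r l = 0 := le_antisymm (not_lt.1 hl)
          (nonneg_of_mem_doublyStochastic (pow_mem h.hA i))
        rw [h5, zero_mul]
    rw [this] at hd
    exact lt_irrefl _ hd
  obtain ⟨l, hl, hlc⟩ := key c hc
  obtain ⟨l', hl', hlc'⟩ := key c' hc'
  rw [← hlc, ← hlc']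
  exact supp_right h.hE (pow_mem h.hA i) hF h.hid h1 r l l' hl hl'

theorem G_left (i : ℕ) (r r' c : Fin n) (hc : 0 < (E * A0 ^ i) r c)
    (hc' : 0 < (E * A0 ^ i) r' c) : E r = E r' := by
  obtain ⟨F, hF, h1, h2⟩ := h.hF i
  have key : ∀ d, 0 < (E * A0 ^ i) d c → ∃ l, 0 < (A0 ^ i) l c ∧ E l = E d := by
    intro d hd
    rw [Matrix.mul_apply] at hd
    by_contra hcon
    push Not at hcon
    have : ∑ l, E d l * (A0 ^ i) l c = 0 := by
      refine Finset.sum_eq_zero (fun l _ => ?_)
      by_cases hl : 0 < (A0 ^ i) l c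
      · have h3 := hcon l hl
        have h4 : ¬ 0 < E d l := fun h5 => h3 ((h.E_pos_iff d l).1 h5).symm
        have h5 : E d l = 0 := le_antisymm (not_lt.1 h4) (nonneg_of_mem_doublyStochastic h.hE)
        rw [h5, zero_mul]
      · have h5 : (A0 ^ i) l c = 0 := le_antisymm (not_lt.1 hl)
          (nonneg_of_mem_doublyStochastic (pow_mem h.hA i))
        rw [h5, mul_zero]
    rw [this] at hd
    exact lt_irrefl _ hd
  obtain ⟨l, hl, hlc⟩ := key r hc
  obtain ⟨l', hl', hlc'⟩ := key r' hc'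
  rw [← hlc, ← hlc']
  exact supp_left h.hE (pow_mem h.hA i) hF h.hid h2 l l' c hl hl'

theorem G_succ (i : ℕ) : E * A0 ^ (i + 1) = (E * A0 ^ 1) * (E * A0 ^ i) := by
  rw [pow_one, pow_succ', h.hcomm, mul_assoc A0 E, ← mul_assoc E E, h.hid, ← mul_assoc, ← mul_assoc,
    h.hcomm]

theorem split (i : ℕ) (r c x : Fin n) (hp : 0 < (E * A0 ^ (i + 1)) r c) :
    0 < (E * A0 ^ 1) r x ↔ 0 < (E * A0 ^ i) x c := by
  rw [h.G_succ, Matrix.mul_apply] at hp
  obtain ⟨y, hy1, hy2⟩ : ∃ y, 0 < (E * A0 ^ 1) r y ∧ 0 < (E * A0 ^ i) y c := by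
    by_contra hcon
    push Not at hcon
    have : ∑ y, (E * A0 ^ 1) r y * (E * A0 ^ i) y c = 0 := by
      refine Finset.sum_eq_zero (fun y _ => ?_)
      by_cases hy : 0 < (E * A0 ^ 1) r y
      · have h5 : (E * A0 ^ i) y c = 0 := le_antisymm (hcon y hy) (h.G_nonneg i y c)
        rw [h5, mul_zero]
      · have h5 : (E * A0 ^ 1) r y = 0 := le_antisymm (not_lt.1 hy) (h.G_nonneg 1 r y)
        rw [h5, zero_mul]
    rw [this] at hp
    exact lt_irrefl _ hp
  constructor
  · intro hx
    have he := h.G_right 1 r x y hx hy1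
    rw [G_rowconst (A0 ^ i) x y c he]
    exact hy2
  · intro hx
    have he := h.G_left i x y c hx hy2
    have h6 := h.G_colconst (A0 ^ 1) r x y he
    rw [← h.comm_pow] at h6
    rw [h6]
    exact hy1

end Setup

open Classical in
/-- off mass of `X` with respect to the support of `G` -/
noncomputable def off (G X : Matrix (Fin n) (Fin n) ℝ) : ℝ :=
  ∑ r, ∑ c, if 0 < G r c then 0 else X r c

theorem off_nonneg (G : Matrix (Fin n) (Fin n) ℝ) {X : Matrix (Fin n) (Fin n) ℝ}
    (hX : X ∈ doublyStochastic ℝ (Fin n)) : 0 ≤ off G X := by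
  unfold off
  refine Finset.sum_nonneg (fun r _ => Finset.sum_nonneg (fun c _ => ?_))
  split_ifs
  · exact le_rfl
  · exact nonneg_of_mem_doublyStochastic hX

theorem continuous_off (G : Matrix (Fin n) (Fin n) ℝ) :
    Continuous (fun X : Matrix (Fin n) (Fin n) ℝ => off G X) := by
  unfold off
  refine continuous_finsetSum _ (fun r _ => continuous_finsetSum _ (fun c _ => ?_))
  split_ifs
  · exact continuous_const
  · fun_prop

namespace Setup

variable {A0 E : Matrix (Fin n) (Fin n) ℝ} (h : Setup A0 E)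

include h

theorem off_base (i : ℕ) : off (E * A0 ^ i) (A0 ^ i) = 0 := by
  unfold off
  refine Finset.sum_eq_zero (fun r _ => Finset.sum_eq_zero (fun c _ => ?_))
  split_ifs with h1
  · rfl
  · by_contra h2
    exact h1 (h.G_supp i r c (lt_of_le_of_ne
      (nonneg_of_mem_doublyStochastic (pow_mem h.hA i)) (Ne.symm h2)))

theorem off_step {A : Matrix (Fin n) (Fin n) ℝ} (hA' : A ∈ doublyStochastic ℝ (Fin n)) (i : ℕ)
    (hi : off (E * A0 ^ i) (A ^ i) ≤ 1 / 4) :
    off (E * A0 ^ i) (A ^ i) + off (E * A0 ^ 1) A / 2 ≤ off (E * A0 ^ (i + 1)) (A ^ (i + 1)) := by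
  classical
  have hAi : A ^ i ∈ doublyStochastic ℝ (Fin n) := pow_mem hA' i
  have hnn : ∀ r c, 0 ≤ A r c := fun r c => nonneg_of_mem_doublyStochastic hA'
  have hnni : ∀ r c, 0 ≤ (A ^ i) r c := fun r c => nonneg_of_mem_doublyStochastic hAi
  set a : Fin n → ℝ := fun x => ∑ r, if 0 < (E * A0 ^ 1) r x then 0 else A r x with ha
  set b : Fin n → ℝ := fun x => ∑ c, if 0 < (E * A0 ^ i) x c then 0 else (A ^ i) x c with hb
  have hanonneg : ∀ x, 0 ≤ a x := fun x => Finset.sum_nonneg (fun r _ => by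
    split_ifs
    · exact le_rfl
    · exact hnn r x)
  have hbnonneg : ∀ x, 0 ≤ b x := fun x => Finset.sum_nonneg (fun r _ => by
    split_ifs
    · exact le_rfl
    · exact hnni x r)
  have ha1 : ∀ x, ∑ r, (if 0 < (E * A0 ^ 1) r x then A r x else 0) = 1 - a x := by
    intro x
    rw [ha, ← sum_col_of_mem_doublyStochastic hA' x]
    simp only
    rw [← Finset.sum_sub_distrib]
    refine Finset.sum_congr rfl (fun r _ => ?_)
    split_ifs <;> ring
  have hb1 : ∀ x, ∑ c, (if 0 < (E * A0 ^ i) x c then (A ^ i) x c else 0) = 1 - b x := by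
    intro x
    rw [hb, ← sum_row_of_mem_doublyStochastic hAi x]
    simp only
    rw [← Finset.sum_sub_distrib]
    refine Finset.sum_congr rfl (fun r _ => ?_)
    split_ifs <;> ring
  have hasum : ∑ x, a x = off (E * A0 ^ 1) A := by
    rw [ha]; unfold off
    rw [Finset.sum_comm]
  have hbsum : ∑ x, b x = off (E * A0 ^ i) (A ^ i) := rfl
  have hble : ∀ x, b x ≤ 1 / 4 := by
    intro x
    refine le_trans ?_ hi
    rw [← hbsum]
    exact Finset.single_le_sum (fun y _ => hbnonneg y) (Finset.mem_univ x)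
  -- lower bound the off mass of the product
  have hlow : ∑ x, ((1 - a x) * b x + a x * (1 - b x)) ≤ off (E * A0 ^ (i + 1)) (A ^ (i + 1)) := by
    have e1 : ∑ x, ((1 - a x) * b x + a x * (1 - b x)) =
        ∑ r, ∑ c, ∑ x, ((if 0 < (E * A0 ^ 1) r x then A r x else 0) *
            (if 0 < (E * A0 ^ i) x c then 0 else (A ^ i) x c) +
          (if 0 < (E * A0 ^ 1) r x then 0 else A r x) *
            (if 0 < (E * A0 ^ i) x c then (A ^ i) x c else 0)) := by
      have e2 : ∀ x, (1 - a x) * b x + a x * (1 - b x) =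
          ∑ r, ∑ c, ((if 0 < (E * A0 ^ 1) r x then A r x else 0) *
            (if 0 < (E * A0 ^ i) x c then 0 else (A ^ i) x c) +
          (if 0 < (E * A0 ^ 1) r x then 0 else A r x) *
            (if 0 < (E * A0 ^ i) x c then (A ^ i) x c else 0)) := by
        intro x
        rw [← ha1 x, ← hb1 x]
        simp only [ha, hb]
        rw [Finset.sum_mul_sum, Finset.sum_mul_sum, ← Finset.sum_add_distrib]
        refine Finset.sum_congr rfl (fun r _ => ?_)
        rw [← Finset.sum_add_distrib]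
      rw [Finset.sum_congr rfl (fun x _ => e2 x), Finset.sum_comm]
      refine Finset.sum_congr rfl (fun r _ => ?_)
      rw [Finset.sum_comm]
    rw [e1]
    unfold off
    refine Finset.sum_le_sum (fun r _ => Finset.sum_le_sum (fun c _ => ?_))
    split_ifs with hG
    · -- all terms vanish
      refine le_of_eq (Finset.sum_eq_zero (fun x _ => ?_))
      have hs := h.split i r c x hG
      by_cases h1 : 0 < (E * A0 ^ 1) r x
      · have h2 := hs.1 h1
        rw [if_pos h1, if_pos h2, if_pos h1, if_pos h2]; ring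
      · have h2 : ¬ 0 < (E * A0 ^ i) x c := fun h3 => h1 (hs.2 h3)
        rw [if_neg h1, if_neg h2, if_neg h1, if_neg h2]; ring
    · have e5 : (A ^ (i + 1)) r c = ∑ x, A r x * (A ^ i) x c := by
        rw [pow_succ', Matrix.mul_apply]
      rw [e5]
      refine Finset.sum_le_sum (fun x _ => ?_)
      have h3 := mul_nonneg (hnn r x) (hnni x c)
      split_ifs <;> simp [h3]
  refine le_trans ?_ hlow
  rw [← hasum, ← hbsum, Finset.sum_div]
  rw [← Finset.sum_add_distrib]
  refine Finset.sum_le_sum (fun x _ => ?_)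
  nlinarith [hanonneg x, hbnonneg x, hble x]

theorem off_iter {A : Matrix (Fin n) (Fin n) ℝ} (hA' : A ∈ doublyStochastic ℝ (Fin n)) :
    ∀ j : ℕ, (∀ i, i < j → off (E * A0 ^ i) (A ^ i) ≤ 1 / 4) →
      (j : ℝ) / 2 * off (E * A0 ^ 1) A ≤ off (E * A0 ^ j) (A ^ j) := by
  intro j
  induction j with
  | zero =>
    intro _
    have := off_nonneg (E * A0 ^ 0) (pow_mem hA' 0)
    simpa using this
  | succ j ih =>
    intro hj
    have h1 := ih (fun i hi => hj i (by omega))
    have h2 := h.off_step hA' j (hj j (by omega))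
    push_cast
    linarith

end Setup

end Pool.Agent.Lib.MP_2b959d_co
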