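import Mathlib
import Pool.Agent.Lib.MP_2b959d_co.Setup

/-!
The good part of a doubly stochastic matrix near the base point, and the lower bound.
-/

set_option autoImplicit false

namespace Pool.Agent.Lib.MP_2b959d_co

open Finset Matrix

variable {n : ℕ}

/-- The good part of `A`, obtained from the Birkhoff decomposition. -/
structure Good (G A Ag : Matrix (Fin n) (Fin n) ℝ) (W : ℝ) : Prop where
  W0 : 0 ≤ W
  Woff : W ≤ off G A
  nn : ∀ r c, 0 ≤ Ag r c
  le : ∀ r c, Ag r c ≤ A r c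
  row : ∀ r, ∑ c, Ag r c = 1 - W
  col : ∀ c, ∑ r, Ag r c = 1 - W
  supp : ∀ r c, Ag r c ≠ 0 → 0 < G r c
  perm : W < 1 → ∃ τ : Equiv.Perm (Fin n), ∀ i, 0 < G i (τ i)

theorem permMatrix_apply' (σ : Equiv.Perm (Fin n)) (r c : Fin n) :
    (σ.permMatrix ℝ : Matrix (Fin n) (Fin n) ℝ) r c = if σ r = c then 1 else 0 := by
  simp [Equiv.Perm.permMatrix, PEquiv.toMatrix_apply, Equiv.toPEquiv_apply]

theorem exists_good (G : Matrix (Fin n) (Fin n) ℝ) {A : Matrix (Fin n) (Fin n) ℝ}
    (hA : A ∈ doublyStochastic ℝ (Fin n)) : ∃ Ag W, Good G A Ag W := by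
  classical
  obtain ⟨w, hw0, hw1, hwA⟩ := exists_eq_sum_perm_of_mem_doublyStochastic hA
  set good : Finset (Equiv.Perm (Fin n)) := univ.filter (fun σ => ∀ i, 0 < G i (σ i)) with hgood
  set Ag : Matrix (Fin n) (Fin n) ℝ := ∑ σ ∈ good, w σ • σ.permMatrix ℝ with hAg
  have hsplit := Finset.sum_filter_add_sum_filter_not univ
    (fun σ : Equiv.Perm (Fin n) => ∀ i, 0 < G i (σ i)) w
  set W : ℝ := ∑ σ ∈ univ.filter (fun σ : Equiv.Perm (Fin n) => ¬ ∀ i, 0 < G i (σ i)), w σ with hW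
  have hgW : ∑ σ ∈ good, w σ = 1 - W := by
    rw [hgood]; linarith [hsplit, hw1]
  have hAapp : ∀ r c, A r c = ∑ σ, w σ * (if σ r = c then 1 else 0) := by
    intro r c
    rw [← hwA, Matrix.sum_apply]
    refine Finset.sum_congr rfl (fun σ _ => ?_)
    rw [Matrix.smul_apply, permMatrix_apply', smul_eq_mul]
  have hAgapp : ∀ r c, Ag r c = ∑ σ ∈ good, w σ * (if σ r = c then 1 else 0) := by
    intro r c
    rw [hAg, Matrix.sum_apply]
    refine Finset.sum_congr rfl (fun σ _ => ?_)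
    rw [Matrix.smul_apply, permMatrix_apply', smul_eq_mul]
  have htnn : ∀ (σ : Equiv.Perm (Fin n)) r c, 0 ≤ w σ * (if σ r = c then (1 : ℝ) else 0) := by
    intro σ r c
    refine mul_nonneg (hw0 σ) ?_
    split_ifs <;> norm_num
  refine ⟨Ag, W, ?_, ?_, ?_, ?_, ?_, ?_, ?_, ?_⟩
  · exact Finset.sum_nonneg (fun σ _ => hw0 σ)
  · unfold off
    have e1 : ∀ r c, (if 0 < G r c then 0 else A r c) =
        ∑ σ, w σ * (if ¬ 0 < G r c ∧ σ r = c then 1 else 0) := by
      intro r c
      split_ifs with h1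
      · symm
        refine Finset.sum_eq_zero (fun σ _ => ?_)
        rw [if_neg (fun h => h.1 h1), mul_zero]
      · rw [hAapp]
        refine Finset.sum_congr rfl (fun σ _ => ?_)
        by_cases h2 : σ r = c
        · rw [if_pos h2, if_pos ⟨h1, h2⟩]
        · rw [if_neg h2, if_neg (fun h => h2 h.2)]
    have e2 : ∑ r, ∑ c, (if 0 < G r c then 0 else A r c) =
        ∑ σ, w σ * ∑ r, ∑ c, (if ¬ 0 < G r c ∧ σ r = c then (1 : ℝ) else 0) := by
      rw [Finset.sum_congr rfl (fun r _ => Finset.sum_congr rfl (fun c _ => e1 r c))]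
      rw [Finset.sum_congr rfl (fun r _ => Finset.sum_comm), Finset.sum_comm]
      refine Finset.sum_congr rfl (fun σ _ => ?_)
      rw [Finset.mul_sum]
      refine Finset.sum_congr rfl (fun r _ => ?_)
      rw [Finset.mul_sum]
    rw [e2, hW]
    refine le_trans ?_ (Finset.sum_le_sum_of_subset_of_nonneg (Finset.subset_univ
      (univ.filter (fun σ : Equiv.Perm (Fin n) => ¬ ∀ i, 0 < G i (σ i)))) ?_)
    · refine Finset.sum_le_sum (fun σ hσ => ?_)
      have h1 := (Finset.mem_filter.1 hσ).2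
      push Not at h1
      obtain ⟨i, hi⟩ := h1
      have h2 : (1 : ℝ) ≤ ∑ r, ∑ c, (if ¬ 0 < G r c ∧ σ r = c then (1 : ℝ) else 0) := by
        calc (1 : ℝ) = (if ¬ 0 < G i (σ i) ∧ σ i = σ i then (1 : ℝ) else 0) := by
              rw [if_pos ⟨not_lt.2 hi, rfl⟩]
          _ ≤ ∑ c, (if ¬ 0 < G i c ∧ σ i = c then (1 : ℝ) else 0) :=
              Finset.single_le_sum (f := fun c => (if ¬ 0 < G i c ∧ σ i = c then (1 : ℝ) else 0))
                (fun c _ => by split_ifs <;> norm_num) (Finset.mem_univ (σ i))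
          _ ≤ ∑ r, ∑ c, (if ¬ 0 < G r c ∧ σ r = c then (1 : ℝ) else 0) :=
              Finset.single_le_sum (f := fun r => ∑ c,
                (if ¬ 0 < G r c ∧ σ r = c then (1 : ℝ) else 0)) (fun r _ => Finset.sum_nonneg
                (fun c _ => by split_ifs <;> norm_num)) (Finset.mem_univ i)
      calc w σ = w σ * 1 := (mul_one _).symm
        _ ≤ _ := mul_le_mul_of_nonneg_left h2 (hw0 σ)
    · intro σ _ _
      exact mul_nonneg (hw0 σ) (Finset.sum_nonneg (fun r _ => Finset.sum_nonneg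
        (fun c _ => by split_ifs <;> norm_num)))
  · intro r c
    rw [hAgapp]
    exact Finset.sum_nonneg (fun σ _ => htnn σ r c)
  · intro r c
    rw [hAgapp, hAapp]
    exact Finset.sum_le_sum_of_subset_of_nonneg (Finset.subset_univ _) (fun σ _ _ => htnn σ r c)
  · intro r
    rw [Finset.sum_congr rfl (fun c _ => hAgapp r c), Finset.sum_comm, ← hgW]
    refine Finset.sum_congr rfl (fun σ _ => ?_)
    rw [← Finset.mul_sum]
    simp
  · intro c
    rw [Finset.sum_congr rfl (fun r _ => hAgapp r c), Finset.sum_comm, ← hgW]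
    refine Finset.sum_congr rfl (fun σ _ => ?_)
    rw [← Finset.mul_sum]
    have : ∑ r, (if σ r = c then (1 : ℝ) else 0) = 1 := by
      rw [Finset.sum_eq_single (σ⁻¹ c)]
      · simp
      · intro r _ hr
        rw [if_neg]
        intro h
        exact hr (by rw [← h]; simp)
      · intro h; exact absurd (Finset.mem_univ _) h
    rw [this, mul_one]
  · intro r c hne
    rw [hAgapp] at hne
    obtain ⟨σ, hσ, hσ2⟩ := Finset.exists_ne_zero_of_sum_ne_zero hne
    have h1 := (Finset.mem_filter.1 hσ).2 r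
    by_cases h2 : σ r = c
    · rw [← h2]; exact h1
    · rw [if_neg h2, mul_zero] at hσ2
      exact absurd rfl hσ2
  · intro hW1
    have hpos : 0 < ∑ σ ∈ good, w σ := by rw [hgW]; linarith
    obtain ⟨σ, hσ, _⟩ := Finset.exists_ne_zero_of_sum_ne_zero hpos.ne'
    exact ⟨σ, (Finset.mem_filter.1 hσ).2⟩

theorem permanent_mono {A B : Matrix (Fin n) (Fin n) ℝ} (h0 : ∀ i j, 0 ≤ A i j)
    (hle : ∀ i j, A i j ≤ B i j) : A.permanent ≤ B.permanent := by
  unfold Matrix.permanent
  exact Finset.sum_le_sum (fun σ _ => Finset.prod_le_prod (fun i _ => h0 _ _)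
    (fun i _ => hle _ _))

namespace Setup

variable {A0 E : Matrix (Fin n) (Fin n) ℝ} (h : Setup A0 E)

include h

theorem E_apply (r c : Fin n) : E r c = if E r = E c then 1 / ((cls (fun i => E i) r).card : ℝ)
    else 0 := congrFun (congrFun (idem_eq_Emat h.hE h.hid) r) c

theorem E_mul_apply (X : Matrix (Fin n) (Fin n) ℝ) (r c : Fin n) :
    (E * X) r c = (∑ l ∈ cls (fun i => E i) r, X l c) / ((cls (fun i => E i) r).card : ℝ) := by
  have h1 := Emat_mul_apply (fun i => E i) X r c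
  rw [← idem_eq_Emat h.hE h.hid] at h1
  exact h1

/-- left multiplication by `E` on matrices supported in the block structure -/
theorem E_mul_supp (X : Matrix (Fin n) (Fin n) ℝ) (s : ℝ)
    (hcol : ∀ c, ∑ r, X r c = s) (hsupp : ∀ r c, X r c ≠ 0 → 0 < (E * A0 ^ 1) r c) (r c : Fin n) :
    (E * X) r c = if 0 < (E * A0 ^ 1) r c then s / ((cls (fun i => E i) r).card : ℝ) else 0 := by
  rw [h.E_mul_apply]
  split_ifs with h1
  · congr 1
    rw [← hcol c]
    refine Finset.sum_subset (Finset.subset_univ _) (fun l _ hl => ?_)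
    by_contra hne
    have h2 := hsupp l c hne
    exact hl (mem_cls.2 (h.G_left 1 l r c h2 h1))
  · have : ∑ l ∈ cls (fun i => E i) r, X l c = 0 := by
      refine Finset.sum_eq_zero (fun l hl => ?_)
      by_contra hne
      have h2 := hsupp l c hne
      have h3 : E l = E r := mem_cls.1 hl
      rw [G_rowconst (A0 ^ 1) l r c h3] at h2
      exact h1 h2
    rw [this, zero_div]

theorem mul_E_supp (X : Matrix (Fin n) (Fin n) ℝ) (s : ℝ)
    (hrow : ∀ r, ∑ c, X r c = s) (hsupp : ∀ r c, X r c ≠ 0 → 0 < (E * A0 ^ 1) r c) (r c : Fin n) :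
    (X * E) r c = if 0 < (E * A0 ^ 1) r c then s / ((cls (fun i => E i) c).card : ℝ) else 0 := by
  have e1 : (X * E) r c = (∑ l ∈ cls (fun i => E i) c, X r l) /
      ((cls (fun i => E i) c).card : ℝ) := by
    have h1 := h.E_mul_apply Xᵀ c r
    have h2 : (E * Xᵀ) c r = (X * E) r c := by
      rw [Matrix.mul_apply, Matrix.mul_apply]
      refine Finset.sum_congr rfl (fun l _ => ?_)
      rw [Matrix.transpose_apply, h.E_symm c l, mul_comm]
    rw [h2] at h1
    exact h1
  rw [e1]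
  split_ifs with h1
  · congr 1
    rw [← hrow r]
    refine Finset.sum_subset (Finset.subset_univ _) (fun l _ hl => ?_)
    by_contra hne
    have h2 := hsupp r l hne
    exact hl (mem_cls.2 (h.G_right 1 r l c h2 h1))
  · have : ∑ l ∈ cls (fun i => E i) c, X r l = 0 := by
      refine Finset.sum_eq_zero (fun l hl => ?_)
      by_contra hne
      have h2 := hsupp r l hne
      have h3 : E l = E c := mem_cls.1 hl
      have h4 := h.G_colconst (A0 ^ 1) r l c h3
      rw [← h.comm_pow] at h4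
      rw [h4] at h2
      exact h1 h2
    rw [this, zero_div]

theorem supp1 (r c : Fin n) (hne : A0 r c ≠ 0) : 0 < (E * A0 ^ 1) r c := by
  refine h.G_supp 1 r c ?_
  rw [pow_one]
  exact lt_of_le_of_ne (nonneg_of_mem_doublyStochastic h.hA) (Ne.symm hne)

/-- class sizes agree along the block structure -/
theorem card_eq (r c : Fin n) (hG : 0 < (E * A0 ^ 1) r c) :
    (1 : ℝ) / ((cls (fun i => E i) r).card : ℝ) = 1 / ((cls (fun i => E i) c).card : ℝ) := by
  have h1 := h.E_mul_supp A0 1 (sum_col_of_mem_doublyStochastic h.hA) h.supp1 r c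
  have h2 := h.mul_E_supp A0 1 (sum_row_of_mem_doublyStochastic h.hA) h.supp1 r c
  rw [if_pos hG] at h1 h2
  rw [← h1, ← h2, h.hcomm]

theorem good_comm {A Ag : Matrix (Fin n) (Fin n) ℝ} {W : ℝ} (hg : Good (E * A0 ^ 1) A Ag W) :
    E * Ag = Ag * E := by
  ext r c
  rw [h.E_mul_supp Ag (1 - W) hg.col hg.supp, h.mul_E_supp Ag (1 - W) hg.row hg.supp]
  split_ifs with h1
  · have := h.card_eq r c h1
    rw [div_eq_mul_one_div, this, ← div_eq_mul_one_div]
  · rfl

/-- the lower bound for the permanent of the good part -/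
theorem lower {A Ag : Matrix (Fin n) (Fin n) ℝ} {W : ℝ} (hg : Good (E * A0 ^ 1) A Ag W)
    (hW : W < 1) (c : Fin n) :
    0 < E.permanent ∧ (1 - W) ^ n * (E.permanent * (1 + (∑ i, ((Ag - E * Ag) i c) ^ 2) / 2)) ≤
      Ag.permanent := by
  obtain ⟨τ, hτ⟩ := hg.perm hW
  set s : ℝ := 1 - W with hs
  have hspos : 0 < s := by rw [hs]; linarith
  have hs1 : s ≤ 1 := by rw [hs]; linarith [hg.W0]
  set A' : Matrix (Fin n) (Fin n) ℝ := s⁻¹ • Ag with hA'
  set M : Matrix (Fin n) (Fin n) ℝ := A'.submatrix id τ with hM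
  have hMapp : ∀ i j, M i j = s⁻¹ * Ag i (τ j) := fun i j => rfl
  have hblk : ∀ i j, M i j ≠ 0 → (fun i => E i) i = (fun i => E i) j := by
    intro i j hne
    rw [hMapp] at hne
    have h1 : Ag i (τ j) ≠ 0 := fun h0 => hne (by rw [h0, mul_zero])
    exact h.G_left 1 i j (τ j) (hg.supp _ _ h1) (hτ j)
  have h1 := block_vdw (fun i => E i) M
    (fun i j => by rw [hMapp]; exact mul_nonneg (inv_nonneg.2 hspos.le) (hg.nn _ _))
    (fun i => by
      have : ∑ j, M i j = s⁻¹ * ∑ j, Ag i j := by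
        rw [Finset.mul_sum, ← Equiv.sum_comp τ (fun j => s⁻¹ * Ag i j)]
        exact Finset.sum_congr rfl (fun j _ => hMapp i j)
      rw [this, hg.row, ← hs, inv_mul_cancel₀ hspos.ne'])
    (fun j => by
      have : ∑ i, M i j = s⁻¹ * ∑ i, Ag i (τ j) := by
        rw [Finset.mul_sum]
        exact Finset.sum_congr rfl (fun i _ => hMapp i j)
      rw [this, hg.col, ← hs, inv_mul_cancel₀ hspos.ne'])
    hblk (τ⁻¹ c)
  rw [← idem_eq_Emat h.hE h.hid] at h1
  refine ⟨h1.1, ?_⟩
  have hper : M.permanent = s⁻¹ ^ n * Ag.permanent := by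
    rw [hM, Matrix.permanent_permute_rows, hA', Matrix.permanent_smul, Fintype.card_fin]
  have hdiff : ∀ i, M i (τ⁻¹ c) - E i (τ⁻¹ c) = s⁻¹ * (Ag - E * Ag) i c := by
    intro i
    rw [hMapp, Matrix.sub_apply, h.E_mul_supp Ag s hg.col hg.supp, h.E_apply i (τ⁻¹ c)]
    have e1 : τ (τ⁻¹ c) = c := by simp
    rw [e1]
    have hτc : 0 < (E * A0 ^ 1) (τ⁻¹ c) c := by
      have := hτ (τ⁻¹ c)
      rw [e1] at this
      exact this
    by_cases h2 : E i = E (τ⁻¹ c)
    · have h3 : 0 < (E * A0 ^ 1) i c := by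
        rw [G_rowconst (A0 ^ 1) i (τ⁻¹ c) c h2]; exact hτc
      rw [if_pos h2, if_pos h3, mul_sub]
      congr 1
      field_simp
    · have h3 : ¬ 0 < (E * A0 ^ 1) i c := fun h4 => h2 (h.G_left 1 i (τ⁻¹ c) c h4 hτc)
      rw [if_neg h2, if_neg h3]
      ring
  have hsq : ∑ i, ((Ag - E * Ag) i c) ^ 2 ≤ ∑ i, (M i (τ⁻¹ c) - E i (τ⁻¹ c)) ^ 2 := by
    refine Finset.sum_le_sum (fun i _ => ?_)
    rw [hdiff, mul_pow]
    have : 1 ≤ s⁻¹ := (one_le_inv₀ hspos).2 hs1
    have h3 : 1 ≤ s⁻¹ ^ 2 := by nlinarith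
    nlinarith [sq_nonneg ((Ag - E * Ag) i c)]
  have h4 : E.permanent * (1 + (∑ i, ((Ag - E * Ag) i c) ^ 2) / 2) ≤ M.permanent := by
    refine le_trans ?_ h1.2
    refine mul_le_mul_of_nonneg_left ?_ h1.1.le
    linarith
  rw [hper] at h4
  have h5 : s ^ n * (s⁻¹ ^ n * Ag.permanent) = Ag.permanent := by
    rw [← mul_assoc, ← mul_pow, mul_inv_cancel₀ hspos.ne', one_pow, one_mul]
  rw [← h5]
  exact mul_le_mul_of_nonneg_left h4 (pow_pos hspos n).le

end Setup

end Pool.Agent.Lib.MP_2b959d_co
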