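import Mathlib
import Pool.Agent.Lib.MP_2b959d_co.LocalA

/-!
Norm estimates and the upper bound near a base point.
-/

set_option autoImplicit false

namespace Pool.Agent.Lib.MP_2b959d_co

open Finset Matrix

variable {n : ℕ}

/-- entrywise l1 norm -/
def nrm (X : Matrix (Fin n) (Fin n) ℝ) : ℝ := ∑ i, ∑ j, |X i j|

theorem nrm_nonneg (X : Matrix (Fin n) (Fin n) ℝ) : 0 ≤ nrm X :=
  Finset.sum_nonneg (fun _ _ => Finset.sum_nonneg (fun _ _ => abs_nonneg _))

theorem nrm_add (X Y : Matrix (Fin n) (Fin n) ℝ) : nrm (X + Y) ≤ nrm X + nrm Y := by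
  unfold nrm
  rw [← Finset.sum_add_distrib]
  refine Finset.sum_le_sum (fun i _ => ?_)
  rw [← Finset.sum_add_distrib]
  exact Finset.sum_le_sum (fun j _ => abs_add_le _ _)

theorem nrm_sub (X Y : Matrix (Fin n) (Fin n) ℝ) : nrm (X - Y) ≤ nrm X + nrm Y := by
  unfold nrm
  rw [← Finset.sum_add_distrib]
  refine Finset.sum_le_sum (fun i _ => ?_)
  rw [← Finset.sum_add_distrib]
  exact Finset.sum_le_sum (fun j _ => abs_sub _ _)

theorem nrm_mul (X Y : Matrix (Fin n) (Fin n) ℝ) : nrm (X * Y) ≤ nrm X * nrm Y := by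
  unfold nrm
  have h1 : ∀ i j, |(X * Y) i j| ≤ ∑ l, |X i l| * |Y l j| := by
    intro i j
    rw [Matrix.mul_apply]
    refine (Finset.abs_sum_le_sum_abs _ _).trans ?_
    exact Finset.sum_le_sum (fun l _ => (abs_mul _ _).le)
  calc ∑ i, ∑ j, |(X * Y) i j| ≤ ∑ i, ∑ j, ∑ l, |X i l| * |Y l j| :=
        Finset.sum_le_sum (fun i _ => Finset.sum_le_sum (fun j _ => h1 i j))
    _ = ∑ i, ∑ l, |X i l| * ∑ j, |Y l j| := by
        refine Finset.sum_congr rfl (fun i _ => ?_)
        rw [Finset.sum_comm]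
        exact Finset.sum_congr rfl (fun l _ => by rw [Finset.mul_sum])
    _ ≤ ∑ i, ∑ l, |X i l| * ∑ l', ∑ j, |Y l' j| := by
        refine Finset.sum_le_sum (fun i _ => Finset.sum_le_sum (fun l _ => ?_))
        refine mul_le_mul_of_nonneg_left ?_ (abs_nonneg _)
        exact Finset.single_le_sum (f := fun l' => ∑ j, |Y l' j|)
          (fun l' _ => Finset.sum_nonneg (fun _ _ => abs_nonneg _)) (Finset.mem_univ l)
    _ = (∑ i, ∑ l, |X i l|) * ∑ l', ∑ j, |Y l' j| := by
        rw [Finset.sum_mul]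
        exact Finset.sum_congr rfl (fun i _ => by rw [Finset.sum_mul])

/-- right multiplication by a row-substochastic matrix is a contraction -/
theorem nrm_mul_right (X S : Matrix (Fin n) (Fin n) ℝ) (h0 : ∀ i j, 0 ≤ S i j)
    (h1 : ∀ i, ∑ j, S i j ≤ 1) : nrm (X * S) ≤ nrm X := by
  unfold nrm
  refine Finset.sum_le_sum (fun i _ => ?_)
  calc ∑ j, |(X * S) i j| ≤ ∑ j, ∑ l, |X i l| * S l j := by
        refine Finset.sum_le_sum (fun j _ => ?_)
        rw [Matrix.mul_apply]
        refine (Finset.abs_sum_le_sum_abs _ _).trans ?_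
        refine Finset.sum_le_sum (fun l _ => ?_)
        rw [abs_mul, abs_of_nonneg (h0 l j)]
    _ = ∑ l, |X i l| * ∑ j, S l j := by
        rw [Finset.sum_comm]
        exact Finset.sum_congr rfl (fun l _ => by rw [Finset.mul_sum])
    _ ≤ ∑ l, |X i l| * 1 :=
        Finset.sum_le_sum (fun l _ => mul_le_mul_of_nonneg_left (h1 l) (abs_nonneg _))
    _ = ∑ l, |X i l| := by simp

theorem nrm_mul_left (X S : Matrix (Fin n) (Fin n) ℝ) (h0 : ∀ i j, 0 ≤ S i j)
    (h1 : ∀ j, ∑ i, S i j ≤ 1) : nrm (S * X) ≤ nrm X := by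
  unfold nrm
  calc ∑ i, ∑ j, |(S * X) i j| ≤ ∑ i, ∑ j, ∑ l, S i l * |X l j| := by
        refine Finset.sum_le_sum (fun i _ => Finset.sum_le_sum (fun j _ => ?_))
        rw [Matrix.mul_apply]
        refine (Finset.abs_sum_le_sum_abs _ _).trans ?_
        refine Finset.sum_le_sum (fun l _ => ?_)
        rw [abs_mul, abs_of_nonneg (h0 i l)]
    _ = ∑ l, ∑ j, (∑ i, S i l) * |X l j| := by
        rw [Finset.sum_congr rfl (fun i _ => Finset.sum_comm), Finset.sum_comm]
        refine Finset.sum_congr rfl (fun l _ => ?_)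
        rw [Finset.sum_comm]
        exact Finset.sum_congr rfl (fun j _ => by rw [Finset.sum_mul])
    _ ≤ ∑ l, ∑ j, 1 * |X l j| :=
        Finset.sum_le_sum (fun l _ => Finset.sum_le_sum (fun j _ =>
          mul_le_mul_of_nonneg_right (h1 l) (abs_nonneg _)))
    _ = ∑ l, ∑ j, |X l j| := by simp

theorem nrm_mul_right_DS (X : Matrix (Fin n) (Fin n) ℝ) {S : Matrix (Fin n) (Fin n) ℝ}
    (hS : S ∈ doublyStochastic ℝ (Fin n)) : nrm (X * S) ≤ nrm X :=
  nrm_mul_right X S (fun _ _ => nonneg_of_mem_doublyStochastic hS)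
    (fun i => (sum_row_of_mem_doublyStochastic hS i).le)

theorem nrm_mul_left_DS (X : Matrix (Fin n) (Fin n) ℝ) {S : Matrix (Fin n) (Fin n) ℝ}
    (hS : S ∈ doublyStochastic ℝ (Fin n)) : nrm (S * X) ≤ nrm X :=
  nrm_mul_left X S (fun _ _ => nonneg_of_mem_doublyStochastic hS)
    (fun j => (sum_col_of_mem_doublyStochastic hS j).le)

theorem abs_le_nrm (X : Matrix (Fin n) (Fin n) ℝ) (i j : Fin n) : |X i j| ≤ nrm X := by
  unfold nrm
  refine le_trans ?_ (Finset.single_le_sum (f := fun i => ∑ j, |X i j|)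
    (fun i _ => Finset.sum_nonneg (fun _ _ => abs_nonneg _)) (Finset.mem_univ i))
  exact Finset.single_le_sum (f := fun j => |X i j|) (fun j _ => abs_nonneg _) (Finset.mem_univ j)

theorem continuous_nrm : Continuous (fun X : Matrix (Fin n) (Fin n) ℝ => nrm X) := by
  unfold nrm
  fun_prop

/-- some column carries a large share of the squared entries -/
theorem exists_col [NeZero n] (Y : Matrix (Fin n) (Fin n) ℝ) :
    ∃ c, nrm Y ^ 2 ≤ (n : ℝ) ^ 3 * ∑ i, (Y i c) ^ 2 := by
  have hn : (0 : ℝ) < n := by exact_mod_cast Nat.pos_of_ne_zero (NeZero.ne n)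
  obtain ⟨c, _, hc⟩ := Finset.exists_max_image (univ : Finset (Fin n)) (fun c => ∑ i, (Y i c) ^ 2)
    Finset.univ_nonempty
  refine ⟨c, ?_⟩
  have h1 : nrm Y = ∑ p : Fin n × Fin n, |Y p.1 p.2| := by
    rw [Fintype.sum_prod_type]; rfl
  have h2 := sq_sum_le_card_mul_sum_sq (s := (univ : Finset (Fin n × Fin n)))
    (f := fun p => |Y p.1 p.2|)
  rw [← h1] at h2
  have h3 : ((univ : Finset (Fin n × Fin n)).card : ℝ) = (n : ℝ) ^ 2 := by
    rw [Finset.card_univ, Fintype.card_prod, Fintype.card_fin]; push_cast; ring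
  have h4 : ∑ p : Fin n × Fin n, |Y p.1 p.2| ^ 2 = ∑ j, ∑ i, (Y i j) ^ 2 := by
    rw [Fintype.sum_prod_type, Finset.sum_comm]
    exact Finset.sum_congr rfl (fun j _ => Finset.sum_congr rfl (fun i _ => sq_abs _))
  have h5 : ∑ j, ∑ i, (Y i j) ^ 2 ≤ (n : ℝ) * ∑ i, (Y i c) ^ 2 := by
    calc ∑ j, ∑ i, (Y i j) ^ 2 ≤ ∑ _j : Fin n, ∑ i, (Y i c) ^ 2 :=
          Finset.sum_le_sum (fun j _ => hc j (Finset.mem_univ j))
      _ = _ := by rw [Finset.sum_const, Finset.card_univ, Fintype.card_fin, nsmul_eq_mul]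
  rw [h3, h4] at h2
  calc nrm Y ^ 2 ≤ (n : ℝ) ^ 2 * ∑ j, ∑ i, (Y i j) ^ 2 := h2
    _ ≤ (n : ℝ) ^ 2 * ((n : ℝ) * ∑ i, (Y i c) ^ 2) := mul_le_mul_of_nonneg_left h5 (by positivity)
    _ = _ := by ring

open Classical in
/-- off mass with respect to the classes -/
noncomputable def offE (E X : Matrix (Fin n) (Fin n) ℝ) : ℝ :=
  ∑ r, ∑ c, if E r = E c then 0 else X r c

namespace Setup

variable {A0 E : Matrix (Fin n) (Fin n) ℝ} (h : Setup A0 E)

include h

/-- the upper bound -/
theorem upper {T S : Matrix (Fin n) (Fin n) ℝ} (hT : T ∈ doublyStochastic ℝ (Fin n))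
    (hS : S ∈ doublyStochastic ℝ (Fin n)) (hoff : offE E T ≤ 1 / 2) (ζ : ℝ)
    (hζ : nrm ((1 - E) * T) ≤ ζ) :
    (n : ℝ) * (T * S).permanent ≤ E.permanent * ((n : ℝ) - offE E T) +
      (n : ℝ) * ((n.factorial : ℝ) * 2 ^ n * ζ ^ 2) := by
  classical
  have hE := h.hE
  have hX : T * S ∈ doublyStochastic ℝ (Fin n) := mul_mem hT hS
  have hEX : E * (T * S) ∈ doublyStochastic ℝ (Fin n) := mul_mem hE hX
  have h0 : ∀ i j, 0 ≤ (T * S) i j := fun i j => nonneg_of_mem_doublyStochastic hX
  have h1 : ∀ i j, (T * S) i j ≤ 1 := fun i j => le_one_of_mem_doublyStochastic hX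
  have h0' : ∀ i j, 0 ≤ (E * (T * S)) i j := fun i j => nonneg_of_mem_doublyStochastic hEX
  have h1' : ∀ i j, (E * (T * S)) i j ≤ 1 := fun i j => le_one_of_mem_doublyStochastic hEX
  -- the perturbation step
  have hper := per_perturb (fun i => E i) (E * (T * S)) ((1 - E) * (T * S)) ζ
    (fun i j => by rw [abs_of_nonneg (h0' i j)]; exact h1' i j)
    (fun r r' c he => G_rowconst (T * S) r r' c he)
    (fun i j => by
      rw [Matrix.sub_mul, Matrix.one_mul, Matrix.sub_apply, abs_le]
      constructor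
      · linarith [h0 i j, h1' i j]
      · linarith [h1 i j, h0' i j])
    (fun i j => by
      refine (abs_le_nrm _ i j).trans (le_trans ?_ hζ)
      rw [← mul_assoc]
      exact nrm_mul_right_DS _ hS)
    (fun r c => by
      have e1 : ∀ l ∈ cls (fun i => E i) r, ((1 - E) * (T * S)) l c =
          (T * S) l c - (E * (T * S)) r c := by
        intro l hl
        rw [Matrix.sub_mul, Matrix.one_mul, Matrix.sub_apply,
          G_rowconst (T * S) l r c (mem_cls.1 hl)]
      rw [Finset.sum_congr rfl e1, Finset.sum_sub_distrib, Finset.sum_const, nsmul_eq_mul,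
        h.E_mul_apply (T * S) r c]
      have := cls_pos (fun i => E i) r
      have h2 : ((cls (fun i => E i) r).card : ℝ) ≠ 0 := by
        have h3 : (0 : ℝ) < ((cls (fun i => E i) r).card : ℝ) := by exact_mod_cast this
        exact h3.ne'
      field_simp
      ring)
  have hdec : E * (T * S) + (1 - E) * (T * S) = T * S := by
    rw [← Matrix.add_mul, add_sub_cancel, Matrix.one_mul]
  rw [hdec] at hper
  -- the main step
  set α : Fin n → ℝ := fun x => ∑ l, if E l = E x then 0 else T l x with hα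
  have hαsum : ∑ x, α x = offE E T := by
    unfold offE
    rw [Finset.sum_comm]
  have hTnn : ∀ i j, 0 ≤ T i j := fun i j => nonneg_of_mem_doublyStochastic hT
  have hSnn : ∀ i j, 0 ≤ S i j := fun i j => nonneg_of_mem_doublyStochastic hS
  have hαnn : ∀ x, 0 ≤ α x := fun x => Finset.sum_nonneg (fun l _ => by
    split_ifs
    · exact le_rfl
    · exact hTnn l x)
  have hαle : ∀ x, α x ≤ 1 / 2 := by
    intro x
    refine le_trans ?_ hoff
    rw [← hαsum]
    exact Finset.single_le_sum (fun y _ => hαnn y) (Finset.mem_univ x)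
  have hgood : ∀ x, ∑ l, (if E l = E x then T l x else 0) = 1 - α x := by
    intro x
    rw [hα, ← sum_col_of_mem_doublyStochastic hT x]
    simp only
    rw [← Finset.sum_sub_distrib]
    refine Finset.sum_congr rfl (fun l _ => ?_)
    split_ifs <;> ring
  have hcls : ∀ r x, ∑ l ∈ cls (fun i => E i) r, T l x ≤ 1 - α x := by
    intro r x
    by_cases hrx : E r = E x
    · rw [← hgood x]
      refine le_of_eq ?_
      symm
      rw [← Finset.sum_subset (Finset.subset_univ (cls (fun i => E i) r))]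
      · refine Finset.sum_congr rfl (fun l hl => ?_)
        have h3 : E l = E r := mem_cls.1 hl
        rw [if_pos (h3.trans hrx)]
      · intro l _ hl
        rw [if_neg]
        intro h3
        exact hl (mem_cls.2 (h3.trans hrx.symm))
    · have h2 : ∑ l ∈ cls (fun i => E i) r, T l x ≤ α x := by
        rw [hα]
        simp only
        have e1 : ∑ l ∈ cls (fun i => E i) r, T l x =
            ∑ l ∈ cls (fun i => E i) r, (if E l = E x then 0 else T l x) := by
          refine Finset.sum_congr rfl (fun l hl => ?_)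
          have h3 : E l = E r := mem_cls.1 hl
          rw [if_neg]
          intro h4
          exact hrx (h3.symm.trans h4)
        rw [e1]
        refine Finset.sum_le_sum_of_subset_of_nonneg (Finset.subset_univ _) (fun l _ _ => ?_)
        split_ifs
        · exact le_rfl
        · exact hTnn l x
      have h5 := hαle x
      linarith
  have hμ : ∀ c0, (E * (T * S)).permanent ≤ E.permanent * ∑ x, S x c0 * (1 - α x) := by
    intro c0
    have h2 := per_EX_le (fun i => E i) (T * S) h0 (sum_col_of_mem_doublyStochastic hX) c0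
      (∑ x, S x c0 * (1 - α x)) (by
        intro r
        have e1 : ∑ l ∈ cls (fun i => E i) r, (T * S) l c0 =
            ∑ x, S x c0 * ∑ l ∈ cls (fun i => E i) r, T l x := by
          rw [Finset.sum_congr rfl (fun l _ => Matrix.mul_apply), Finset.sum_comm]
          refine Finset.sum_congr rfl (fun x _ => ?_)
          rw [Finset.mul_sum]
          exact Finset.sum_congr rfl (fun l _ => mul_comm _ _)
        rw [e1]
        exact Finset.sum_le_sum (fun x _ => mul_le_mul_of_nonneg_left (hcls r x) (hSnn x c0)))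
    rw [← idem_eq_Emat h.hE h.hid] at h2
    exact h2
  have hsum := Finset.sum_le_sum (fun c0 (_ : c0 ∈ (univ : Finset (Fin n))) => hμ c0)
  rw [Finset.sum_const, Finset.card_univ, Fintype.card_fin, nsmul_eq_mul, ← Finset.mul_sum] at hsum
  have e2 : ∑ c0, ∑ x, S x c0 * (1 - α x) = (n : ℝ) - offE E T := by
    rw [Finset.sum_comm, ← hαsum]
    have e3 : ∀ x, ∑ c0, S x c0 * (1 - α x) = 1 - α x := by
      intro x
      rw [← Finset.sum_mul, sum_row_of_mem_doublyStochastic hS x, one_mul]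
    rw [Finset.sum_congr rfl (fun x _ => e3 x), Finset.sum_sub_distrib]
    simp
  rw [e2] at hsum
  have hnn : (0 : ℝ) ≤ n := Nat.cast_nonneg n
  calc (n : ℝ) * (T * S).permanent ≤ (n : ℝ) * ((E * (T * S)).permanent +
        (n.factorial : ℝ) * 2 ^ n * ζ ^ 2) := mul_le_mul_of_nonneg_left hper hnn
    _ = (n : ℝ) * (E * (T * S)).permanent + (n : ℝ) * ((n.factorial : ℝ) * 2 ^ n * ζ ^ 2) := by ring
    _ ≤ _ := by linarith

end Setup

end Pool.Agent.Lib.MP_2b959d_co
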