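import Mathlib
import Pool.Agent.Lib.MP_2b959d_co.LocalB

/-!
The local inequality at each doubly stochastic matrix and the compactness argument.
-/

set_option autoImplicit false

namespace Pool.Agent.Lib.MP_2b959d_co

open Finset Matrix Filter Topology

variable {n : ℕ}

theorem pow_diff {A Ag : Matrix (Fin n) (Fin n) ℝ} (hA : A ∈ doublyStochastic ℝ (Fin n))
    (h0 : ∀ r c, 0 ≤ Ag r c) (h1 : ∀ r, ∑ c, Ag r c ≤ 1) :
    ∀ i : ℕ, nrm (A ^ i - Ag ^ i) ≤ i * nrm (A - Ag) := by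
  intro i
  induction i with
  | zero => simp [nrm]
  | succ i ih =>
    have e1 : A ^ (i + 1) - Ag ^ (i + 1) = A ^ i * (A - Ag) + (A ^ i - Ag ^ i) * Ag := by
      rw [pow_succ, pow_succ]; noncomm_ring
    rw [e1]
    refine (nrm_add _ _).trans ?_
    have e2 := nrm_mul_left_DS (A - Ag) (pow_mem hA i)
    have e3 := nrm_mul_right (A ^ i - Ag ^ i) Ag h0 h1
    push_cast
    linarith

theorem nrm_P {E : Matrix (Fin n) (Fin n) ℝ} (hE : E ∈ doublyStochastic ℝ (Fin n))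
    (X : Matrix (Fin n) (Fin n) ℝ) : nrm ((1 - E) * X) ≤ 2 * nrm X := by
  rw [Matrix.sub_mul, Matrix.one_mul]
  have h1 := nrm_sub X (E * X)
  have h2 := nrm_mul_left_DS X hE
  linarith

theorem E_perm_pos {A0 E : Matrix (Fin n) (Fin n) ℝ} (h : Setup A0 E) [NeZero n] :
    0 < E.permanent := by
  have h1 := block_vdw (fun i => E i) E (fun i j => nonneg_of_mem_doublyStochastic h.hE)
    (sum_row_of_mem_doublyStochastic h.hE) (sum_col_of_mem_doublyStochastic h.hE)
    (fun i j hne => (h.E_pos_iff i j).1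
      (lt_of_le_of_ne (nonneg_of_mem_doublyStochastic h.hE) (Ne.symm hne))) 0
  rw [← idem_eq_Emat h.hE h.hid] at h1
  exact h1.1

/-- The final numerical comparison. -/
theorem numeric (N p C θ η ε W j Pk PA : ℝ) (hN : 1 ≤ N) (hp : 0 < p) (hC : 0 < C)
    (hθ0 : 0 < θ) (hθ1 : θ ≤ 1) (hθ2 : θ ≤ p / (4 * C * N ^ 3))
    (hη0 : 0 ≤ η) (hη : η ≤ 2 * N) (hε0 : 0 ≤ ε) (hW0 : 0 ≤ W) (hWε : W ≤ ε)
    (hj : 2 * N * (N + 3) ≤ j) (hε2 : ε ≤ p / (8 * C * j ^ 2 * N ^ 2))
    (hup : N * Pk ≤ p * (N - j / 2 * ε) + N * (C * (θ * η + 2 * j * N * ε) ^ 2))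
    (hlow : (1 - N * W) * (p * (1 + η ^ 2 / (2 * N ^ 3))) ≤ PA) : Pk ≤ PA := by
  have hNpos : 0 < N := by linarith
  have hjpos : 0 < j := by nlinarith
  -- square estimate
  have h1 : (θ * η + 2 * j * N * ε) ^ 2 ≤ 2 * (θ * η) ^ 2 + 2 * (2 * j * N * ε) ^ 2 := by
    nlinarith [sq_nonneg (θ * η - 2 * j * N * ε)]
  have hC1 : 2 * C * θ ^ 2 ≤ p / (2 * N ^ 3) := by
    have e1 : θ ^ 2 ≤ θ := by nlinarith
    have e2 : θ ^ 2 ≤ p / (4 * C * N ^ 3) := e1.trans hθ2
    calc 2 * C * θ ^ 2 ≤ 2 * C * (p / (4 * C * N ^ 3)) :=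
          mul_le_mul_of_nonneg_left e2 (by positivity)
      _ = p / (2 * N ^ 3) := by field_simp; ring
  have hC2 : 8 * C * j ^ 2 * N ^ 2 * ε ≤ p := by
    have : 0 < 8 * C * j ^ 2 * N ^ 2 := by positivity
    rw [le_div_iff₀ this] at hε2
    linarith
  have h2 : C * (θ * η + 2 * j * N * ε) ^ 2 ≤ p / (2 * N ^ 3) * η ^ 2 + p * ε := by
    calc C * (θ * η + 2 * j * N * ε) ^ 2 ≤ C * (2 * (θ * η) ^ 2 + 2 * (2 * j * N * ε) ^ 2) :=
          mul_le_mul_of_nonneg_left h1 hC.le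
      _ = (2 * C * θ ^ 2) * η ^ 2 + (8 * C * j ^ 2 * N ^ 2 * ε) * ε := by ring
      _ ≤ p / (2 * N ^ 3) * η ^ 2 + p * ε := by
          have e1 := mul_le_mul_of_nonneg_right hC1 (sq_nonneg η)
          have e2 := mul_le_mul_of_nonneg_right hC2 hε0
          linarith
  -- upper bound
  have h3 : Pk ≤ p - p * (N + 3) * ε + (p / (2 * N ^ 3) * η ^ 2 + p * ε) := by
    have e1 : N * Pk ≤ N * (p - p * (N + 3) * ε + (p / (2 * N ^ 3) * η ^ 2 + p * ε)) := by
      have e2 : p * (N - j / 2 * ε) ≤ N * (p - p * (N + 3) * ε) := by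
        have e3 : N * (N + 3) * ε ≤ j / 2 * ε := by
          apply mul_le_mul_of_nonneg_right _ hε0
          linarith
        have e4 := mul_le_mul_of_nonneg_left e3 hp.le
        linarith
      have e5 := mul_le_mul_of_nonneg_left h2 hNpos.le
      linarith
    exact le_of_mul_le_mul_left e1 hNpos
  -- lower bound
  have h4 : η ^ 2 / (2 * N ^ 3) ≤ 2 / N := by
    rw [div_le_div_iff₀ (by positivity) hNpos]
    have : η ^ 2 ≤ (2 * N) ^ 2 := by
      apply pow_le_pow_left₀ hη0 hη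
    nlinarith
  have h5 : N * W * (p * (1 + η ^ 2 / (2 * N ^ 3))) ≤ p * (N + 2) * ε := by
    have e1 : p * (1 + η ^ 2 / (2 * N ^ 3)) ≤ p * (1 + 2 / N) :=
      mul_le_mul_of_nonneg_left (by linarith) hp.le
    have e2 : N * W * (p * (1 + η ^ 2 / (2 * N ^ 3))) ≤ N * W * (p * (1 + 2 / N)) :=
      mul_le_mul_of_nonneg_left e1 (by positivity)
    have e3 : N * W * (p * (1 + 2 / N)) = p * (N + 2) * W := by field_simp
    have e4 : p * (N + 2) * W ≤ p * (N + 2) * ε := mul_le_mul_of_nonneg_left hWε (by positivity)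
    linarith
  have h6 : (1 - N * W) * (p * (1 + η ^ 2 / (2 * N ^ 3))) =
      p + p / (2 * N ^ 3) * η ^ 2 - N * W * (p * (1 + η ^ 2 / (2 * N ^ 3))) := by ring
  have h7 : 0 ≤ p * ε := by positivity
  nlinarith

theorem local_bound [NeZero n] {A0 : Matrix (Fin n) (Fin n) ℝ}
    (hA0 : A0 ∈ doublyStochastic ℝ (Fin n)) :
    ∃ K : ℕ, ∀ᶠ A in 𝓝 A0, A ∈ doublyStochastic ℝ (Fin n) →
      ∀ k : ℕ, K ≤ k → (A ^ k).permanent ≤ A.permanent := by
  obtain ⟨E, hE, hid, hcomm, hnear, hF⟩ := exists_idem hA0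
  have h : Setup A0 E := ⟨hA0, hE, hid, hcomm, hF⟩
  set p : ℝ := E.permanent with hp
  have hppos : 0 < p := E_perm_pos h
  set N : ℝ := (n : ℝ) with hN
  have hN1 : 1 ≤ N := by
    rw [hN]; exact_mod_cast Nat.one_le_iff_ne_zero.2 (NeZero.ne n)
  set C : ℝ := (n.factorial : ℝ) * 2 ^ n with hC
  have hCpos : 0 < C := by rw [hC]; positivity
  set θ : ℝ := min 1 (p / (4 * C * N ^ 3)) with hθ
  have hθpos : 0 < θ := by
    rw [hθ]; exact lt_min one_pos (by positivity)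
  have hθ1 : θ ≤ 1 := min_le_left _ _
  have hθ2 : θ ≤ p / (4 * C * N ^ 3) := min_le_right _ _
  -- choose i0
  have hPE : (1 - E) * E = 0 := by rw [Matrix.sub_mul, Matrix.one_mul, hid, sub_self]
  obtain ⟨i0, _, hi0⟩ := hnear {X | nrm ((1 - E) * X) < θ / 2} 0
    (isOpen_lt (continuous_nrm.comp (continuous_const_mul (1 - E))) continuous_const)
    (by
      show nrm ((1 - E) * E) < θ / 2
      rw [hPE]
      have : nrm (0 : Matrix (Fin n) (Fin n) ℝ) = 0 := by simp [nrm]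
      rw [this]; positivity)
  -- choose j
  obtain ⟨j, hjm, hj⟩ := hnear {X | ∀ r, 0 < X r r} (i0 + 1 + 2 * n * (n + 3))
    (by
      have : {X : Matrix (Fin n) (Fin n) ℝ | ∀ r, 0 < X r r} =
          ⋂ r, {X : Matrix (Fin n) (Fin n) ℝ | 0 < X r r} := by
        ext X; simp
      rw [this]
      exact isOpen_iInter_of_finite (fun r => isOpen_lt continuous_const (by fun_prop)))
    (fun r => (h.E_pos_iff r r).2 rfl)
  have hji0 : i0 + 1 ≤ j := by omega
  have hjN : 2 * N * (N + 3) ≤ (j : ℝ) := by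
    have h1 : 2 * n * (n + 3) ≤ j := by omega
    have h2 : ((2 * n * (n + 3) : ℕ) : ℝ) ≤ (j : ℝ) := by exact_mod_cast h1
    push_cast at h2
    rw [hN]
    exact h2
  have hjpos : (0 : ℝ) < j := by nlinarith
  -- the pattern of the j-th power
  have hpat : ∀ r c, 0 < (E * A0 ^ j) r c ↔ E r = E c := by
    intro r c
    have h1 : ∀ r, 0 < (E * A0 ^ j) r r := fun r => h.G_supp j r r (hj r)
    constructor
    · intro h2
      exact (h.G_right j r c r h2 (h1 r)).symm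
    · intro h2
      have h3 := h.G_colconst (A0 ^ j) r r c h2
      rw [← h.comm_pow] at h3
      rw [← h3]
      exact h1 r
  have hoffE : ∀ X, off (E * A0 ^ j) X = offE E X := by
    intro X
    unfold off offE
    refine Finset.sum_congr rfl (fun r _ => Finset.sum_congr rfl (fun c _ => ?_))
    by_cases h1 : E r = E c
    · rw [if_pos ((hpat r c).2 h1), if_pos h1]
    · rw [if_neg (fun h2 => h1 ((hpat r c).1 h2)), if_neg h1]
  refine ⟨j, ?_⟩
  -- eventual conditions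
  set δ : ℝ := min (1 / 2) (min (p / (8 * C * (j : ℝ) ^ 2 * N ^ 2)) (θ / (4 * (i0 + 1) * N)))
    with hδ
  have hδpos : 0 < δ := by
    rw [hδ]
    refine lt_min (by norm_num) (lt_min (by positivity) (by positivity))
  have c1 : ∀ᶠ A in 𝓝 A0, ∀ i ∈ Finset.range (j + 1), off (E * A0 ^ i) (A ^ i) < 1 / 4 := by
    rw [Filter.eventually_all_finset]
    intro i _
    have hcont : Continuous (fun A : Matrix (Fin n) (Fin n) ℝ => off (E * A0 ^ i) (A ^ i)) :=
      (continuous_off _).comp (continuous_pow i)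
    refine hcont.continuousAt.eventually_lt continuousAt_const ?_
    rw [h.off_base i]; norm_num
  have c2 : ∀ᶠ A in 𝓝 A0, off (E * A0 ^ 1) A < δ := by
    refine (continuous_off _).continuousAt.eventually_lt continuousAt_const ?_
    have := h.off_base 1
    rw [pow_one] at this
    rw [pow_one, this]; exact hδpos
  have c3 : ∀ᶠ A in 𝓝 A0, nrm ((1 - E) * A ^ i0) < θ / 2 := by
    have hcont : Continuous (fun A : Matrix (Fin n) (Fin n) ℝ => nrm ((1 - E) * A ^ i0)) :=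
      continuous_nrm.comp ((continuous_const_mul (1 - E)).comp (continuous_pow i0))
    exact hcont.continuousAt.eventually_lt continuousAt_const hi0
  filter_upwards [c1, c2, c3] with A hc1 hc2 hc3 hA k hk
  obtain ⟨Ag, W, hg⟩ := exists_good (E * A0 ^ 1) hA
  set ε : ℝ := off (E * A0 ^ 1) A with hε
  have hε0 : 0 ≤ ε := off_nonneg _ hA
  have hWε : W ≤ ε := hg.Woff
  have hεδ : ε < δ := hc2
  have hδ1 : δ ≤ 1 / 2 := min_le_left _ _
  have hδ2 : δ ≤ p / (8 * C * (j : ℝ) ^ 2 * N ^ 2) := (min_le_right _ _).trans (min_le_left _ _)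
  have hδ3 : δ ≤ θ / (4 * (i0 + 1) * N) := (min_le_right _ _).trans (min_le_right _ _)
  have hW1 : W < 1 := by linarith
  have hAgrow : ∀ r, ∑ c, Ag r c ≤ 1 := fun r => by rw [hg.row]; linarith [hg.W0]
  -- norm of A - Ag
  have hdiff : nrm (A - Ag) = N * W := by
    unfold nrm
    have e1 : ∀ i, ∑ j, |(A - Ag) i j| = W := by
      intro i
      have e2 : ∀ j, |(A - Ag) i j| = A i j - Ag i j := by
        intro j
        rw [Matrix.sub_apply, abs_of_nonneg (sub_nonneg.2 (hg.le i j))]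
      rw [Finset.sum_congr rfl (fun j _ => e2 j), Finset.sum_sub_distrib, hg.row,
        sum_row_of_mem_doublyStochastic hA]
      ring
    rw [Finset.sum_congr rfl (fun i _ => e1 i), Finset.sum_const, Finset.card_univ,
      Fintype.card_fin, nsmul_eq_mul]
  have hAgnrm : nrm Ag ≤ N := by
    unfold nrm
    have e1 : ∀ i, ∑ j, |Ag i j| ≤ 1 := by
      intro i
      rw [Finset.sum_congr rfl (fun j _ => abs_of_nonneg (hg.nn i j))]
      exact hAgrow i
    calc ∑ i, ∑ j, |Ag i j| ≤ ∑ _i : Fin n, (1 : ℝ) := Finset.sum_le_sum (fun i _ => e1 i)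
      _ = N := by simp [hN]
  have hpd := pow_diff hA hg.nn hAgrow
  rw [hdiff] at hpd
  set η : ℝ := nrm ((1 - E) * Ag) with hη
  have hη0 : 0 ≤ η := nrm_nonneg _
  have hη2 : η ≤ 2 * N := by
    have := nrm_P hE Ag
    linarith
  have hEAg : Commute E Ag := h.good_comm hg
  have hPcomm : Commute (1 - E) Ag := (Commute.one_left Ag).sub_left hEAg
  have hPP : (1 - E) * (1 - E) = 1 - E := by
    rw [Matrix.mul_sub, Matrix.mul_one, hPE, sub_zero]
  -- estimate of (1 - E) Ag ^ j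
  have hfac : (1 - E) * Ag ^ j = ((1 - E) * Ag ^ i0) * ((1 - E) * Ag) * Ag ^ (j - 1 - i0) := by
    have e1 : Ag ^ i0 * (1 - E) = (1 - E) * Ag ^ i0 := (hPcomm.pow_right i0).symm
    have e2 : ((1 - E) * Ag ^ i0) * ((1 - E) * Ag) = (1 - E) * (Ag ^ i0 * Ag) := by
      calc ((1 - E) * Ag ^ i0) * ((1 - E) * Ag) = (1 - E) * (Ag ^ i0 * (1 - E)) * Ag := by
            simp only [mul_assoc]
        _ = (1 - E) * ((1 - E) * Ag ^ i0) * Ag := by rw [e1]
        _ = ((1 - E) * (1 - E)) * (Ag ^ i0 * Ag) := by simp only [mul_assoc]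
        _ = _ := by rw [hPP]
    rw [e2, mul_assoc, ← pow_succ, ← pow_add]
    congr 2
    omega
  have hθ' : nrm ((1 - E) * Ag ^ i0) ≤ θ := by
    have e1 : (1 - E) * Ag ^ i0 = (1 - E) * A ^ i0 - (1 - E) * (A ^ i0 - Ag ^ i0) := by
      rw [← Matrix.mul_sub]; congr 1; abel
    rw [e1]
    refine (nrm_sub _ _).trans ?_
    have e2 := nrm_P hE (A ^ i0 - Ag ^ i0)
    have e3 := hpd i0
    have e4 : 2 * ((i0 : ℝ) * (N * W)) ≤ θ / 2 := by
      have e5 : W ≤ θ / (4 * (i0 + 1) * N) := by linarith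
      have e6 : 0 < 4 * ((i0 : ℝ) + 1) * N := by positivity
      rw [le_div_iff₀ e6] at e5
      have e7 : 0 ≤ N * W := mul_nonneg (by linarith) hg.W0
      nlinarith
    linarith
  have hAgpow : ∀ (X : Matrix (Fin n) (Fin n) ℝ) (i : ℕ), nrm (X * Ag ^ i) ≤ nrm X := by
    intro X i
    induction i with
    | zero => simp
    | succ i ih =>
      rw [pow_succ, ← mul_assoc]
      exact (nrm_mul_right _ _ hg.nn hAgrow).trans ih
  have hPj : nrm ((1 - E) * Ag ^ j) ≤ θ * η := by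
    rw [hfac]
    refine (hAgpow _ _).trans ((nrm_mul _ _).trans ?_)
    exact mul_le_mul_of_nonneg_right hθ' hη0
  have hζ : nrm ((1 - E) * A ^ j) ≤ θ * η + 2 * j * N * ε := by
    have e1 : (1 - E) * A ^ j = (1 - E) * Ag ^ j + (1 - E) * (A ^ j - Ag ^ j) := by
      rw [← Matrix.mul_add]; congr 1; abel
    rw [e1]
    refine (nrm_add _ _).trans ?_
    have e2 := nrm_P hE (A ^ j - Ag ^ j)
    have e3 := hpd j
    have e4 : (j : ℝ) * (N * W) ≤ j * (N * ε) :=
      mul_le_mul_of_nonneg_left (mul_le_mul_of_nonneg_left hWε (by linarith)) hjpos.le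
    linarith
  -- upper bound
  have hAj : A ^ j ∈ doublyStochastic ℝ (Fin n) := pow_mem hA j
  have hoffj : off (E * A0 ^ j) (A ^ j) < 1 / 4 := hc1 j (Finset.mem_range.2 (Nat.lt_succ_self j))
  have hup := h.upper hAj (pow_mem hA (k - j)) (by rw [← hoffE]; linarith) _ hζ
  have hkj : A ^ j * A ^ (k - j) = A ^ k := by
    rw [← pow_add]; congr 1; omega
  rw [hkj, ← hoffE] at hup
  have hoffit := h.off_iter hA j (fun i hi => (hc1 i (Finset.mem_range.2 (by omega))).le)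
  -- lower bound
  obtain ⟨c, hc⟩ := exists_col ((1 - E) * Ag)
  have hlow := h.lower hg hW1 c
  have hYeq : Ag - E * Ag = (1 - E) * Ag := by rw [Matrix.sub_mul, Matrix.one_mul]
  rw [hYeq] at hlow
  have hAgA : Ag.permanent ≤ A.permanent := permanent_mono hg.nn hg.le
  have hlow2 : (1 - N * W) * (p * (1 + η ^ 2 / (2 * N ^ 3))) ≤ A.permanent := by
    refine le_trans ?_ (hlow.2.trans hAgA)
    have e1 : η ^ 2 / (2 * N ^ 3) ≤ (∑ i, (((1 - E) * Ag) i c) ^ 2) / 2 := by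
      rw [div_le_div_iff₀ (by positivity) (by norm_num)]
      have : η ^ 2 ≤ N ^ 3 * ∑ i, (((1 - E) * Ag) i c) ^ 2 := hc
      linarith
    have e2 : 1 - N * W ≤ (1 - W) ^ n := by
      have := one_add_mul_le_pow (a := -W) (by linarith) n
      have e3 : (1 : ℝ) + -W = 1 - W := by ring
      rw [e3] at this
      rw [hN]
      linarith
    have e3 : 0 ≤ (1 - W) ^ n := pow_nonneg (by linarith) n
    have e4 : 0 ≤ p * (1 + η ^ 2 / (2 * N ^ 3)) := by positivity
    calc (1 - N * W) * (p * (1 + η ^ 2 / (2 * N ^ 3)))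
        ≤ (1 - W) ^ n * (p * (1 + η ^ 2 / (2 * N ^ 3))) := mul_le_mul_of_nonneg_right e2 e4
      _ ≤ (1 - W) ^ n * (p * (1 + (∑ i, (((1 - E) * Ag) i c) ^ 2) / 2)) := by
          refine mul_le_mul_of_nonneg_left (mul_le_mul_of_nonneg_left ?_ hppos.le) e3
          linarith
  refine numeric N p C θ η ε W j _ _ hN1 hppos hCpos hθpos hθ1 hθ2 hη0 hη2 hε0 hg.W0 hWε hjN
    (hεδ.le.trans hδ2) ?_ hlow2
  refine hup.trans ?_
  have e1 : p * (N - off (E * A0 ^ j) (A ^ j)) ≤ p * (N - j / 2 * ε) := by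
    refine mul_le_mul_of_nonneg_left ?_ hppos.le
    linarith
  have e2 : (n : ℝ) * ((n.factorial : ℝ) * 2 ^ n * (θ * η + 2 * j * N * ε) ^ 2) =
      N * (C * (θ * η + 2 * j * N * ε) ^ 2) := by rw [hN, hC]
  linarith

/-- Foregger's conjecture in a strong form: for every order `n` the inequality
`per (A ^ k) ≤ per A` holds for all doubly stochastic `A` as soon as `k` is large enough. -/
theorem foregger_strong [NeZero n] : ∃ K : ℕ, ∀ k : ℕ, K ≤ k →
    ∀ A : Matrix (Fin n) (Fin n) ℝ, A ∈ doublyStochastic ℝ (Fin n) →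
      (A ^ k).permanent ≤ A.permanent := by
  have key : ∃ K : ℕ, ∀ A ∈ (doublyStochastic ℝ (Fin n) : Set (Matrix (Fin n) (Fin n) ℝ)),
      A ∈ doublyStochastic ℝ (Fin n) → ∀ k : ℕ, K ≤ k → (A ^ k).permanent ≤ A.permanent := by
    refine isCompact_DS.induction_on (p := fun s => ∃ K : ℕ, ∀ A ∈ s,
      A ∈ doublyStochastic ℝ (Fin n) → ∀ k : ℕ, K ≤ k → (A ^ k).permanent ≤ A.permanent) ?_ ?_ ?_ ?_
    · exact ⟨0, fun A hA => absurd hA (Set.notMem_empty A)⟩
    · rintro s t hst ⟨K, hK⟩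
      exact ⟨K, fun A hA => hK A (hst hA)⟩
    · rintro s t ⟨K, hK⟩ ⟨K', hK'⟩
      refine ⟨max K K', fun A hA hD k hk => ?_⟩
      rcases hA with hA | hA
      · exact hK A hA hD k (le_trans (le_max_left _ _) hk)
      · exact hK' A hA hD k (le_trans (le_max_right _ _) hk)
    · intro A0 hA0
      obtain ⟨K, hK⟩ := local_bound (n := n) hA0
      refine ⟨{A | A ∈ doublyStochastic ℝ (Fin n) → ∀ k : ℕ, K ≤ k →
        (A ^ k).permanent ≤ A.permanent}, mem_nhdsWithin_of_mem_nhds hK, K, fun A hA hD => hA hD⟩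
  obtain ⟨K, hK⟩ := key
  exact ⟨K, fun k hk A hA => hK A hA hA k hk⟩

end Pool.Agent.Lib.MP_2b959d_co
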